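import Pool.Agent.P.MP_c47a54_pr.Semi

namespace Pool.Agent.P.MP_c47a54_pr

open Equiv Finset

variable {d n : ℕ}

structure Hyp (μ : Perm (Fin d) → ℝ) : Prop where
  two : 2 ≤ d
  nonneg : ∀ σ, 0 ≤ μ σ
  sum : ∑ σ, μ σ = 1
  irr : ∀ i j, ∃ k : ℕ, 0 < (urnMat μ ^ k) i j

/-- the randomness of one update -/
abbrev Om (d n : ℕ) := Perm (Fin d) × (Fin d → Fin n)

noncomputable def wt (μ : Perm (Fin d) → ℝ) (n : ℕ) (ω : Om d n) : ℝ := μ ω.1 / (n : ℝ) ^ d

abbrev mv (ω : Om d n) : Perm (Slot d n) := move ω.1 ω.2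

/-- one step of the ordered labelled chain -/
noncomputable def KX (μ : Perm (Fin d) → ℝ) (n : ℕ) : Op (Perm (Slot d n)) :=
  Kup (wt μ n) fun ω η => mv ω * η

lemma wt_nonneg {μ : Perm (Fin d) → ℝ} (h : Hyp μ) (ω : Om d n) : 0 ≤ wt μ n ω :=
  div_nonneg (h.nonneg _) (by positivity)

lemma wt_sum {μ : Perm (Fin d) → ℝ} (h : Hyp μ) (hn : 0 < n) : ∑ ω, wt μ n ω = 1 := by
  have : (n : ℝ) ^ d ≠ 0 := by positivity
  rw [Fintype.sum_prod_type]
  simp only [wt, sum_const, card_univ, Fintype.card_pi, Fintype.card_fin, prod_const,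
    nsmul_eq_mul, Nat.cast_pow]
  rw [← h.sum]
  exact sum_congr rfl fun σ _ => by field_simp

lemma markov_KX {μ : Perm (Fin d) → ℝ} (h : Hyp μ) (hn : 0 < n) : Markov (KX μ n) :=
  markov_Kup (wt_nonneg h) (wt_sum h hn) _

lemma KX_apply (μ : Perm (Fin d) → ℝ) (φ : Perm (Slot d n) → ℝ) (x : Perm (Slot d n)) :
    KX μ n φ x = ∑ ω, wt μ n ω * φ (mv ω * x) := rfl

lemma opM_jumpX (μ : Perm (Fin d) → ℝ) : opM (jumpX μ n) = KX μ n := by
  ext φ x
  rw [opM_apply, KX_apply, Fintype.sum_prod_type]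
  simp only [Matrix.mulVec, dotProduct, jumpX, sum_mul, ite_mul, zero_mul]
  rw [sum_comm]
  refine sum_congr rfl fun σ _ => ?_
  rw [sum_comm]
  refine sum_congr rfl fun j _ => ?_
  rw [sum_ite_eq]
  simp [wt]

lemma heatX_eq (μ : Perm (Fin d) → ℝ) (t : ℝ) (x y : Perm (Slot d n)) :
    heat (jumpX μ n) t x y = Pt (KX μ n) t (fun z => if z = y then 1 else 0) x := by
  rw [heat_eq, opM_jumpX]

lemma move_apply (σ : Perm (Fin d)) (j : Fin d → Fin n) (v : Slot d n) :
    move σ j v = if v.2 = j v.1 then (σ v.1, j (σ v.1)) else v := rfl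

lemma move_sel (σ : Perm (Fin d)) (j : Fin d → Fin n) (i : Fin d) :
    move σ j (i, j i) = (σ i, j (σ i)) := by simp [move_apply]

lemma move_of_ne (σ : Perm (Fin d)) {j : Fin d → Fin n} {v : Slot d n} (h : v.2 ≠ j v.1) :
    move σ j v = v := by simp [move_apply, h]

lemma move_mul (σ τ : Perm (Fin d)) (j : Fin d → Fin n) :
    move (σ * τ) j = move σ j * move τ j := by
  ext1 v
  by_cases h : v.2 = j v.1 <;> simp [move_apply, h]

lemma move_one (j : Fin d → Fin n) : move 1 j = 1 := by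
  ext1 v
  by_cases h : v.2 = j v.1
  · simp [move_apply, ← h]
  · simp [move_apply, h]

lemma move_swap (i i' : Fin d) (j : Fin d → Fin n) :
    move (swap i i') j = swap (i, j i) (i', j i') := by
  ext1 v
  by_cases h : v.2 = j v.1
  · obtain ⟨a, b⟩ := v
    simp only at h
    subst h
    rw [move_sel]
    by_cases h1 : a = i
    · subst h1; simp
    by_cases h2 : a = i'
    · subst h2; simp
    rw [swap_apply_of_ne_of_ne h1 h2, swap_apply_of_ne_of_ne (by simp [h1]) (by simp [h2])]
  · rw [move_of_ne _ h, swap_apply_of_ne_of_ne]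
    · rintro rfl; exact h rfl
    · rintro rfl; exact h rfl

lemma sign_move (σ : Perm (Fin d)) (j : Fin d → Fin n) : Perm.sign (move σ j) = Perm.sign σ := by
  induction σ using Perm.swap_induction_on with
  | one => simp [move_one]
  | swap_mul f x y hxy ih =>
    rw [move_mul, move_swap, map_mul, map_mul, ih, Perm.sign_swap hxy,
      Perm.sign_swap (by simp [hxy])]

/-- a coordinate of a uniform vector is independent of the others -/
lemma sum_sel (i : Fin d) (a : Fin n) (F : (Fin d → Fin n) → ℝ)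
    (hF : ∀ x b, F (Function.update x i b) = F x) :
    (n : ℝ) * ∑ x : Fin d → Fin n, (if x i = a then F x else 0) = ∑ x, F x := by
  have h : ∀ b : Fin n, ∑ x : Fin d → Fin n, (if x i = b then F x else 0) =
      ∑ x : Fin d → Fin n, (if x i = a then F x else 0) := by
    intro b
    refine sum_equiv (Equiv.piCongrRight (Function.update (fun _ => Equiv.refl _) i (swap a b)))
      (by simp) fun x _ => ?_
    have e : (Equiv.piCongrRight (Function.update (fun _ => Equiv.refl _) i (swap a b))) x =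
        Function.update x i (swap a b (x i)) := by
      funext k
      by_cases hk : k = i
      · subst hk; simp
      · simp [hk]
    rw [e, hF, Function.update_self]
    congr 1
    rw [swap_apply_eq_iff]; simp
  calc (n : ℝ) * ∑ x : Fin d → Fin n, (if x i = a then F x else 0)
      = ∑ b : Fin n, ∑ x : Fin d → Fin n, (if x i = b then F x else 0) := by simp [h]
    _ = ∑ x, F x := by rw [sum_comm]; simp

end Pool.Agent.P.MP_c47a54_pr
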