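import Mathlib

namespace Pool.Agent.P.MP_c47a54_pr

open Equiv

/-- slot `j` of urn `i` -/
abbrev Slot (d n : ℕ) := Fin d × Fin n

/-- one update: the content of slot `(i, j i)` goes to slot `(σ i, j (σ i))`, for all `i` -/
def move {d n : ℕ} (σ : Perm (Fin d)) (j : Fin d → Fin n) : Perm (Slot d n) where
  toFun v := if v.2 = j v.1 then (σ v.1, j (σ v.1)) else v
  invFun v := if v.2 = j v.1 then (σ⁻¹ v.1, j (σ⁻¹ v.1)) else v
  left_inv v := by
    by_cases h : v.2 = j v.1
    · simp [h, Prod.ext_iff]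
    · simp [h]
  right_inv v := by
    by_cases h : v.2 = j v.1
    · simp [h, Prod.ext_iff]
    · simp [h]

/-- the single-ball transition matrix on urns -/
noncomputable def urnMat {d : ℕ} (μ : Perm (Fin d) → ℝ) : Matrix (Fin d) (Fin d) ℝ :=
  fun i i' => ∑ σ, if σ i = i' then μ σ else 0

/-- jump matrix of the ordered labelled chain; a state sends each ball to its slot, and the
balls are labelled by the slots -/
noncomputable def jumpX {d : ℕ} (μ : Perm (Fin d) → ℝ) (n : ℕ) :
    Matrix (Perm (Slot d n)) (Perm (Slot d n)) ℝ :=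
  fun x y => ∑ σ, ∑ j : Fin d → Fin n, if move σ j * x = y then μ σ / (n : ℝ) ^ d else 0

/-- jump matrix of one selected ball -/
noncomputable def jumpBall {d : ℕ} (μ : Perm (Fin d) → ℝ) (n : ℕ) :
    Matrix (Slot d n) (Slot d n) ℝ :=
  fun v w => ∑ σ, if σ v.1 = w.1 then
    μ σ * (if σ v.1 = v.1 then (if w.2 = v.2 then 1 else 0) else 1 / (n : ℝ)) else 0

/-- transition probabilities at time `t` of the chain with jump matrix `K` and rate one -/
noncomputable def heat {S : Type} [Fintype S] [DecidableEq S] (K : Matrix S S ℝ) (t : ℝ)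
    (x y : S) : ℝ :=
  ∑' k : ℕ, Real.exp (-t) * t ^ k / (k.factorial : ℝ) * (K ^ k) x y

/-- transition probabilities of the product chain -/
noncomputable def heatY {d : ℕ} (μ : Perm (Fin d) → ℝ) (n : ℕ) (t : ℝ)
    (x y : Slot d n → Slot d n) : ℝ :=
  ∏ b, heat (jumpBall μ n) (t / n) (x b) (y b)

open Classical in
/-- state space of the ordered labelled chain: all permutations, or the even ones when the
support of `μ` has no odd permutation -/
noncomputable def spaceX {d : ℕ} (μ : Perm (Fin d) → ℝ) (n : ℕ) : Finset (Perm (Slot d n)) :=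
  Finset.univ.filter fun η => (∀ σ, μ σ ≠ 0 → Perm.sign σ = 1) → Perm.sign η = 1

/-- total variation distance from `p` to the uniform law on `A` -/
noncomputable def tv {S : Type} [Fintype S] [DecidableEq S] (p : S → ℝ) (A : Finset S) : ℝ :=
  1 / 2 * ∑ y, |p y - if y ∈ A then 1 / (A.card : ℝ) else 0|

/-- mixing time of the transition probabilities `P` on the state space `A` -/
noncomputable def tmix {S : Type} [Fintype S] [DecidableEq S] (P : ℝ → S → S → ℝ) (A : Finset S)
    (ε : ℝ) : ℝ :=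
  sInf {t | 0 ≤ t ∧ ∀ x ∈ A, tv (P t x) A ≤ ε}

/-- `q`: the least value of `1 - U i i` -/
noncomputable def holdGap {d : ℕ} (μ : Perm (Fin d) → ℝ) : ℝ := ⨅ i, (1 - urnMat μ i i)

/-- `γ`: the least value of `1 - Re λ` over eigenvalues `λ` of `U` with a non-constant complex
eigenvector -/
noncomputable def specGap {d : ℕ} (μ : Perm (Fin d) → ℝ) : ℝ :=
  sInf {g | ∃ (l : ℂ) (v : Fin d → ℂ), (∃ i j, v i ≠ v j) ∧
    (∀ i, ∑ j, (urnMat μ i j : ℂ) * v j = l * v i) ∧ g = 1 - l.re}

/-- `T_n = n log n max (1/q) (1/(2γ))` -/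
noncomputable def cutTime {d : ℕ} (μ : Perm (Fin d) → ℝ) (n : ℕ) : ℝ :=
  n * Real.log n * max (1 / holdGap μ) (1 / (2 * specGap μ))

end Pool.Agent.P.MP_c47a54_pr
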