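import Pool.Agent.P.MP_c47a54_pr.Base

namespace Pool.Agent.P.MP_c47a54_pr

open Filter

theorem glue {S : ℕ → Type} [∀ n, Fintype (S n)] [∀ n, DecidableEq (S n)]
    (P : ∀ n, ℝ → S n → S n → ℝ) (A : ∀ n, Finset (S n)) (T : ℕ → ℝ)
    (hT : ∀ᶠ n in atTop, 0 < T n) {ε : ℝ}
    (hup : ∀ η : ℝ, 0 < η → ∀ᶠ n in atTop, ∀ x ∈ A n, tv (P n ((1 + η) * T n) x) (A n) ≤ ε)
    (hlow : ∀ η : ℝ, 0 < η → ∀ᶠ n in atTop, ∀ t, 0 ≤ t → t ≤ (1 - η) * T n →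
      ∃ x ∈ A n, ε < tv (P n t x) (A n)) :
    Tendsto (fun n => tmix (P n) (A n) ε / T n) atTop (nhds 1) := by
  rw [Metric.tendsto_nhds]
  intro δ hδ
  filter_upwards [hT, hup (δ / 2) (half_pos hδ), hlow (δ / 2) (half_pos hδ)] with n h0 h1 h2
  have hm : (1 + δ / 2) * T n ∈ {t | 0 ≤ t ∧ ∀ x ∈ A n, tv (P n t x) (A n) ≤ ε} :=
    ⟨by positivity, h1⟩
  have h3 : tmix (P n) (A n) ε ≤ (1 + δ / 2) * T n := csInf_le ⟨0, fun _ ht => ht.1⟩ hm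
  have h4 : (1 - δ / 2) * T n ≤ tmix (P n) (A n) ε := by
    refine le_csInf ⟨_, hm⟩ fun t ht => ?_
    by_contra hc
    obtain ⟨x, hx, hlt⟩ := h2 t ht.1 (not_le.1 hc).le
    exact absurd (ht.2 x hx) (not_le.2 hlt)
  rw [Real.dist_eq, abs_lt]
  rw [← div_le_iff₀ h0] at h3
  rw [← le_div_iff₀ h0] at h4
  constructor <;> linarith

end Pool.Agent.P.MP_c47a54_pr
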