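import Pool.Agent.P.MP_c47a54_pr.Rep

namespace Pool.Agent.P.MP_c47a54_pr

open Equiv Finset Module WithLp
open scoped RealInnerProductSpace

variable {V : Type} [Fintype V] [DecidableEq V]

/-- functions on permutations orthogonal to all functions of `k` balls -/
def Hi (V : Type) [Fintype V] [DecidableEq V] (k : ℕ) : Submodule ℝ (Perm V → ℝ) where
  carrier := {w | ∀ A : Finset V, A.card + k = Fintype.card V → ∀ η, ∑ u ∈ Gam A, w (η * u) = 0}
  add_mem' := fun ha hb A hA η => by simp [sum_add_distrib, ha A hA η, hb A hA η]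
  zero_mem' := fun A hA η => by simp
  smul_mem' := fun c w hw A hA η => by simp [← mul_sum, hw A hA η]

lemma mem_Hi {k : ℕ} {w : Perm V → ℝ} : w ∈ Hi V k ↔
    ∀ A : Finset V, A.card + k = Fintype.card V → ∀ η, ∑ u ∈ Gam A, w (η * u) = 0 := Iff.rfl

/-- `Hi` is stable under left translations -/
lemma left_mem_Hi {k : ℕ} {w : Perm V → ℝ} (hw : w ∈ Hi V k) (g : Perm V) :
    (fun η => w (g * η)) ∈ Hi V k := fun A hA η => by
  simpa only [mul_assoc] using hw A hA (g * η)

abbrev EP (V : Type) := EuclideanSpace ℝ (Perm V)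

/-- the right regular representation -/
def rho (V : Type) [Fintype V] [DecidableEq V] : Representation ℝ (Perm V) (EP V) where
  toFun u :=
    { toFun := fun w => toLp 2 fun η => w (η * u)
      map_add' := fun _ _ => rfl
      map_smul' := fun _ _ => rfl }
  map_one' := by ext w η; simp
  map_mul' u v := by ext w η; simp [mul_assoc]

lemma rho_apply (u : Perm V) (w : EP V) (η : Perm V) : rho V u w η = w (η * u) := rfl

lemma inner_EP (x y : EP V) : ⟪x, y⟫ = ∑ η, x η * y η := by
  simp [PiLp.inner_apply, mul_comm]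

lemma norm_sq_EP (x : EP V) : ‖x‖ ^ 2 = x.ofLp ⬝ᵥ x.ofLp := by
  rw [← real_inner_self_eq_norm_sq, inner_EP]; rfl

lemma orth_rho : Orth (rho V) := fun u x y => by
  simp only [inner_EP, rho_apply]
  exact (sum_equiv (Equiv.mulRight u) (by simp) fun η _ => by simp)

lemma Q_rho_apply (A : Finset V) (w : EP V) (η : Perm V) :
    Q (rho V) A w η = ((Gam A).card : ℝ)⁻¹ * ∑ u ∈ Gam A, w (η * u) := by
  simp [Q, LinearMap.sum_apply, rho_apply]

lemma Zt_rho_apply (w : EP V) (η : Perm V) :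
    Zt (rho V) w η = ∑ x ∈ (univ : Finset V).offDiag, w (η * swap x.1 x.2) := by
  simp [Zt, LinearMap.sum_apply, rho_apply]

/-- `Hi` inside the Euclidean space -/
def HiE (V : Type) [Fintype V] [DecidableEq V] (k : ℕ) : Submodule ℝ (EP V) :=
  (Hi V k).comap (WithLp.linearEquiv 2 ℝ (Perm V → ℝ)).toLinearMap

lemma mem_HiE {k : ℕ} {w : EP V} : w ∈ HiE V k ↔ w.ofLp ∈ Hi V k := Iff.rfl

lemma mem_HiE' {k : ℕ} {w : EP V} :
    w ∈ HiE V k ↔ ∀ A : Finset V, A.card + k = Fintype.card V → Q (rho V) A w = 0 := by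
  rw [mem_HiE, mem_Hi]
  refine forall₂_congr fun A hA => ⟨fun h => ?_, fun h η => ?_⟩
  · ext η; rw [Q_rho_apply, h η]; simp
  · have := congrArg (fun x : EP V => x η) h
    simpa [Q_rho_apply, (card_Gam_pos A).ne'] using this

lemma HiE_inv (k : ℕ) (g : Perm V) : HiE V k ≤ (HiE V k).comap (rho V g) := fun w hw => by
  rw [Submodule.mem_comap, mem_HiE'] at *
  intro A hA
  have := Q_conj (ρ := rho V) g (A.map g⁻¹.toEmbedding)
  have e : (A.map g⁻¹.toEmbedding).map g.toEmbedding = A := by ext v; simp [Perm.inv_def]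
  rw [e] at this
  rw [← End.mul_apply, ← this, End.mul_apply, hw _ (by simpa using hA), map_zero]

/-- sums over all transpositions are central -/
lemma sum_swap_left (w : Perm V → ℝ) (η : Perm V) :
    ∑ x ∈ (univ : Finset V).offDiag, w (η * swap x.1 x.2) =
      ∑ x ∈ (univ : Finset V).offDiag, w (swap x.1 x.2 * η) :=
  sum_equiv (Equiv.prodCongr η η) (fun x => by simp) fun x _ => by
    rw [mul_swap_eq_swap_mul]; rfl

/-- spectral gap of random transpositions on `Hi k` -/
theorem gap_Hi {k : ℕ} (hk : k + 2 ≤ Fintype.card V) {w : Perm V → ℝ} (hw : w ∈ Hi V k) :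
    ∑ x ∈ (univ : Finset V).offDiag, ∑ η, w (swap x.1 x.2 * η) * w η ≤
      (Fintype.card V * (Fintype.card V - 1) - Fintype.card V * (k + 1)) * (w ⬝ᵥ w) := by
  have h := (orth_rho.sub (HiE_inv (V := V) k)).gap_Zt hk (fun A hA => LinearMap.ext fun x =>
    Subtype.ext (by rw [Q_sub]; exact mem_HiE'.1 x.2 A hA)) ⟨toLp 2 w, hw⟩
  rw [Submodule.coe_inner, Zt_sub, inner_EP, Submodule.coe_norm, norm_sq_EP] at h
  simp only [Zt_rho_apply, sum_swap_left, sum_mul] at h
  rwa [sum_comm]

end Pool.Agent.P.MP_c47a54_pr
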