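import Pool.Agent.P.MP_c47a54_pr.Base
import Pool.Agent.P.MP_c47a54_pr.Lev

namespace Pool.Agent.P.MP_c47a54_pr

open Equiv Finset

section Dir
variable {V : Type} [Fintype V] [DecidableEq V]

/-- Dirichlet energy of the left translation by `g` -/
def Dw (w : Perm V → ℝ) (g : Perm V) : ℝ := ∑ η, (w (g * η) - w η) ^ 2

lemma Dw_nonneg (w : Perm V → ℝ) (g : Perm V) : 0 ≤ Dw w g := sum_nonneg fun _ _ => sq_nonneg _

lemma sum_left (F : Perm V → ℝ) (g : Perm V) : ∑ η, F (g * η) = ∑ η, F η :=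
  sum_equiv (Equiv.mulLeft g) (by simp) fun _ _ => rfl

lemma Dw_eq (w : Perm V → ℝ) (g : Perm V) :
    Dw w g = 2 * (w ⬝ᵥ w - ∑ η, w (g * η) * w η) := by
  have h := sum_left (fun η => w η * w η) g
  have : Dw w g = ∑ η, w (g * η) * w (g * η) + ∑ η, w η * w η - 2 * ∑ η, w (g * η) * w η := by
    rw [Dw, mul_sum, ← sum_add_distrib, ← sum_sub_distrib]
    exact sum_congr rfl fun _ _ => by ring
  rw [this, h, dotProduct]; ring

lemma Dw_one (w : Perm V → ℝ) : Dw w 1 = 0 := by simp [Dw]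

lemma Dw_inv (w : Perm V → ℝ) (g : Perm V) : Dw w g⁻¹ = Dw w g := by
  rw [Dw, ← sum_left _ g]
  exact sum_congr rfl fun η _ => by simp only [inv_mul_cancel_left]; ring

lemma Dw_mul (w : Perm V → ℝ) (g g' : Perm V) : Dw w (g * g') ≤ 2 * Dw w g + 2 * Dw w g' := by
  have h : Dw w g = ∑ η, (w (g * (g' * η)) - w (g' * η)) ^ 2 :=
    (sum_left (fun η => (w (g * η) - w η) ^ 2) g').symm
  rw [h, Dw, Dw, mul_sum, mul_sum, ← sum_add_distrib]
  refine sum_le_sum fun η _ => ?_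
  rw [mul_assoc]
  nlinarith [sq_nonneg (w (g * (g' * η)) - 2 * w (g' * η) + w η)]

/-- sum over all transpositions -/
def Zw (w : Perm V → ℝ) (η : Perm V) : ℝ := ∑ x ∈ (univ : Finset V).offDiag, w (swap x.1 x.2 * η)

lemma Zw_symm (w v : Perm V → ℝ) : Zw w ⬝ᵥ v = w ⬝ᵥ Zw v := by
  simp only [dotProduct, Zw, sum_mul, mul_sum]
  rw [sum_comm, sum_comm (s := univ)]
  refine sum_congr rfl fun x _ => ?_
  rw [← sum_left _ (swap x.1 x.2)]
  exact sum_congr rfl fun η _ => by simp only [swap_mul_self_mul]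

lemma Zw_mem {k : ℕ} {w : Perm V → ℝ} (hw : w ∈ Hi V k) : Zw w ∈ Hi V k := by
  have : Zw w = ∑ x ∈ (univ : Finset V).offDiag, fun η => w (swap x.1 x.2 * η) := by
    funext η; simp [Zw]
  rw [this]
  exact Submodule.sum_mem _ fun x _ => left_mem_Hi hw _

lemma gap_Zw {k : ℕ} (hk : k + 2 ≤ Fintype.card V) {w : Perm V → ℝ} (hw : w ∈ Hi V k) :
    Zw w ⬝ᵥ w ≤
      (Fintype.card V * (Fintype.card V - 1) - Fintype.card V * (k + 1)) * (w ⬝ᵥ w) := by
  refine le_trans (le_of_eq ?_) (gap_Hi hk hw)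
  simp only [dotProduct, Zw, sum_mul]
  rw [sum_comm]

lemma Zw_par {w : Perm V → ℝ} {s : ℤˣ} (hw : ∀ y, Perm.sign y = s → w y = 0) (y : Perm V)
    (hy : Perm.sign y = -s) : Zw w y = 0 := by
  refine sum_eq_zero fun x hx => hw _ ?_
  rw [map_mul, Perm.sign_swap (mem_offDiag.1 hx).2.2, hy]; simp

lemma dot_par {w v : Perm V → ℝ} {s : ℤˣ} (hw : ∀ y, Perm.sign y = s → w y = 0)
    (hv : ∀ y, Perm.sign y = -s → v y = 0) : w ⬝ᵥ v = 0 := by
  refine sum_eq_zero fun y _ => ?_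
  rcases Int.units_eq_one_or (Perm.sign y) with h | h <;> rcases Int.units_eq_one_or s with h' | h'
  · rw [hw y (h.trans h'.symm), zero_mul]
  · rw [hv y (by rw [h, h']; simp), mul_zero]
  · rw [hv y (by rw [h, h']), mul_zero]
  · rw [hw y (h.trans h'.symm), zero_mul]

lemma Zw_add (w v : Perm V → ℝ) (t : ℝ) : Zw (t • w + v) = t • Zw w + Zw v := by
  funext η; simp [Zw, sum_add_distrib, mul_sum]

lemma dsn_high (w : Perm V → ℝ) : 0 ≤ w ⬝ᵥ w := sum_nonneg fun _ _ => mul_self_nonneg _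

lemma card_offDiag_real :
    (((univ : Finset V).offDiag.card : ℕ) : ℝ) = Fintype.card V * (Fintype.card V - 1) := by
  rw [offDiag_card, card_univ, Nat.cast_sub (Nat.le_mul_self _)]
  push_cast; ring

lemma sum_Dw_swap {k : ℕ} (hk : k + 2 ≤ Fintype.card V) {w : Perm V → ℝ} (hw : w ∈ Hi V k) :
    2 * (Fintype.card V * (k + 1)) * (w ⬝ᵥ w) ≤
      ∑ x ∈ (univ : Finset V).offDiag, Dw w (swap x.1 x.2) := by
  have h := gap_Hi hk hw
  simp only [Dw_eq, mul_sub, sum_sub_distrib, ← mul_sum, sum_const, nsmul_eq_mul, card_offDiag_real]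
  linarith

lemma sum_Dw_swap_swap {k : ℕ} (hk : k + 3 ≤ Fintype.card V) {w : Perm V → ℝ} (hw : w ∈ Hi V k)
    (hp : ∀ y, Perm.sign y = -1 → w y = 0) :
    2 * (Fintype.card V * (k + 1)) * (Fintype.card V * (Fintype.card V - 1)) * (w ⬝ᵥ w) ≤
      ∑ x ∈ (univ : Finset V).offDiag ×ˢ (univ : Finset V).offDiag,
        Dw w (swap x.1.1 x.1.2 * swap x.2.1 x.2.2) := by
  set N : ℝ := (Fintype.card V : ℝ) with hN
  have hkN : (k : ℝ) + 3 ≤ N := by rw [hN]; exact_mod_cast hk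
  have hk0 : (0 : ℝ) ≤ k := Nat.cast_nonneg _
  set θ : ℝ := N * (N - 1) - N * (k + 1) with hθ
  have hθ0 : 0 < θ := by rw [hθ]; nlinarith
  have hZ : ∀ y, Perm.sign y = -(-1) → Zw w y = 0 := Zw_par hp
  have hZZ : ∀ y, Perm.sign y = -(-(-1)) → Zw (Zw w) y = 0 := Zw_par hZ
  have e1 : w ⬝ᵥ Zw w = 0 := dot_par hp hZ
  have e2 : Zw w ⬝ᵥ Zw (Zw w) = 0 := dot_par hZ hZZ
  have e3 : Zw (Zw w) ⬝ᵥ w = Zw w ⬝ᵥ Zw w := Zw_symm _ _
  have hg := gap_Zw (by omega : k + 2 ≤ _)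
    (Submodule.add_mem _ (Submodule.smul_mem _ θ hw) (Zw_mem hw))
  rw [Zw_add] at hg
  simp only [add_dotProduct, dotProduct_add, smul_dotProduct, dotProduct_smul, smul_eq_mul,
    dotProduct_comm (Zw w) w, dotProduct_comm (Zw (Zw w)) (Zw w), e1, e2, e3] at hg
  rw [← hN, ← hθ] at hg
  have hle : Zw w ⬝ᵥ Zw w ≤ θ ^ 2 * (w ⬝ᵥ w) := by
    refine le_of_mul_le_mul_left ?_ hθ0
    nlinarith
  have e4 : ∑ x ∈ (univ : Finset V).offDiag ×ˢ (univ : Finset V).offDiag,
      ∑ η, w (swap x.1.1 x.1.2 * swap x.2.1 x.2.2 * η) * w η = Zw w ⬝ᵥ Zw w := by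
    rw [← e3, sum_comm, dotProduct]
    refine sum_congr rfl fun η _ => ?_
    rw [← sum_mul, sum_product_right]
    simp only [Zw, mul_assoc]
  simp only [Dw_eq, mul_sub, sum_sub_distrib, ← mul_sum, sum_const, nsmul_eq_mul, card_product,
    Nat.cast_mul, card_offDiag_real, e4]
  rw [← hN]
  have h0 := dsn_high w
  have : N * (k + 1) * (N * (N - 1)) ≤ (N * (N - 1)) * (N * (N - 1)) - θ ^ 2 := by
    have : (N * (N - 1)) * (N * (N - 1)) - θ ^ 2 = N * (k + 1) * (N * (N - 1) + θ) := by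
      rw [hθ]; ring
    rw [this]
    exact mul_le_mul_of_nonneg_left (by linarith) (by positivity)
  nlinarith [mul_le_mul_of_nonneg_right this h0]

lemma cyc3 {a b c : V} (hab : a ≠ b) (hbc : b ≠ c) (hac : a ≠ c) :
    swap a b * swap b c = swap b c * swap c a := by
  ext1 v
  by_cases h1 : v = a
  · subst h1; simp [swap_apply_of_ne_of_ne hab hac]
  by_cases h2 : v = b
  · subst h2
    simp [swap_apply_of_ne_of_ne hac.symm hbc.symm, swap_apply_of_ne_of_ne hbc hab.symm]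
  by_cases h3 : v = c
  · subst h3; simp [swap_apply_of_ne_of_ne hab hac]
  simp [swap_apply_of_ne_of_ne h1 h2, swap_apply_of_ne_of_ne h2 h3, swap_apply_of_ne_of_ne h3 h1]

end Dir

variable {d n : ℕ} {μ : Perm (Fin d) → ℝ}

/-- Dirichlet form of the chain -/
noncomputable def En (μ : Perm (Fin d) → ℝ) (n : ℕ) (w : Perm (Slot d n) → ℝ) : ℝ :=
  ∑ ω, wt μ n ω * Dw w (mv ω)

lemma En_nonneg (h : Hyp μ) (w : Perm (Slot d n) → ℝ) : 0 ≤ En μ n w :=
  sum_nonneg fun ω _ => mul_nonneg (wt_nonneg h ω) (Dw_nonneg _ _)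

lemma En_eq (h : Hyp μ) (hn : 0 < n) (w : Perm (Slot d n) → ℝ) :
    En μ n w = 2 * (w ⬝ᵥ w - w ⬝ᵥ KX μ n w) := by
  have e : w ⬝ᵥ KX μ n w = ∑ ω, wt μ n ω * ∑ η, w (mv ω * η) * w η := by
    simp only [dotProduct, KX_apply, mul_sum]
    rw [sum_comm]
    exact sum_congr rfl fun _ _ => sum_congr rfl fun _ _ => by ring
  have e2 : En μ n w = 2 * ((∑ ω, wt μ n ω) * (w ⬝ᵥ w) -
      ∑ ω, wt μ n ω * ∑ η, w (mv ω * η) * w η) := by
    rw [En, sum_mul, ← sum_sub_distrib, mul_sum]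
    exact sum_congr rfl fun ω _ => by rw [Dw_eq]; ring
  rw [e2, e, wt_sum h hn, one_mul]

/-- urn preserving permutations -/
def cj (u : Fin d → Perm (Fin n)) : Perm (Slot d n) := Equiv.prodCongrRight u

lemma cj_apply (u : Fin d → Perm (Fin n)) (v : Slot d n) : cj u v = (v.1, u v.1 v.2) := rfl

lemma conj_move (u : Fin d → Perm (Fin n)) (σ : Perm (Fin d)) (x : Fin d → Fin n) :
    cj u * move σ x * (cj u)⁻¹ = move σ fun i => u i (x i) := by
  rw [mul_inv_eq_iff_eq_mul]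
  ext1 v
  by_cases h : v.2 = x v.1 <;> simp [move_apply, cj_apply, h]

lemma swap_eq_cj (i : Fin d) (a b : Fin n) :
    swap ((i, a) : Slot d n) (i, b) = cj (Function.update 1 i (swap a b)) := by
  ext1 v
  obtain ⟨l, c⟩ := v
  rw [cj_apply]
  by_cases hl : l = i
  · subst hl
    by_cases h1 : c = a
    · subst h1; simp
    by_cases h2 : c = b
    · subst h2; simp
    rw [swap_apply_of_ne_of_ne (by simp [h1]) (by simp [h2])]
    simp [swap_apply_of_ne_of_ne h1 h2]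
  · rw [swap_apply_of_ne_of_ne (by simp [hl]) (by simp [hl])]
    simp [hl]

lemma sum_act (F : (Fin d → Fin n) → ℝ) (x : Fin d → Fin n) :
    (n : ℝ) ^ d * ∑ u : Fin d → Perm (Fin n), F (fun i => u i (x i)) =
      Fintype.card (Fin d → Perm (Fin n)) * ∑ y, F y := by
  have h : ∀ x' : Fin d → Fin n, ∑ u : Fin d → Perm (Fin n), F (fun i => u i (x' i)) =
      ∑ u : Fin d → Perm (Fin n), F (fun i => u i (x i)) := fun x' =>
    sum_equiv (Equiv.mulRight fun i => swap (x i) (x' i)) (by simp) fun u _ => by simp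
  calc (n : ℝ) ^ d * ∑ u : Fin d → Perm (Fin n), F (fun i => u i (x i))
      = ∑ x' : Fin d → Fin n, ∑ u : Fin d → Perm (Fin n), F (fun i => u i (x' i)) := by simp [h]
    _ = ∑ u : Fin d → Perm (Fin n), ∑ y, F y := by
      rw [sum_comm]
      exact sum_congr rfl fun u _ =>
        sum_equiv (Equiv.piCongrRight u) (by simp) fun _ _ => rfl
    _ = _ := by simp

/-- `g` is comparable with the chain -/
def Gd (μ : Perm (Fin d) → ℝ) (n : ℕ) (C : ℝ) (g : Perm (Slot d n)) : Prop :=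
  ∀ w, ∑ u : Fin d → Perm (Fin n), Dw w (cj u * g * (cj u)⁻¹) ≤
    C * (Fintype.card (Fin d → Perm (Fin n)) * En μ n w)

lemma Gd.mono (h : Hyp μ) {C C' : ℝ} {g : Perm (Slot d n)} (hg : Gd μ n C g) (hC : C ≤ C') :
    Gd μ n C' g := fun w =>
  (hg w).trans (mul_le_mul_of_nonneg_right hC (mul_nonneg (Nat.cast_nonneg _) (En_nonneg h w)))

lemma Gd.one : Gd μ n 0 1 := fun w => by simp [Dw_one]

lemma Gd.inv {C : ℝ} {g : Perm (Slot d n)} (hg : Gd μ n C g) : Gd μ n C g⁻¹ := fun w => by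
  refine le_trans (le_of_eq (sum_congr rfl fun u _ => ?_)) (hg w)
  rw [← Dw_inv]; simp [mul_assoc]

lemma Gd.mul {C C' : ℝ} {g g' : Perm (Slot d n)} (hg : Gd μ n C g) (hg' : Gd μ n C' g') :
    Gd μ n (2 * C + 2 * C') (g * g') := fun w => by
  have h : ∑ u : Fin d → Perm (Fin n), Dw w (cj u * (g * g') * (cj u)⁻¹) ≤
      2 * ∑ u : Fin d → Perm (Fin n), Dw w (cj u * g * (cj u)⁻¹) +
        2 * ∑ u : Fin d → Perm (Fin n), Dw w (cj u * g' * (cj u)⁻¹) := by
    rw [mul_sum, mul_sum, ← sum_add_distrib]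
    refine sum_le_sum fun u _ => le_trans (le_of_eq ?_) (Dw_mul w _ _)
    congr 1; group
  linarith [hg w, hg' w]

lemma Gd.move (h : Hyp μ) (hn : 0 < n) {σ : Perm (Fin d)} (hσ : μ σ ≠ 0) (x : Fin d → Fin n) :
    Gd μ n (1 / μ σ) (move σ x) := fun w => by
  have hp : 0 < μ σ := lt_of_le_of_ne (h.nonneg σ) hσ.symm
  have hnd : (0 : ℝ) < (n : ℝ) ^ d := by positivity
  simp only [conj_move]
  have h1 := sum_act (fun y => Dw w (MP_c47a54_pr.move σ y)) x
  have h2 : μ σ / (n : ℝ) ^ d * ∑ y, Dw w (MP_c47a54_pr.move σ y) ≤ En μ n w := by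
    rw [En, Fintype.sum_prod_type, mul_sum]
    exact single_le_sum (f := fun σ => ∑ y, wt μ n (σ, y) * Dw w (mv (σ, y)))
      (fun σ _ => sum_nonneg fun y _ => mul_nonneg (wt_nonneg h _) (Dw_nonneg _ _)) (mem_univ σ)
  have h3 := mul_le_mul_of_nonneg_left h2
    (Nat.cast_nonneg (α := ℝ) (Fintype.card (Fin d → Perm (Fin n))))
  rw [one_div, ← div_eq_inv_mul, le_div_iff₀ hp]
  refine le_trans (le_of_eq ?_) h3
  rw [mul_left_comm, ← h1]
  field_simp

lemma sum_le_of_Gd {ι : Type} (s : Finset ι) (g : ι → Perm (Slot d n))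
    (e : (Fin d → Perm (Fin n)) → ι ≃ ι) (he : ∀ u x, x ∈ s ↔ e u x ∈ s)
    (hg : ∀ u x, cj u * g x * (cj u)⁻¹ = g (e u x)) {C : ℝ} (hG : ∀ x ∈ s, Gd μ n C (g x))
    (w : Perm (Slot d n) → ℝ) : ∑ x ∈ s, Dw w (g x) ≤ s.card * (C * En μ n w) := by
  have hc : (0 : ℝ) < Fintype.card (Fin d → Perm (Fin n)) := by exact_mod_cast Fintype.card_pos
  refine le_of_mul_le_mul_left ?_ hc
  calc (Fintype.card (Fin d → Perm (Fin n)) : ℝ) * ∑ x ∈ s, Dw w (g x)
      = ∑ u : Fin d → Perm (Fin n), ∑ x ∈ s, Dw w (cj u * g x * (cj u)⁻¹) := by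
        rw [sum_congr rfl fun u _ => sum_equiv (e u) (he u) (g := fun x => Dw w (g x))
          fun x _ => by rw [hg]]
        simp
    _ ≤ ∑ _x ∈ s, C * (Fintype.card (Fin d → Perm (Fin n)) * En μ n w) := by
        rw [sum_comm]; exact sum_le_sum fun x hx => hG x hx w
    _ = _ := by rw [sum_const, nsmul_eq_mul]; ring

/-- three-cycles of the given type are comparable with the chain -/
def Typ (μ : Perm (Fin d) → ℝ) (i j k : Fin d) : Prop :=
  ∃ C : ℝ, ∀ n, 3 ≤ n → ∀ a b c : Slot d n, a ≠ b → b ≠ c → a ≠ c → a.1 = i → b.1 = j → c.1 = k →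
    Gd μ n C (swap a b * swap b c)

lemma Typ.cyc {i j k : Fin d} (hP : Typ μ i j k) : Typ μ j k i := by
  obtain ⟨C, hC⟩ := hP
  refine ⟨C, fun n hn a b c hab hbc hac ha hb hc => ?_⟩
  rw [← cyc3 hac.symm hab hbc.symm]
  exact hC n hn c a b hac.symm hab hbc.symm hc ha hb

lemma Typ.base (h : Hyp μ) {σ : Perm (Fin d)} (hσ : μ σ ≠ 0) {i : Fin d} (hi : σ i ≠ i) :
    Typ μ i i (σ⁻¹ i) := by
  refine ⟨2 * (1 / μ σ) + 2 * (1 / μ σ), fun n hn a b c hab _ _ ha hb hc => ?_⟩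
  obtain ⟨a1, a2⟩ := a
  obtain ⟨b1, b2⟩ := b
  obtain ⟨c1, c2⟩ := c
  simp only at ha hb hc
  subst ha hb
  have hc' : σ c1 = b1 := by simp [hc]
  have hne : c1 ≠ b1 := fun e => hi (by rw [← e, hc', e])
  set x : Fin d → Fin n := Function.update (fun _ => a2) c1 c2 with hx
  have x1 : x b1 = a2 := by simp [hx, hne.symm]
  have x2 : x c1 = c2 := by simp [hx]
  have g1 : move σ x (c1, c2) = (b1, a2) := by rw [← x2, move_sel, hc', x1]
  have g2 : move σ x (b1, b2) = (b1, b2) :=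
    move_of_ne _ (by simp only [x1]; rintro rfl; exact hab rfl)
  have e1 : swap ((b1, a2) : Slot d n) (b1, b2) =
      move σ x * swap (c1, c2) (b1, b2) * (move σ x)⁻¹ := by
    rw [← swap_apply_apply, g1, g2]
  have hG := (Gd.move h (by omega : 0 < n) hσ
    fun i => Function.update (1 : Fin d → Perm (Fin n)) b1 (swap a2 b2) i (x i)).inv.mul
      (Gd.move h (by omega : 0 < n) hσ x)
  rw [← conj_move, ← swap_eq_cj] at hG
  convert hG using 1
  rw [swap_comm (b1, b2) (c1, c2)]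
  have e2 : swap ((c1, c2) : Slot d n) (b1, b2) =
      (move σ x)⁻¹ * swap (b1, a2) (b1, b2) * move σ x := by rw [e1]; group
  rw [e2]
  simp [mul_assoc]

lemma Typ.arc (h : Hyp μ) {σ : Perm (Fin d)} (hσ : μ σ ≠ 0) {i j k : Fin d} (hP : Typ μ i j k) :
    Typ μ (σ i) j k := by
  obtain ⟨C, hC⟩ := hP
  refine ⟨2 * (2 * (1 / μ σ) + 2 * C) + 2 * (1 / μ σ), fun n hn a b c hab hbc hac ha hb hc => ?_⟩
  obtain ⟨z, hz⟩ : ∃ z : Fin n, z ∉ ({b.2, c.2} : Finset (Fin n)) := by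
    by_contra hcon
    push Not at hcon
    have h1 := card_le_card (fun z _ => hcon z : (univ : Finset (Fin n)) ⊆ {b.2, c.2})
    have h2 : ({b.2, c.2} : Finset (Fin n)).card ≤ 2 := card_le_two
    rw [card_univ, Fintype.card_fin] at h1
    omega
  simp only [mem_insert, mem_singleton, not_or] at hz
  set x : Fin d → Fin n := Function.update (fun _ => z) a.1 a.2 with hx
  have hav : ∀ v : Slot d n, a ≠ v → z ≠ v.2 → v.2 ≠ x v.1 := fun v h1 h2 => by
    by_cases hv : v.1 = a.1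
    · rw [hv, hx, Function.update_self]
      exact fun e => h1 (Prod.ext hv.symm e.symm)
    · rw [hx, Function.update_of_ne hv]; exact h2.symm
  have hb' := hav b hab hz.1
  have hc' := hav c hac hz.2
  have g1 : move σ x (i, x i) = a := by rw [move_sel, ← ha, hx, Function.update_self]
  have hG := ((Gd.move h (by omega : 0 < n) hσ x).mul (hC n hn (i, x i) b c
    (by rintro rfl; exact hb' rfl) hbc (by rintro rfl; exact hc' rfl) rfl hb hc)).mul
      (Gd.move h (by omega : 0 < n) hσ x).inv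
  convert hG using 1
  have e1 := swap_apply_apply (move σ x) (i, x i) b
  have e2 := swap_apply_apply (move σ x) b c
  rw [move_of_ne _ hb'] at e1 e2
  rw [g1] at e1
  rw [move_of_ne _ hc'] at e2
  nth_rewrite 1 [e1, e2]
  group

lemma Typ.reach (h : Hyp μ) {i j k : Fin d} (hP : Typ μ i j k) (i' : Fin d) : Typ μ i' j k := by
  have key : ∀ m : ℕ, ∀ l, (urnMat μ ^ m) i l ≠ 0 → Typ μ l j k := by
    intro m
    induction m with
    | zero =>
      intro l hl
      by_cases e : i = l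
      · exact e ▸ hP
      · simp [Matrix.one_apply, e] at hl
    | succ m ih =>
      intro l hl
      rw [pow_succ, Matrix.mul_apply] at hl
      obtain ⟨l', -, hl'⟩ := exists_ne_zero_of_sum_ne_zero hl
      obtain ⟨σ, -, hσ⟩ := exists_ne_zero_of_sum_ne_zero (right_ne_zero_of_mul hl')
      by_cases e : σ l' = l
      · rw [if_pos e] at hσ
        exact e ▸ (ih l' (left_ne_zero_of_mul hl')).arc h hσ
      · exact absurd (if_neg e) hσ
  obtain ⟨m, hm⟩ := h.irr i i'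
  exact key m i' hm.ne'

lemma exists_mover (h : Hyp μ) : ∃ σ i, μ σ ≠ 0 ∧ σ i ≠ i := by
  by_contra hcon
  push Not at hcon
  have h2 := h.two
  have key : ∀ m : ℕ, ∀ i l, (urnMat μ ^ m) i l ≠ 0 → i = l := by
    intro m
    induction m with
    | zero =>
      intro i l hl
      by_contra e
      simp [Matrix.one_apply, e] at hl
    | succ m ih =>
      intro i l hl
      rw [pow_succ, Matrix.mul_apply] at hl
      obtain ⟨l', -, hl'⟩ := exists_ne_zero_of_sum_ne_zero hl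
      obtain ⟨σ, -, hσ⟩ := exists_ne_zero_of_sum_ne_zero (right_ne_zero_of_mul hl')
      by_cases e : σ l' = l
      · rw [if_pos e] at hσ
        rw [ih i l' (left_ne_zero_of_mul hl'), ← e, hcon σ l' hσ]
      · exact absurd (if_neg e) hσ
  obtain ⟨m, hm⟩ := h.irr ⟨0, by omega⟩ ⟨1, by omega⟩
  simpa using key m _ _ hm.ne'

lemma Typ.all (h : Hyp μ) (i j k : Fin d) : Typ μ i j k := by
  obtain ⟨σ, l, hσ, hl⟩ := exists_mover h
  exact (((((Typ.base h hσ hl).reach h i).cyc.reach h j).cyc.reach h k).cyc)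

lemma Gd_two (h : Hyp μ) : ∃ C : ℝ, 0 < C ∧ ∀ n, 3 ≤ n → ∀ a b c e : Slot d n, a ≠ b → c ≠ e →
    Gd μ n C (swap a b * swap c e) := by
  choose f hf using fun t : Fin d × Fin d × Fin d => Typ.all h t.1 t.2.1 t.2.2
  have h0 : 0 ≤ ∑ t, |f t| := sum_nonneg fun _ _ => abs_nonneg _
  have h1 : ∀ n, 3 ≤ n → ∀ a b c : Slot d n, a ≠ b → b ≠ c →
      Gd μ n (∑ t, |f t|) (swap a b * swap b c) := by
    intro n hn a b c hab hbc
    by_cases hac : a = c
    · subst hac
      rw [swap_comm b a, swap_mul_self]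
      exact Gd.one.mono h h0
    · exact (hf (a.1, b.1, c.1) n hn a b c hab hbc hac rfl rfl rfl).mono h
        ((le_abs_self _).trans (single_le_sum (f := fun t => |f t|) (fun _ _ => abs_nonneg _)
          (mem_univ _)))
  refine ⟨4 * ∑ t, |f t| + 1, by linarith, fun n hn a b c e hab hce => ?_⟩
  by_cases hbc : b = c
  · subst hbc; exact (h1 n hn a b e hab hce).mono h (by linarith)
  · have := ((h1 n hn a b c hab hbc).mul (h1 n hn b c e hbc hce)).mono h
      (by linarith : _ ≤ 4 * ∑ t, |f t| + 1)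
    rwa [mul_assoc, swap_mul_self_mul] at this

lemma Gd_sign (h : Hyp μ) (σ : Perm (Fin d)) : ∃ C : ℝ, ∀ n, 3 ≤ n → ∀ x : Fin d → Fin n,
    (Perm.sign σ = 1 → Gd μ n C (move σ x)) ∧
      (Perm.sign σ = -1 → ∀ a b : Slot d n, a ≠ b → Gd μ n C (swap a b * move σ x)) := by
  obtain ⟨C2, -, h2⟩ := Gd_two h
  induction σ using Perm.swap_induction_on with
  | one => exact ⟨0, fun n _ x => ⟨fun _ => by rw [move_one]; exact Gd.one, fun e => by simp at e⟩⟩
  | swap_mul f i j hij ih =>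
    obtain ⟨C, hC⟩ := ih
    refine ⟨max C (2 * C2 + 2 * C), fun n hn x => ?_⟩
    have hne : ((i, x i) : Slot d n) ≠ (j, x j) := by simp [hij]
    rw [move_mul, move_swap, map_mul, Perm.sign_swap hij]
    refine ⟨fun e => ((hC n hn x).2 ?_ _ _ hne).mono h (le_max_left _ _), fun e a b hab => ?_⟩
    · rw [← neg_neg (Perm.sign f), ← e]; simp
    · rw [← mul_assoc]
      exact ((h2 n hn a b _ _ hab hne).mul ((hC n hn x).1 (by simpa using e))).mono h
        (le_max_right _ _)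

lemma comparison (h : Hyp μ) : ∃ C : ℝ, 0 < C ∧ ∀ n k : ℕ, 3 ≤ n → k + 3 ≤ d * n →
    ∀ w ∈ Hi (Slot d n) k, (∀ y, y ∉ spaceX μ n → w y = 0) →
      2 * (k + 1) * (w ⬝ᵥ w) ≤ (d * n) * (C * En μ n w) := by
  have hcard : ∀ n, Fintype.card (Slot d n) = d * n := fun n => by simp
  by_cases hev : ∀ σ, μ σ ≠ 0 → Perm.sign σ = 1
  · obtain ⟨C, hC, h2⟩ := Gd_two h
    refine ⟨C, hC, fun n k hn hk w hw hs => ?_⟩
    have l1 := sum_Dw_swap_swap (by rwa [hcard]) hw fun y hy => hs y (by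
      simp only [spaceX, mem_filter, mem_univ, true_and]
      intro e
      rw [e hev] at hy
      simp at hy)
    have l2 := sum_le_of_Gd ((univ : Finset (Slot d n)).offDiag ×ˢ univ.offDiag)
      (fun x => swap x.1.1 x.1.2 * swap x.2.1 x.2.2)
      (fun u => ((cj u).prodCongr (cj u)).prodCongr ((cj u).prodCongr (cj u)))
      (fun u x => by simp) (fun u x => by simp [swap_apply_apply, mul_assoc])
      (fun x hx => h2 n hn _ _ _ _ (mem_offDiag.1 (mem_product.1 hx).1).2.2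
        (mem_offDiag.1 (mem_product.1 hx).2).2.2) w
    rw [card_product, Nat.cast_mul, card_offDiag_real] at l2
    rw [hcard] at l1 l2
    have l3 := l1.trans l2
    have hN : (k : ℝ) + 3 ≤ (d * n : ℕ) := by exact_mod_cast hk
    have hk0 : (0 : ℝ) ≤ k := Nat.cast_nonneg _
    have hE := mul_nonneg hC.le (En_nonneg h w)
    rw [← Nat.cast_mul]
    generalize ((d * n : ℕ) : ℝ) = N at *
    have hM : 0 < N * (N * (N - 1)) := mul_pos (by linarith) (mul_pos (by linarith) (by linarith))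
    refine le_of_mul_le_mul_left ?_ hM
    nlinarith [mul_nonneg hM.le hE]
  · push Not at hev
    obtain ⟨σ, hσ, hs⟩ := hev
    obtain ⟨C, hC⟩ := Gd_sign h σ
    have hs' := (Int.units_eq_one_or _).resolve_left hs
    refine ⟨|2 * C + 2 * (1 / μ σ)| + 1, by positivity, fun n k hn hk w hw _ => ?_⟩
    have l1 := sum_Dw_swap (by rw [hcard]; omega) hw
    have l2 := sum_le_of_Gd (μ := μ) (C := |2 * C + 2 * (1 / μ σ)| + 1)
      (univ : Finset (Slot d n)).offDiag (fun x => swap x.1 x.2)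
      (fun u => (cj u).prodCongr (cj u)) (fun u x => by simp)
      (fun u x => by simp [swap_apply_apply])
      (fun x hx => by
        have := (((hC n hn fun _ => ⟨0, by omega⟩).2 hs' _ _ (mem_offDiag.1 hx).2.2).mul
          (Gd.move h (by omega : 0 < n) hσ fun _ => ⟨0, by omega⟩).inv).mono h
            ((le_abs_self _).trans (le_add_of_nonneg_right zero_le_one))
        rwa [mul_inv_cancel_right] at this) w
    rw [card_offDiag_real] at l2
    rw [hcard] at l1 l2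
    have l3 := l1.trans l2
    have hN : (k : ℝ) + 3 ≤ (d * n : ℕ) := by exact_mod_cast hk
    have hk0 : (0 : ℝ) ≤ k := Nat.cast_nonneg _
    have hE := mul_nonneg (by positivity : 0 ≤ |2 * C + 2 * (1 / μ σ)| + 1) (En_nonneg h w)
    rw [← Nat.cast_mul]
    generalize ((d * n : ℕ) : ℝ) = N at *
    have hM : 0 < N := by linarith
    refine le_of_mul_le_mul_left ?_ hM
    nlinarith [mul_nonneg hM.le hE]

theorem high (h : Hyp μ) : ∃ c : ℝ, 0 < c ∧ ∀ n k : ℕ, 3 ≤ n → k + 3 ≤ d * n →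
    ∀ w ∈ Hi (Slot d n) k, (∀ y, y ∉ spaceX μ n → w y = 0) →
      w ⬝ᵥ KX μ n w ≤ (1 - c * k / n) * (w ⬝ᵥ w) := by
  obtain ⟨C, hC, hc⟩ := comparison h
  have hd : (0 : ℝ) < d := by have := h.two; positivity
  refine ⟨1 / (d * C), by positivity, fun n k hn hk w hw hs => ?_⟩
  have hn0 : (0 : ℝ) < n := by positivity
  have l := hc n k hn hk w hw hs
  rw [En_eq h (by omega)] at l
  have h0 := dsn_high w
  have : 1 / (d * C) * k / n * (w ⬝ᵥ w) ≤ w ⬝ᵥ w - w ⬝ᵥ KX μ n w := by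
    rw [show 1 / (d * C) * k / n * (w ⬝ᵥ w) = k * (w ⬝ᵥ w) / (d * n * C) by field_simp,
      div_le_iff₀ (by positivity)]
    nlinarith
  linarith

end Pool.Agent.P.MP_c47a54_pr
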