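import Pool.Agent.P.MP_c47a54_pr.Tuple
import Pool.Agent.P.MP_c47a54_pr.Lev

namespace Pool.Agent.P.MP_c47a54_pr

open Equiv Finset Matrix Module WithLp
open Function hiding swap
open scoped RealInnerProductSpace

section
variable {V ι : Type} [Fintype V] [DecidableEq V] [Fintype ι] [DecidableEq ι]

lemma card_Gam (A : Finset V) : (Gam A).card = A.card.factorial := by
  have := Fintype.card_congr (Perm.subtypeEquivSubtypePerm fun v => v ∈ A)
  rw [Fintype.card_perm, Fintype.card_coe, Fintype.card_subtype] at this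
  rw [this]; rfl

lemma mem_Gam_compl {b : ι → V} {u : Perm V} : u ∈ Gam (univ.image b)ᶜ ↔ ∀ c, u (b c) = b c := by
  simp [mem_Gam]

lemma fibre {b : ι → V} (hb : Injective b) (Φ : (ι → V) → ℝ) (h : ∀ y, ¬Injective y → Φ y = 0) :
    ∑ η : Perm V, Φ (fun c => η (b c)) =
      (Fintype.card V - Fintype.card ι).factorial * ∑ y, Φ y := by
  rw [← sum_fiberwise (s := univ) (g := fun η : Perm V => fun c => η (b c)), mul_sum]
  refine sum_congr rfl fun y _ => ?_
  by_cases hy : Injective y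
  · obtain ⟨g, hg⟩ := Perm.exists_extending_pair b y hb hy
    rw [sum_congr rfl (g := fun _ => Φ y) fun η hη => by rw [(mem_filter.1 hη).2], sum_const,
      nsmul_eq_mul]
    congr 2
    rw [← card_univ (α := ι), ← card_image_of_injective univ hb, ← card_compl, ← card_Gam]
    refine (card_equiv (Equiv.mulLeft g) fun u => ?_).symm
    simp [mem_Gam_compl, funext_iff, ← hg]
  · rw [h y hy, mul_zero]
    exact sum_eq_zero fun η hη => by rw [(mem_filter.1 hη).2, h y hy]

lemma Q_mem {U : Submodule ℝ (EP V)} (hU : ∀ g, U ≤ U.comap (rho V g)) (A : Finset V) {w : EP V}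
    (hw : w ∈ U) : Q (rho V) A w ∈ U := by
  rw [← Q_sub hU A ⟨w, hw⟩]; exact Subtype.property _

lemma orth_inv {U : Submodule ℝ (EP V)} (hU : ∀ g, U ≤ U.comap (rho V g)) (g : Perm V) :
    Uᗮ ≤ Uᗮ.comap (rho V g) := fun w hw => by
  rw [Submodule.mem_comap, Submodule.mem_orthogonal']
  intro u hu
  rw [orth_rho]
  exact Submodule.inner_left_of_mem_orthogonal (K := U) (hU g⁻¹ hu) hw

lemma HiE_succ {m : ℕ} (hm : m + 1 ≤ Fintype.card V) : HiE V (m + 1) ≤ HiE V m := fun w hw => by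
  rw [mem_HiE'] at *
  intro A hA
  obtain ⟨B, hB, hc⟩ := exists_subset_card_eq (s := A) (n := A.card - 1) (by omega)
  rw [← Q_mul_Q' hB, End.mul_apply, hw B (by omega), map_zero]

lemma Q_univ_Hi {m : ℕ} (hm : m ≤ Fintype.card V) {w : EP V} (hw : w ∈ HiE V m) :
    Q (rho V) univ w = 0 := by
  obtain ⟨B, hB, hc⟩ := exists_subset_card_eq (s := (univ : Finset V)) (n := Fintype.card V - m)
    (by simp)
  rw [← Q_mul_Q' hB, End.mul_apply, mem_HiE'.1 hw B (by omega), map_zero]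

lemma eq_Q_univ {w : EP V} (hw : w ∈ (HiE V 0)ᗮ) : w - Q (rho V) univ w = 0 := by
  have h1 : Q (rho V) univ (w - Q (rho V) univ w) = 0 := by
    rw [map_sub, ← End.mul_apply, Q_mul_Q subset_rfl, sub_self]
  have h2 : w - Q (rho V) univ w ∈ HiE V 0 := mem_HiE'.2 fun A hA => by
    rwa [eq_univ_of_card A (by simpa using hA)]
  rw [← inner_self_eq_zero (𝕜 := ℝ)]
  conv_lhs => rw [inner_sub_left, Submodule.inner_left_of_mem_orthogonal h2 hw, orth_rho.Q_symm, h1]
  simp

/-- sign as a real number -/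
def sg (η : Perm V) : ℝ := ((Perm.sign η : ℤˣ) : ℤ)

lemma sg_mul (η u : Perm V) : sg (η * u) = sg η * sg u := by simp [sg]

lemma abs_sg (η : Perm V) : |sg η| = 1 := by
  rcases Int.units_eq_one_or (Perm.sign η) with h | h <;> simp [sg, h]

lemma sg_mul_mem {k : ℕ} (hk : 2 * k + 2 ≤ Fintype.card V) {w : EP V} (hw : w ∈ (HiE V k)ᗮ) :
    (fun η => sg η * w η) ∈ Hi V k := by
  have e : HiE V k = (⨆ A : {A : Finset V // A.card + k = Fintype.card V},
      LinearMap.range (Q (rho V) A.1))ᗮ := by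
    ext x
    rw [← Submodule.iInf_orthogonal, Submodule.mem_iInf, mem_HiE', Subtype.forall]
    refine forall₂_congr fun A _ => ⟨fun h => ?_, fun h => ?_⟩
    · rintro _ ⟨u, rfl⟩
      rw [orth_rho.Q_symm, h, inner_zero_right]
    · rw [← inner_self_eq_zero (𝕜 := ℝ), ← h _ ⟨Q (rho V) A x, rfl⟩, orth_rho.Q_symm A _ x]
  rw [e, Submodule.orthogonal_orthogonal] at hw
  induction hw using Submodule.iSup_induction' with
  | mem A x hx =>
    obtain ⟨x, rfl⟩ := hx
    intro B hB η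
    have : 1 < (A.1 ∩ B).card := by
      have h1 := card_union_add_card_inter A.1 B
      have h2 := card_le_univ (A.1 ∪ B)
      have := A.2
      omega
    obtain ⟨a, ha, b, hb, hab⟩ := one_lt_card.1 this
    rw [mem_inter] at ha hb
    have h1 := sum_Gam_right (swap_mem_Gam ha.2 hb.2)
      fun u => sg (η * u) * Q (rho V) A.1 x (η * u)
    have h2 : ∀ u, Q (rho V) A.1 x (u * swap a b) = Q (rho V) A.1 x u := fun u => by
      rw [← rho_apply, ← End.mul_apply, mul_Q (swap_mem_Gam ha.1 hb.1)]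
    have h3 : sg (swap a b) = -1 := by simp [sg, hab]
    simp only [← mul_assoc, h2, sg_mul _ (swap a b), h3, mul_neg, neg_mul, mul_one,
      sum_neg_distrib] at h1
    linarith
  | zero => intro B hB η; simp
  | add x y _ _ hx hy => simpa [mul_add, Pi.add_def] using (Hi V k).add_mem hx hy

end

variable {d n : ℕ} {μ : Perm (Fin d) → ℝ}

lemma card_slot : Fintype.card (Slot d n) = d * n := by simp

lemma exists_tuple {m : ℕ} {b : Fin (m + 1) → Slot d n} (hb : Injective b) {ψ : EP (Slot d n)}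
    (h1 : ∀ u ∈ Gam (univ.image b)ᶜ, ∀ η, ψ (η * u) = ψ η) (h2 : ψ ∈ HiE (Slot d n) m) :
    ∃ φ ∈ GG d n (Fin (m + 1)) 0, ∀ η, ψ η = φ fun c => η (b c) := by
  classical
  set φ : (Fin (m + 1) → Slot d n) → ℝ := fun y =>
    if h : ∃ η : Perm (Slot d n), (fun c => η (b c)) = y then ψ h.choose else 0 with hφ
  have e : ∀ η, ψ η = φ fun c => η (b c) := fun η => by
    have h : ∃ η' : Perm (Slot d n), (fun c => η' (b c)) = fun c => η (b c) := ⟨η, rfl⟩
    simp only [hφ, dif_pos h]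
    rw [← h1 (η⁻¹ * h.choose) (mem_Gam_compl.2 fun c => ?_), mul_inv_cancel_left]
    rw [Perm.mul_apply, congrFun h.choose_spec c]; simp
  have s : ∀ y, ¬Injective y → φ y = 0 := fun y hy => dif_neg fun ⟨η, h⟩ =>
    hy (h ▸ η.injective.comp hb)
  refine ⟨φ, ⟨s, fun a y => ?_, fun _ h => absurd h (by simp)⟩, e⟩
  have e1 := tn_single_mulVec a (of fun _ _ => 1) φ y
  simp only [of_apply, one_mul] at e1
  have e2 := fibre hb (fun z => tn {a} (of fun _ _ => 1) 1 y z * φ z) fun z hz => by simp [s z hz]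
  have hc : ((univ.erase a).image b)ᶜ.card + m = Fintype.card (Slot d n) := by
    have := card_le_univ ((univ.erase a).image b)
    rw [card_compl]
    rw [card_image_of_injective _ hb, card_erase_of_mem (mem_univ a)] at *
    simp only [card_univ, Fintype.card_fin] at *
    omega
  have e3 : ∑ u ∈ Gam ((univ.erase a).image b)ᶜ, ∑ η : Perm (Slot d n),
      tn {a} (of fun _ _ => 1) 1 y (fun c => η (b c)) * ψ η = 0 := by
    rw [← sum_congr rfl fun u _ => Equiv.sum_comp (Equiv.mulRight u) _, sum_comm]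
    refine sum_eq_zero fun η _ => ?_
    rw [← mul_zero (tn {a} (of fun _ _ => 1) 1 y fun c => η (b c)), ← h2 _ hc η, mul_sum]
    refine sum_congr rfl fun u hu => congrArg (· * _) ?_
    simp only [tn_apply, prod_singleton, of_apply]
    refine congrArg _ (prod_congr rfl fun c hc => ?_)
    rw [coe_mulRight, Perm.mul_apply, mem_Gam.1 hu]
    simpa using ⟨c, by simpa using hc, rfl⟩
  rw [sum_const, nsmul_eq_mul, mul_eq_zero, or_iff_right (card_Gam_pos _).ne'] at e3
  simp only [← e, e3] at e2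
  rw [← e1]
  exact (mul_eq_zero.1 e2.symm).resolve_left (by positivity)

lemma Pt_tuple {ι : Type} [Fintype ι] [DecidableEq ι] (b : ι → Slot d n) (t : ℝ)
    (φ : (ι → Slot d n) → ℝ) (x : Perm (Slot d n)) :
    Pt (KX μ n) t (fun η => φ fun c => η (b c)) x = Pt (KT μ n ι) t φ fun c => x (b c) :=
  Pt_comp (ρ := fun (η : Perm (Slot d n)) c => η (b c)) (Kup_comp _ fun _ _ => rfl) t φ x

/-- evaluation of the semigroup -/
noncomputable def ev (μ : Perm (Fin d) → ℝ) (t : ℝ) (x : Perm (Slot d n)) :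
    EP (Slot d n) →ₗ[ℝ] ℝ := LinearMap.proj x ∘ₗ (Pt (KX μ n) t).toLinearMap ∘ₗ
  (WithLp.linearEquiv 2 ℝ (Perm (Slot d n) → ℝ)).toLinearMap

lemma ev_apply (t : ℝ) (x : Perm (Slot d n)) (w : EP (Slot d n)) :
    ev μ t x w = Pt (KX μ n) t w.ofLp x := rfl

lemma level_bound {m : ℕ} (hm : m + 1 ≤ d * n) (t : ℝ) (x : Perm (Slot d n))
    {H : (Fin (m + 1) → Slot d n) → ℝ} (h0 : ∀ y, 0 ≤ H y)
    (h1 : ∀ y, ∀ φ ∈ GG d n (Fin (m + 1)) 0, Pt (KT μ n _) t φ y ^ 2 ≤ H y * (φ ⬝ᵥ φ)) :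
    ∀ w ∈ HiE (Slot d n) m ⊓ (HiE (Slot d n) (m + 1))ᗮ, ev μ t x w ^ 2 ≤
      (∑ y, H y) / ((m + 1).factorial * (d * n - (m + 1)).factorial) * ‖w‖ ^ 2 := by
  set L := HiE (Slot d n) m ⊓ (HiE (Slot d n) (m + 1))ᗮ with hL
  have hU : ∀ g, L ≤ L.comap (rho _ g) := fun g w hw =>
    ⟨HiE_inv m g hw.1, orth_inv (HiE_inv _) g hw.2⟩
  obtain ⟨p, hp⟩ : ∃ p : L, ∀ w : L, ⟪p, w⟫ = ev μ t x w :=
    ⟨(InnerProductSpace.toDual ℝ L).symm (LinearMap.toContinuousLinearMap (ev μ t x ∘ₗ L.subtype)),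
      fun w => InnerProductSpace.toDual_symm_apply⟩
  set c : ℝ := ((d * n - (m + 1)).factorial : ℝ) with hc
  have hc0 : 0 < c := by positivity
  have a1 : ∀ b : Fin (m + 1) → Slot d n, Injective b →
      ‖Q (rho _) (univ.image b)ᶜ p.1‖ ^ 2 ≤ H (fun c => x (b c)) / c := by
    intro b hb
    set ψ := Q (rho _) (univ.image b)ᶜ p.1 with hψ
    have hψL : ψ ∈ L := Q_mem hU _ p.2
    obtain ⟨φ, hφ, e⟩ := exists_tuple hb (ψ := ψ)
      (fun u hu η => by rw [← rho_apply, hψ, ← End.mul_apply, mul_Q hu]) hψL.1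
    have e1 : ‖ψ‖ ^ 2 = c * (φ ⬝ᵥ φ) := by
      have := fibre hb (fun y => φ y * φ y) fun y hy => by simp [hφ.1 y hy]
      rw [norm_sq_EP, dotProduct, dotProduct]
      simpa [← e, hc] using this
    have e2 : ‖ψ‖ ^ 2 = Pt (KT μ n _) t φ fun c => x (b c) := by
      rw [← Pt_tuple, ← funext e, ← ev_apply, ← hp ⟨ψ, hψL⟩, ← real_inner_self_eq_norm_sq,
        Submodule.coe_inner]
      conv_lhs => rw [hψ, orth_rho.Q_symm, ← End.mul_apply, Q_mul_Q subset_rfl]
    have h2 := h1 (fun c => x (b c)) φ hφ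
    rw [← e2] at h2
    rw [le_div_iff₀ hc0]
    by_cases h3 : ‖ψ‖ ^ 2 = 0
    · rw [h3, zero_mul]; exact h0 _
    · refine le_of_mul_le_mul_right ?_ (lt_of_le_of_ne (sq_nonneg ‖ψ‖) (Ne.symm h3))
      have := mul_le_mul_of_nonneg_left h2 hc0.le
      rw [mul_left_comm, ← e1] at this
      linarith
  have a2 := (orth_rho.sub hU).norm_le (m := d * n - (m + 1)) (fun w hw => Subtype.ext
    (inner_self_eq_zero.1 (Submodule.inner_right_of_mem_orthogonal (mem_HiE'.2 fun A hA => by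
      rw [← Q_sub hU, hw A (by rw [card_slot] at hA; omega)]; rfl) w.2.2))) p
  have hex : ∀ A : Finset (Slot d n), ∃ b : Fin (m + 1) → Slot d n,
      A.card = d * n - (m + 1) → Injective b ∧ univ.image b = Aᶜ := by
    intro A
    by_cases hA : A.card = d * n - (m + 1)
    · have : Aᶜ.card = m + 1 := by rw [card_compl, card_slot]; omega
      refine ⟨fun i => (equivFinOfCardEq this).symm i, fun _ =>
        ⟨Subtype.val_injective.comp (Equiv.injective _), ?_⟩⟩
      ext v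
      simp only [mem_image, mem_univ, true_and]
      exact ⟨fun ⟨i, hi⟩ => hi ▸ Subtype.property _, fun hv =>
        ⟨equivFinOfCardEq this ⟨v, hv⟩, by simp⟩⟩
    · have : Nonempty (Slot d n) := Fintype.card_pos_iff.1 (by rw [card_slot]; omega)
      exact ⟨fun _ => Classical.arbitrary _, fun h => absurd h hA⟩
  choose b hb using hex
  have him : ∀ A : Finset (Slot d n), A.card = d * n - (m + 1) → ∀ π : Perm (Fin (m + 1)),
      (univ.image fun c => b A (π c))ᶜ = A := fun A hA π => by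
    rw [show (fun c => b A (π c)) = b A ∘ π from rfl, ← image_image, image_univ_equiv, (hb A hA).2,
      compl_compl]
  have a3 : ((m + 1).factorial : ℝ) * ‖p‖ ^ 2 ≤ (∑ y, H y) / c := by
    refine (mul_le_mul_of_nonneg_left a2 (by positivity)).trans ?_
    have e : ∑ z ∈ powersetCard (d * n - (m + 1)) univ ×ˢ (univ : Finset (Perm (Fin (m + 1)))),
        H (fun c => x (b z.1 (z.2 c))) ≤ ∑ y, H y := by
      rw [← sum_image (g := fun (z : Finset (Slot d n) × Perm (Fin (m + 1))) c => x (b z.1 (z.2 c)))]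
      · exact sum_le_univ_sum_of_nonneg h0
      · rintro ⟨A, π⟩ h1 ⟨A', π'⟩ h2 h3
        simp only [coe_product, Set.mem_prod, mem_coe, mem_powersetCard] at h1 h2
        have h4 : (fun c => b A (π c)) = fun c => b A' (π' c) :=
          funext fun c => x.injective (congrFun h3 c)
        obtain rfl : A = A' := by rw [← him A h1.1.2 π, h4, him A' h2.1.2]
        exact Prod.ext rfl (Equiv.ext fun c => (hb A h1.1.2).1 (congrFun h4 c))
    refine le_trans ?_ (div_le_div_of_nonneg_right e hc0.le)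
    rw [sum_product, mul_sum, sum_div]
    refine sum_le_sum fun A hA => ?_
    have hA := (mem_powersetCard.1 hA).2
    rw [sum_div]
    refine le_trans (le_of_eq ?_) (sum_le_sum fun π _ => a1 _ ((hb A hA).1.comp π.injective))
    simp only [him A hA, sum_const,
      card_univ, Fintype.card_perm, Fintype.card_fin, nsmul_eq_mul, Submodule.coe_norm, Q_sub]
  intro w hw
  rw [← hp ⟨w, hw⟩]
  refine (sq_le_sq' (neg_le_of_abs_le (abs_real_inner_le_norm _ _))
    (real_inner_le_norm _ _)).trans ?_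
  rw [mul_pow]
  refine mul_le_mul_of_nonneg_right ?_ (sq_nonneg _)
  rw [mul_comm, ← div_div, le_div_iff₀' (by positivity)]
  exact a3

/-- pointwise bound on the low levels -/
theorem low_bound (t : ℝ) (x : Perm (Slot d n)) {ε : ℕ → ℝ} (k : ℕ) (hk : k ≤ d * n)
    (hε : ∀ m < k, ∃ H : (Fin (m + 1) → Slot d n) → ℝ, (∀ y, 0 ≤ H y) ∧
      (∀ y, ∀ φ ∈ GG d n (Fin (m + 1)) 0, Pt (KT μ n _) t φ y ^ 2 ≤ H y * (φ ⬝ᵥ φ)) ∧
      (∑ y, H y) / ((m + 1).factorial * (d * n - (m + 1)).factorial) ≤ ε m) :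
    (0 ≤ ∑ m ∈ range k, ε m) ∧ ∀ w ∈ (HiE (Slot d n) k)ᗮ,
      ev μ t x (w - Q (rho _) univ w) ^ 2 ≤ (∑ m ∈ range k, ε m) * ‖w‖ ^ 2 := by
  induction k with
  | zero => exact ⟨by simp, fun w hw => by simp [eq_Q_univ hw]⟩
  | succ k ih =>
    obtain ⟨i0, ih⟩ := ih (by omega) fun m hm => hε m (by omega)
    obtain ⟨H, h0, h1, h2⟩ := hε k (by omega)
    have e0 : 0 ≤ ε k := le_trans (div_nonneg (sum_nonneg fun y _ => h0 y) (by positivity)) h2
    rw [sum_range_succ]
    refine ⟨by positivity, split_bound (Submodule.orthogonal_le (HiE_succ (card_slot ▸ hk)))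
      (ev μ t x ∘ₗ (1 - Q (rho _) univ)) i0 e0 ih fun w hw => ?_⟩
    rw [Submodule.orthogonal_orthogonal] at hw
    rw [LinearMap.comp_apply, LinearMap.sub_apply, Q_univ_Hi (by rw [card_slot]; omega) hw.1,
      sub_zero]
    exact (level_bound hk t x h0 h1 w hw).trans (by gcongr)

end Pool.Agent.P.MP_c47a54_pr
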