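import Pool.Agent.P.MP_c47a54_pr.Rate

namespace Pool.Agent.P.MP_c47a54_pr

open Filter Equiv Finset

namespace LowX

section general

variable {S : Type} [Fintype S]

/-- a test function bounds total variation from below -/
lemma tv_ge [DecidableEq S] (p : S → ℝ) (hp : ∑ y, p y = 1) (A : Finset S) (hA : A.Nonempty)
    (φ : S → ℝ) (h0 : ∀ y, 0 ≤ φ y) (h1 : ∀ y, φ y ≤ 1) :
    ∑ y, φ y * p y - (∑ y ∈ A, φ y) / A.card ≤ tv p A := by
  have hc : (0 : ℝ) < A.card := by exact_mod_cast hA.card_pos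
  set π : S → ℝ := fun y => if y ∈ A then 1 / (A.card : ℝ) else 0 with hπ
  have hs : ∑ y, π y = 1 := by
    simp only [hπ]
    rw [sum_ite_mem, univ_inter, sum_const, nsmul_eq_mul]
    field_simp
  have e1 : (∑ y ∈ A, φ y) / A.card = ∑ y, φ y * π y := by
    simp only [hπ, mul_ite, mul_zero]
    rw [sum_ite_mem, univ_inter, sum_div]
    exact sum_congr rfl fun y _ => by ring
  have e2 : ∑ y, φ y * p y - ∑ y, φ y * π y = ∑ y, (φ y - 1 / 2) * (p y - π y) := by
    simp only [sub_mul, mul_sub, sum_sub_distrib, ← mul_sum, hp, hs]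
    ring
  rw [e1, e2, tv, mul_sum]
  refine sum_le_sum fun y _ => ?_
  refine (le_abs_self _).trans ?_
  rw [abs_mul]
  refine mul_le_mul_of_nonneg_right ?_ (abs_nonneg _)
  rw [abs_le]; constructor <;> linarith [h0 y, h1 y]

/-- Chebyshev's inequality for a Markov operator -/
lemma cheb {P : Op S} (hP : Markov P) (x : S) (F G φ : S → ℝ) {m B : ℝ} (hm : 0 < m)
    (h1 : P F x = m) (h2 : P (fun y => F y ^ 2) x ≤ m ^ 2 + B) (hG : P G x ≤ 0)
    (hφ : ∀ y, 1 - 4 / m ^ 2 * (F y - m) ^ 2 - G y ≤ φ y) : 1 - 4 / m ^ 2 * B ≤ P φ x := by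
  refine le_trans ?_ (hP.mono _ _ hφ x)
  have e : (fun y => 1 - 4 / m ^ 2 * (F y - m) ^ 2 - G y) =
      fun y => ((1 - 4 / m ^ 2 * m ^ 2) + (-(4 / m ^ 2)) * F y ^ 2 + (8 / m ^ 2 * m) * F y) - G y := by
    funext y; ring
  rw [e, op_sub, op_add, op_add, op_cmul, op_cmul, hP.const, h1]
  have : 0 ≤ 4 / m ^ 2 := by positivity
  have h3 := mul_le_mul_of_nonneg_left h2 this
  have e2 : 8 / m ^ 2 * m * m = 2 * (4 / m ^ 2 * m ^ 2) := by ring
  rw [e2]
  rw [mul_add] at h3
  linarith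

lemma cheb_pt {F m : ℝ} (hm : 0 < m) :
    1 - 4 / m ^ 2 * (F - m) ^ 2 ≤ if m / 2 ≤ F then 1 else 0 := by
  have h0 : 0 ≤ 4 / m ^ 2 * (F - m) ^ 2 := by positivity
  split_ifs with h
  · linarith
  · have h1 : m ^ 2 ≤ 4 * (F - m) ^ 2 := by nlinarith
    have h2 : 1 ≤ 4 / m ^ 2 * (F - m) ^ 2 := by
      rw [div_mul_eq_mul_div, le_div_iff₀ (by positivity)]; linarith
    linarith

end general

section perms

variable {α : Type} [Fintype α] [DecidableEq α]

lemma sum_perm_one (g : α → ℝ) (b : α) :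
    (Fintype.card α : ℝ) * ∑ η : Perm α, g (η b) = Fintype.card (Perm α) * ∑ c, g c := by
  have h : ∀ b' : α, ∑ η : Perm α, g (η b') = ∑ η : Perm α, g (η b) := fun b' =>
    Fintype.sum_equiv (Equiv.mulRight (swap b b')) _ _ fun η => by simp
  calc (Fintype.card α : ℝ) * ∑ η : Perm α, g (η b) = ∑ b' : α, ∑ η : Perm α, g (η b') := by
        simp [h]
    _ = ∑ η : Perm α, ∑ c, g c := by
        rw [sum_comm]
        exact sum_congr rfl fun η _ => Equiv.sum_comp η g
    _ = _ := by simp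

lemma sum_perm_sq (hN : 2 ≤ Fintype.card α) (a β : α → ℝ) (hβ : ∑ c, β c = 0) :
    (Fintype.card α : ℝ) * ∑ η : Perm α, (∑ b, a b * β (η b)) ^ 2 ≤
      2 * Fintype.card (Perm α) * (∑ b, a b ^ 2) * ∑ c, β c ^ 2 := by
  set N : ℝ := (Fintype.card α : ℝ) with hNdef
  have hN2 : (2 : ℝ) ≤ N := by rw [hNdef]; exact_mod_cast hN
  set T0 : ℝ := Fintype.card (Perm α) * (∑ c, β c ^ 2) / N with hT0
  have hT00 : 0 ≤ T0 := by positivity
  set T : α → α → ℝ := fun b b' => ∑ η : Perm α, β (η b) * β (η b') with hT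
  have hd : ∀ b, T b b = T0 := by
    intro b
    have := sum_perm_one (fun c => β c ^ 2) b
    rw [hT0, eq_div_iff (by positivity), ← this, mul_comm]
    simp only [hT, sq]; rfl
  have ho : ∀ b b', b' ≠ b → T b b' = -(T0 / (N - 1)) := by
    intro b b' hb
    have h1 : ∀ c, c ≠ b → T b c = T b b' := fun c hc =>
      Fintype.sum_equiv (Equiv.mulRight (swap c b')) _ _ fun η => by
        simp [swap_apply_of_ne_of_ne hc.symm hb.symm]
    have h2 : ∑ c, T b c = 0 := by
      simp only [hT]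
      rw [sum_comm]
      refine sum_eq_zero fun η _ => ?_
      rw [← mul_sum, Equiv.sum_comp η β, hβ, mul_zero]
    rw [← add_sum_erase _ _ (mem_univ b), hd,
      sum_congr rfl fun c hc => h1 c (ne_of_mem_erase hc), sum_const, card_erase_of_mem (mem_univ b),
      card_univ, nsmul_eq_mul, Nat.cast_sub (by omega), ← hNdef] at h2
    have : N - 1 ≠ 0 := by linarith
    field_simp
    push_cast at h2
    linarith
  set T1 : ℝ := T0 / (N - 1) with hT1
  have hT10 : 0 ≤ T1 := div_nonneg hT00 (by linarith)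
  have hT1le : T1 ≤ T0 := div_le_self hT00 (by linarith)
  have e : ∑ η : Perm α, (∑ b, a b * β (η b)) ^ 2 = ∑ b, ∑ b', a b * a b' * T b b' := by
    simp only [sq, sum_mul_sum]
    simp only [hT, mul_sum]
    rw [sum_comm]
    refine sum_congr rfl fun b _ => ?_
    rw [sum_comm]
    exact sum_congr rfl fun b' _ => sum_congr rfl fun η _ => by ring
  have e2 : ∀ b b', a b * a b' * T b b' =
      (if b' = b then (T0 + T1) * a b ^ 2 else 0) - T1 * (a b * a b') := by
    intro b b'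
    split_ifs with hb
    · subst hb; rw [hd]; ring
    · rw [ho b b' hb]; ring
  have e3 : ∑ b, ∑ b', a b * a b' * T b b' = (T0 + T1) * ∑ b, a b ^ 2 - T1 * (∑ b, a b) ^ 2 := by
    simp only [e2, sum_sub_distrib, sum_ite_eq', mem_univ, if_true, ← mul_sum]
    rw [sq (∑ b, a b), sum_mul]
  have hs : 0 ≤ ∑ b, a b ^ 2 := by positivity
  have e4 : 2 * Fintype.card (Perm α) * (∑ b, a b ^ 2) * ∑ c, β c ^ 2 =
      N * (2 * T0 * ∑ b, a b ^ 2) := by
    rw [hT0]; field_simp
  rw [e, e3, e4]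
  refine mul_le_mul_of_nonneg_left ?_ (by linarith)
  nlinarith [mul_nonneg hT10 (sq_nonneg (∑ b, a b)), mul_le_mul_of_nonneg_right hT1le hs]

end perms

variable {d n : ℕ} {μ : Perm (Fin d) → ℝ}

lemma one_mem_spaceX : (1 : Perm (Slot d n)) ∈ spaceX μ n := by
  simp [spaceX]

lemma card_slot : Fintype.card (Slot d n) = d * n := by simp

lemma unif_le (h : Hyp μ) (hn : 0 < n) (φ : Perm (Slot d n) → ℝ) (h0 : ∀ y, 0 ≤ φ y) :
    (∑ y ∈ spaceX μ n, φ y) / (spaceX μ n).card ≤
      2 * (∑ y, φ y) / Fintype.card (Perm (Slot d n)) := by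
  have : Nontrivial (Slot d n) := by
    rw [← Fintype.one_lt_card_iff_nontrivial, card_slot]
    nlinarith [h.two]
  have h1 : Fintype.card (Perm (Slot d n)) ≤ 2 * (spaceX μ n).card := by
    rw [← two_mul_card_alternatingGroup]
    refine Nat.mul_le_mul_left 2 ?_
    rw [← Fintype.card_coe]
    refine Fintype.card_le_of_injective (fun η => ⟨η.1, ?_⟩) fun a b hab =>
      Subtype.ext (congrArg (fun z : spaceX μ n => z.1) hab)
    simp only [spaceX, mem_filter, mem_univ, true_and]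
    exact fun _ => η.2
  have h2 : (0 : ℝ) < (spaceX μ n).card := by
    exact_mod_cast Finset.card_pos.2 ⟨1, one_mem_spaceX⟩
  have h3 : (0 : ℝ) < Fintype.card (Perm (Slot d n)) := by exact_mod_cast Fintype.card_pos
  have h4 : ∑ y ∈ spaceX μ n, φ y ≤ ∑ y, φ y :=
    sum_le_sum_of_subset_of_nonneg (subset_univ _) fun y _ _ => h0 y
  have h5 : 0 ≤ ∑ y ∈ spaceX μ n, φ y := sum_nonneg fun y _ => h0 y
  have h6 : (Fintype.card (Perm (Slot d n)) : ℝ) ≤ 2 * (spaceX μ n).card := by exact_mod_cast h1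
  rw [div_le_div_iff₀ h2 h3]
  nlinarith

lemma tvX_ge (h : Hyp μ) (hn : 0 < n) {t : ℝ} (ht : 0 ≤ t) (φ : Perm (Slot d n) → ℝ)
    (h0 : ∀ y, 0 ≤ φ y) (h1 : ∀ y, φ y ≤ 1) :
    Pt (KX μ n) t φ 1 - 2 * (∑ y, φ y) / Fintype.card (Perm (Slot d n)) ≤
      tv (heat (jumpX μ n) t 1) (spaceX μ n) := by
  have hs : ∀ ψ : Perm (Slot d n) → ℝ,
      ∑ y, ψ y * heat (jumpX μ n) t 1 y = Pt (KX μ n) t ψ 1 := fun ψ => by
    rw [op_eq_sum (Pt (KX μ n) t) ψ 1]; simp only [heatX_eq]
  have hp : ∑ y, heat (jumpX μ n) t 1 y = 1 := by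
    have := hs fun _ => 1
    rw [((markov_KX h hn).pt ht).const] at this
    simpa using this
  have := tv_ge _ hp (spaceX μ n) ⟨1, one_mem_spaceX⟩ φ h0 h1
  rw [hs] at this
  linarith [unif_le h hn φ h0]

lemma sum_wt_sel (hn : 0 < n) (i : Fin d) (f : Perm (Fin d) → ℝ) (g : Fin n → ℝ) :
    ∑ ω : Om d n, wt μ n ω * (f ω.1 * g (ω.2 i)) = (∑ σ, μ σ * f σ) * (∑ a, g a) / n := by
  have hn' : (n : ℝ) ≠ 0 := by positivity
  have h1 : (n : ℝ) * ∑ j : Fin d → Fin n, g (j i) = (n : ℝ) ^ d * ∑ a, g a := by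
    have e : ∀ j : Fin d → Fin n, g (j i) = ∑ a, if j i = a then g a else 0 := fun j => by simp
    simp only [e]
    rw [sum_comm, mul_sum, mul_sum]
    refine sum_congr rfl fun a _ => ?_
    rw [sum_sel i a (fun _ => g a) fun _ _ => rfl]
    simp
  rw [Fintype.sum_prod_type, sum_mul, sum_div]
  refine sum_congr rfl fun σ _ => ?_
  simp only [wt, ← mul_assoc, ← mul_sum]
  rw [eq_div_iff hn', mul_assoc _ _ (n : ℝ), mul_comm _ (n : ℝ), h1]
  field_simp

/-- the chain that also records the slots of urn `i` that were never really moved -/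
def updR (i : Fin d) (ω : Om d n) (z : Perm (Slot d n) × Finset (Fin n)) :
    Perm (Slot d n) × Finset (Fin n) :=
  (mv ω * z.1, if ω.1 i = i then z.2 else z.2.erase (ω.2 i))

lemma KR_card (h : Hyp μ) (hn : 0 < n) (i : Fin d) (φ : ℕ → ℝ)
    (z : Perm (Slot d n) × Finset (Fin n)) :
    Kup (wt μ n) (updR i) (fun z => φ z.2.card) z =
      φ z.2.card + (1 - urnMat μ i i) * z.2.card / n * (φ (z.2.card - 1) - φ z.2.card) := by
  have e : ∀ ω : Om d n, φ (updR i ω z).2.card = φ z.2.card +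
      (φ (z.2.card - 1) - φ z.2.card) *
        ((if ω.1 i = i then 0 else 1) * (if ω.2 i ∈ z.2 then 1 else 0)) := by
    intro ω
    simp only [updR]
    split_ifs with h1 h2 h2
    · simp
    · simp
    · rw [card_erase_of_mem h2]; simp
    · rw [erase_eq_of_notMem h2]; simp
  have e2 : ∑ σ, μ σ * (if σ i = i then 0 else 1) = 1 - urnMat μ i i := by
    rw [eq_sub_iff_add_eq, urnMat, ← sum_add_distrib]
    exact (sum_congr rfl fun σ _ => by split_ifs <;> simp).trans h.sum
  rw [Kup_apply]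
  simp only [e, mul_add, sum_add_distrib, ← sum_mul, wt_sum h hn, one_mul,
    mul_left_comm (wt μ n _) (φ (z.2.card - 1) - φ z.2.card), ← mul_sum]
  rw [sum_wt_sel hn i (fun σ => if σ i = i then 0 else 1) (fun a => if a ∈ z.2 then 1 else 0), e2]
  simp only [sum_ite_mem, univ_inter, sum_const, nsmul_eq_mul, mul_one]
  ring

lemma q_part (h : Hyp μ) (hn : 0 < n) (i : Fin d) {t : ℝ} (ht : 0 ≤ t) :
    1 - 8 / (n * Real.exp (-((1 - urnMat μ i i) * t / n))) ≤
      tv (heat (jumpX μ n) t 1) (spaceX μ n) := by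
  classical
  set q := 1 - urnMat μ i i with hq
  set m : ℝ := n * Real.exp (-(q * t / n)) with hmdef
  have hn' : (0 : ℝ) < n := by exact_mod_cast hn
  have hm : 0 < m := by positivity
  set K := Kup (wt μ n) (updR (n := n) i) with hK
  have hM : Markov K := markov_Kup (wt_nonneg h) (wt_sum h hn) _
  set z0 : Perm (Slot d n) × Finset (Fin n) := (1, univ) with hz0
  set Fx : Perm (Slot d n) → ℝ := fun η => ∑ a, if η (i, a) = (i, a) then 1 else 0 with hFx
  set φ : Perm (Slot d n) → ℝ := fun η => if m / 2 ≤ Fx η then 1 else 0 with hφ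
  set G : Perm (Slot d n) × Finset (Fin n) → ℝ :=
    fun z => if ∀ a ∈ z.2, z.1 (i, a) = (i, a) then 0 else 1 with hG
  have h1 : Pt K t (fun z => (z.2.card : ℝ)) z0 = m := by
    rw [Pt_eigen K (l := 1 - q / n) (fun z => ?_) t z0]
    · simp only [hz0, card_univ, Fintype.card_fin, hmdef]
      rw [mul_comm]; congr 2; ring
    · rw [KR_card h hn i (fun k => (k : ℝ)) z, ← hq]
      rcases Nat.eq_zero_or_pos z.2.card with h0 | h0
      · simp [h0]
      · rw [Nat.cast_sub h0]; push_cast; ring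
  have h2 : Pt K t (fun z => (z.2.card : ℝ) * (z.2.card - 1)) z0 ≤ m ^ 2 := by
    rw [Pt_eigen K (l := 1 - 2 * q / n) (fun z => ?_) t z0]
    · simp only [hz0, card_univ, Fintype.card_fin, hmdef]
      rw [mul_pow, ← Real.exp_nat_mul, show t * (1 - 2 * q / n - 1) = (2 : ℕ) * -(q * t / n) by
        push_cast; ring, mul_comm]
      exact mul_le_mul_of_nonneg_right (by nlinarith) (Real.exp_pos _).le
    · rw [KR_card h hn i (fun k => (k : ℝ) * (k - 1)) z, ← hq]
      rcases Nat.eq_zero_or_pos z.2.card with h0 | h0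
      · simp [h0]
      · rw [Nat.cast_sub h0]; push_cast; ring
  have h3 : Pt K t (fun z => (z.2.card : ℝ) ^ 2) z0 ≤ m ^ 2 + m := by
    have e : (fun z : Perm (Slot d n) × Finset (Fin n) => (z.2.card : ℝ) ^ 2) =
        fun z => (z.2.card : ℝ) * (z.2.card - 1) + z.2.card := by funext z; ring
    rw [e, op_add, h1]; linarith
  have hG0 : ∀ z, 0 ≤ G z := fun z => by simp only [hG]; split_ifs <;> norm_num
  have hG1 : ∀ z, G z ≤ 1 := fun z => by simp only [hG]; split_ifs <;> norm_num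
  have h4 : Pt K t G z0 ≤ 0 := by
    refine (hM.pt_le ht (fun z => ?_) z0).trans (by simp [hG, hz0])
    by_cases hz : ∀ a ∈ z.2, z.1 (i, a) = (i, a)
    · have : ∀ ω, G (updR i ω z) = 0 := by
        intro ω
        simp only [hG]
        rw [if_pos]
        intro a ha
        simp only [updR] at ha ⊢
        by_cases hσ : ω.1 i = i
        · rw [if_pos hσ] at ha
          rw [Perm.mul_apply, hz a ha, move_apply]
          split_ifs with h5
          · simp only at h5; rw [hσ, h5]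
          · rfl
        · rw [if_neg hσ, mem_erase] at ha
          rw [Perm.mul_apply, hz a ha.2, move_of_ne _ ha.1]
      rw [hK, Kup_apply]
      simp only [this, mul_zero, sum_const_zero]
      exact hG0 z
    · refine (hM.le_const hG1 z).trans ?_
      simp only [hG]; rw [if_neg hz]
  have h5 := cheb (hM.pt ht) z0 _ G (fun z => φ z.1) hm h1 h3 h4 fun z => by
    have h6 := cheb_pt (F := (z.2.card : ℝ)) hm
    by_cases hz : ∀ a ∈ z.2, z.1 (i, a) = (i, a)
    · have h7 : (z.2.card : ℝ) ≤ Fx z.1 := by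
        simp only [hFx]
        rw [sum_boole]
        exact_mod_cast card_le_card fun a ha => by simp [hz a ha]
      refine (sub_le_self _ (hG0 z)).trans (h6.trans ?_)
      simp only [hφ]
      split_ifs with h8 h9 h9
      · rfl
      · exact absurd (h8.trans h7) h9
      · norm_num
      · rfl
    · have h7 : G z = 1 := by simp only [hG]; rw [if_neg hz]
      have h8 : 0 ≤ φ z.1 := by simp only [hφ]; split_ifs <;> norm_num
      have h9 : 0 ≤ 4 / m ^ 2 * ((z.2.card : ℝ) - m) ^ 2 := by positivity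
      linarith
  rw [Pt_comp (K' := KX μ n) (ρ := Prod.fst) (Kup_comp _ fun _ _ => rfl) t φ z0] at h5
  have h6 := tvX_ge h hn ht φ (fun y => by simp only [hφ]; split_ifs <;> norm_num)
    (fun y => by simp only [hφ]; split_ifs <;> norm_num)
  have h7 : ∑ y, φ y ≤ 2 / m * ∑ y, Fx y := by
    rw [mul_sum]
    refine sum_le_sum fun y _ => ?_
    have : 0 ≤ Fx y := sum_nonneg fun a _ => by split_ifs <;> norm_num
    simp only [hφ]
    split_ifs with h8
    · rw [div_mul_eq_mul_div, le_div_iff₀ hm]; linarith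
    · positivity
  have hc : (0 : ℝ) < Fintype.card (Perm (Slot d n)) := by exact_mod_cast Fintype.card_pos
  have h8 : ∑ y, Fx y ≤ Fintype.card (Perm (Slot d n)) := by
    have h9 : (Fintype.card (Slot d n) : ℝ) * ∑ y, Fx y = Fintype.card (Perm (Slot d n)) * n := by
      simp only [hFx]
      rw [sum_comm, mul_sum]
      rw [sum_congr rfl fun a _ => sum_perm_one (fun c => if c = (i, a) then (1 : ℝ) else 0) (i, a)]
      simp [mul_comm]
    rw [card_slot] at h9
    have h10 : (2 : ℝ) ≤ d := by exact_mod_cast h.two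
    have h11 : 0 ≤ ∑ y, Fx y :=
      sum_nonneg fun y _ => sum_nonneg fun a _ => by split_ifs <;> norm_num
    push_cast at h9
    have h12 : (d : ℝ) * ∑ y, Fx y = Fintype.card (Perm (Slot d n)) := by
      apply mul_left_cancel₀ hn'.ne'
      linarith
    nlinarith
  have h9 : 2 * (∑ y, φ y) / Fintype.card (Perm (Slot d n)) ≤ 4 / m := by
    rw [div_le_iff₀ hc]
    have := mul_le_mul_of_nonneg_left h8 (by positivity : 0 ≤ 2 / m)
    have e : 4 / m = 2 * (2 / m) := by ring
    rw [e]; linarith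
  have e1 : 4 / m ^ 2 * m = 4 / m := by field_simp
  have e2 : 8 / m = 4 / m + 4 / m := by ring
  rw [e1] at h5
  rw [e2]
  simp only [hz0] at h5
  linarith

lemma sum_wt_urn (h : Hyp μ) (hn : 0 < n) (u : Fin d → ℝ) (c : Slot d n) :
    ∑ ω : Om d n, wt μ n ω * u (mv ω c).1 =
      u c.1 + (∑ j, urnMat μ c.1 j * u j - u c.1) / n := by
  have e : ∀ ω : Om d n, u (mv ω c).1 =
      u c.1 + (u (ω.1 c.1) - u c.1) * (if ω.2 c.1 = c.2 then 1 else 0) := by
    intro ω
    rw [move_apply]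
    by_cases h1 : c.2 = ω.2 c.1
    · rw [if_pos h1, if_pos h1.symm]; ring
    · rw [if_neg h1, if_neg (Ne.symm h1)]; ring
  have e2 : ∑ σ, μ σ * (u (σ c.1) - u c.1) = ∑ j, urnMat μ c.1 j * u j - u c.1 := by
    simp only [mul_sub, sum_sub_distrib, ← sum_mul, h.sum, one_mul, urnMat]
    congr 1
    simp only [sum_mul, ite_mul, zero_mul]
    rw [sum_comm]
    exact sum_congr rfl fun σ _ => by simp
  simp only [e, mul_add, sum_add_distrib, ← sum_mul, wt_sum h hn, one_mul]
  rw [sum_wt_sel hn c.1 (fun σ => u (σ c.1) - u c.1) (fun a => if a = c.2 then 1 else 0), e2]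
  simp

lemma sum_wt_eig (h : Hyp μ) (hn : 0 < n) {l : ℂ} {v : Fin d → ℂ}
    (hv : ∀ i, ∑ j, (urnMat μ i j : ℂ) * v j = l * v i) (c : Slot d n) :
    ∑ ω : Om d n, (wt μ n ω : ℂ) * v (mv ω c).1 = (1 + (l - 1) / n) * v c.1 := by
  have e : (1 + (l - 1) / n) * v c.1 = v c.1 + (l * v c.1 - v c.1) / (n : ℝ) := by
    push_cast; ring
  rw [e, ← hv]
  apply Complex.ext
  · simp only [Complex.re_sum, Complex.re_ofReal_mul, Complex.add_re, Complex.div_ofReal_re,
      Complex.sub_re]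
    exact sum_wt_urn h hn (fun i => (v i).re) c
  · simp only [Complex.im_sum, Complex.im_ofReal_mul, Complex.add_im, Complex.div_ofReal_im,
      Complex.sub_im]
    exact sum_wt_urn h hn (fun i => (v i).im) c

lemma g_part (h : Hyp μ) (hn : 0 < n) {l : ℂ} {v : Fin d → ℂ} (hv0 : v ≠ 0) (hv1 : ∑ i, v i = 0)
    (hv : ∀ i, ∑ j, (urnMat μ i j : ℂ) * v j = l * v i) (hl : l.re ≤ 1) {t : ℝ} (ht : 0 ≤ t) :
    1 - (16 * d ^ 2 * t + 64 * n) / (n * Real.exp (-((1 - l.re) * t / n))) ^ 2 ≤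
      tv (heat (jumpX μ n) t 1) (spaceX μ n) := by
  classical
  have hn' : (0 : ℝ) < n := by exact_mod_cast hn
  set V : ℝ := ∑ i, ‖v i‖ ^ 2 with hV
  have hle : ∀ i, ‖v i‖ ^ 2 ≤ V := fun i =>
    single_le_sum (f := fun i => ‖v i‖ ^ 2) (fun _ _ => by positivity) (mem_univ i)
  have hV0 : 0 < V := by
    obtain ⟨i, hi⟩ := Function.ne_iff.1 hv0
    exact lt_of_lt_of_le (pow_pos (norm_pos_iff.2 hi) 2) (hle i)
  set E : ℝ := Real.exp (-((1 - l.re) * t / n)) with hE
  have hE0 : 0 < E := Real.exp_pos _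
  set m : ℝ := n * E * V with hmdef
  have hm : 0 < m := by positivity
  set θ : ℂ := Complex.exp (-((t * l.im / n : ℝ) * Complex.I)) with hθ
  have hθ1 : ‖θ‖ = 1 := by
    rw [hθ, ← neg_mul, ← Complex.ofReal_neg, Complex.norm_exp_ofReal_mul_I]
  set u : Slot d n → ℂ := fun b => θ * (starRingEnd ℂ) (v b.1) with hu
  have hun : ∀ b, ‖u b‖ = ‖v b.1‖ := fun b => by simp [hu, hθ1]
  set w : Perm (Slot d n) → ℂ := fun η => ∑ b, u b * v (η b).1 with hw
  set L : ℂ := 1 + (l - 1) / n with hL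
  have heig : ∀ x, ∑ ω : Om d n, (wt μ n ω : ℂ) * w (mv ω * x) = L * w x := by
    intro x
    simp only [hw, mul_sum]
    rw [sum_comm]
    refine sum_congr rfl fun b _ => ?_
    rw [mul_left_comm, ← sum_wt_eig h hn hv, mul_sum]
    exact sum_congr rfl fun ω _ => by rw [Perm.mul_apply]; ring
  have hP : ∀ s x, Pt (KX μ n) s (fun y => (w y).re) x = (Complex.exp (s * (L - 1)) * w x).re :=
    fun s x => (Pt_ceigen (KX μ n) (l := L) (fun x => by
        rw [← heig, KX_apply, Complex.re_sum]; simp only [Complex.re_ofReal_mul])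
      (fun x => by
        rw [← heig, KX_apply, Complex.im_sum]; simp only [Complex.im_ofReal_mul]) s x).1
  have h1 : Pt (KX μ n) t (fun y => (w y).re) 1 = m := by
    have e1 : w 1 = θ * ((n * V : ℝ) : ℂ) := by
      simp only [hw, hu, Perm.one_apply, mul_assoc, ← mul_sum, Complex.conj_mul', hV]
      rw [Fintype.sum_prod_type]
      simp [mul_sum]
    have e2 : Complex.exp (t * (L - 1)) * θ = (E : ℂ) := by
      rw [hθ, ← Complex.exp_add, hE, Complex.ofReal_exp]
      congr 1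
      rw [hL]
      conv_lhs => rw [← Complex.re_add_im l]
      simp only [Complex.add_im, Complex.ofReal_im, Complex.mul_im, Complex.ofReal_re,
        Complex.I_im, Complex.I_re]
      push_cast
      ring
    rw [hP, e1, ← mul_assoc, e2, ← Complex.ofReal_mul, Complex.ofReal_re, hmdef]; ring
  have hjump : ∀ (ω : Om d n) x, ‖w (mv ω * x) - w x‖ ≤ 2 * d * V := by
    intro ω x
    have e1 : ∑ b, (if (x b).2 = ω.2 (x b).1 then 2 * V else 0) = 2 * d * V := by
      rw [Equiv.sum_comp x (fun c => if c.2 = ω.2 c.1 then 2 * V else 0), Fintype.sum_prod_type]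
      simp; ring
    rw [← e1]
    simp only [hw, ← sum_sub_distrib]
    refine norm_sum_le_of_le _ fun b _ => ?_
    rw [Perm.mul_apply]
    split_ifs with hb
    · rw [← mul_sub, norm_mul, hun]
      have h2 := norm_sub_le (v (mv ω (x b)).1) (v (x b).1)
      have h3 := mul_le_mul_of_nonneg_left h2 (norm_nonneg (v b.1))
      nlinarith [hle b.1, hle (mv ω (x b)).1, hle (x b).1,
        sq_nonneg (‖v b.1‖ - ‖v (mv ω (x b)).1‖), sq_nonneg (‖v b.1‖ - ‖v (x b).1‖)]
    · rw [move_of_ne _ hb]; simp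
  have h2 := var_le (wt_nonneg h) (wt_sum h hn) (fun ω η => mv ω * η) (fun y => (w y).re)
    (c := (2 * d * V) ^ 2) ht (fun s hs ω x => by
      change (Pt (KX μ n) s _ _ - Pt (KX μ n) s _ _) ^ 2 ≤ _
      rw [hP, hP, ← Complex.sub_re, ← mul_sub]
      refine sq_le_sq' (abs_le.1 ?_).1 (abs_le.1 ?_).2 <;>
      · refine (Complex.abs_re_le_norm _).trans ?_
        rw [norm_mul]
        refine (mul_le_of_le_one_left (norm_nonneg _) ?_).trans (hjump ω x)
        rw [Complex.norm_exp, Real.exp_le_one_iff, Complex.re_ofReal_mul, hL, add_sub_cancel_left,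
          Complex.div_natCast_re, Complex.sub_re, Complex.one_re]
        exact mul_nonpos_of_nonneg_of_nonpos hs (div_nonpos_of_nonpos_of_nonneg (by linarith) hn'.le)) 1
  change Pt (KX μ n) t _ _ ≤ (Pt (KX μ n) t _ _) ^ 2 + _ at h2
  rw [h1] at h2
  set φ : Perm (Slot d n) → ℝ := fun η => if m / 2 ≤ (w η).re then 1 else 0 with hφ
  have h5 := cheb ((markov_KX h hn).pt ht) 1 _ (fun _ => 0) φ hm h1 h2
    (((markov_KX h hn).pt ht).const 0 1).le fun η => by rw [sub_zero]; exact cheb_pt hm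
  have h6 := tvX_ge h hn ht φ (fun y => by simp only [hφ]; split_ifs <;> norm_num)
    (fun y => by simp only [hφ]; split_ifs <;> norm_num)
  have h7 : ∑ y, φ y ≤ 4 / m ^ 2 * ∑ y, (w y).re ^ 2 := by
    rw [mul_sum]
    refine sum_le_sum fun y _ => ?_
    simp only [hφ]
    split_ifs with h8
    · rw [div_mul_eq_mul_div, le_div_iff₀ (by positivity)]; nlinarith
    · positivity
  have hc : (0 : ℝ) < Fintype.card (Perm (Slot d n)) := by exact_mod_cast Fintype.card_pos
  have hd2 : (2 : ℝ) ≤ d := by exact_mod_cast h.two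
  have hsq : ∀ (a β : Slot d n → ℝ), (∀ b, |a b| ≤ ‖v b.1‖) → (∀ b, |β b| ≤ ‖v b.1‖) →
      ∑ c, β c = 0 → ∑ η : Perm (Slot d n), (∑ b, a b * β (η b)) ^ 2 ≤
        Fintype.card (Perm (Slot d n)) * (n * V ^ 2) := by
    intro a β ha hβ h0
    have hs : ∀ a : Slot d n → ℝ, (∀ b, |a b| ≤ ‖v b.1‖) → ∑ b, a b ^ 2 ≤ n * V := by
      intro a ha
      refine (sum_le_sum fun b _ => sq_le_sq' (abs_le.1 (ha b)).1 (abs_le.1 (ha b)).2).trans ?_
      rw [Fintype.sum_prod_type]
      simp [hV, mul_sum]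
    have h8 := sum_perm_sq (by rw [card_slot]; nlinarith [h.two]) a β h0
    rw [card_slot] at h8
    push_cast at h8
    have h9 : (∑ b, a b ^ 2) * ∑ c, β c ^ 2 ≤ (n * V) * (n * V) :=
      mul_le_mul (hs a ha) (hs β hβ) (by positivity) (by positivity)
    have h10 := mul_le_mul_of_nonneg_left h9 (by positivity :
      (0 : ℝ) ≤ 2 * Fintype.card (Perm (Slot d n)))
    have h11 : 0 ≤ ∑ η : Perm (Slot d n), (∑ b, a b * β (η b)) ^ 2 := by positivity
    have h12 := mul_le_mul_of_nonneg_right (mul_le_mul_of_nonneg_right hd2 hn'.le) h11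
    apply le_of_mul_le_mul_left _ (by positivity : (0 : ℝ) < 2 * n)
    nlinarith
  have h8 : ∑ y, (w y).re ^ 2 ≤ 4 * (Fintype.card (Perm (Slot d n)) * (n * V ^ 2)) := by
    have hre := hsq (fun b => (u b).re) (fun c => (v c.1).re)
      (fun b => (Complex.abs_re_le_norm _).trans (hun b).le) (fun b => Complex.abs_re_le_norm _)
      (by rw [Fintype.sum_prod_type]; simp [← mul_sum, ← Complex.re_sum, hv1])
    have him := hsq (fun b => (u b).im) (fun c => (v c.1).im)
      (fun b => (Complex.abs_im_le_norm _).trans (hun b).le) (fun b => Complex.abs_im_le_norm _)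
      (by rw [Fintype.sum_prod_type]; simp [← mul_sum, ← Complex.im_sum, hv1])
    refine le_trans (sum_le_sum fun y _ => ?_ : _ ≤ ∑ y : Perm (Slot d n),
      (2 * (∑ b, (u b).re * (v (y b).1).re) ^ 2 + 2 * (∑ b, (u b).im * (v (y b).1).im) ^ 2)) ?_
    · simp only [hw, Complex.re_sum, Complex.mul_re, sum_sub_distrib]
      nlinarith [sq_nonneg (∑ b, (u b).re * (v (y b).1).re + ∑ b, (u b).im * (v (y b).1).im)]
    · rw [sum_add_distrib, ← mul_sum, ← mul_sum]; linarith
  have h9 : 2 * (∑ y, φ y) / Fintype.card (Perm (Slot d n)) ≤ 32 * n / (n * E) ^ 2 := by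
    rw [div_le_iff₀ hc]
    have := mul_le_mul_of_nonneg_left h8 (by positivity : 0 ≤ 4 / m ^ 2)
    have e : 32 * n / (n * E) ^ 2 * Fintype.card (Perm (Slot d n)) =
        2 * (4 / m ^ 2 * (4 * (Fintype.card (Perm (Slot d n)) * (n * V ^ 2)))) := by
      rw [hmdef]; field_simp; ring
    rw [e]; linarith
  have e1 : 4 / m ^ 2 * ((2 * d * V) ^ 2 * t) = 16 * d ^ 2 * t / (n * E) ^ 2 := by
    rw [hmdef]; field_simp; ring
  have e2 : 32 * n / (n * E) ^ 2 ≤ 64 * n / (n * E) ^ 2 := by gcongr; norm_num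
  rw [e1] at h5
  rw [add_div]
  linarith

lemma ev_small {η ε : ℝ} (hη : 0 < η) (hε : ε < 1) (A B : ℝ) :
    ∀ᶠ n : ℕ in atTop, ε < 1 - (A * Real.log n + B) / (n : ℝ) ^ η := by
  have h1 : Tendsto (fun x : ℝ => Real.log x / x ^ η) atTop (nhds 0) :=
    (isLittleO_log_rpow_atTop hη).tendsto_div_nhds_zero
  have h2 : Tendsto (fun x : ℝ => (x ^ η)⁻¹) atTop (nhds 0) :=
    (tendsto_rpow_atTop hη).inv_tendsto_atTop
  have h3 := (((h1.const_mul A).add (h2.const_mul B)).const_sub 1).comp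
    tendsto_natCast_atTop_atTop
  simp only [mul_zero, add_zero, sub_zero] at h3
  filter_upwards [h3.eventually (lt_mem_nhds hε)] with n hn
  refine lt_of_lt_of_eq hn ?_
  simp only [Function.comp]; ring

lemma exp_ge {η g t : ℝ} (hn : 0 < n) (ht : g * t ≤ (1 - η) * (n * Real.log n)) :
    (n : ℝ) ^ η ≤ n * Real.exp (-(g * t / n)) := by
  have hn' : (0 : ℝ) < n := by exact_mod_cast hn
  rw [Real.rpow_def_of_pos hn']
  conv_rhs => rw [← Real.exp_log hn', ← Real.exp_add, Real.exp_log hn']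
  rw [Real.exp_le_exp]
  have : g * t / n ≤ (1 - η) * Real.log n := by rw [div_le_iff₀ hn']; linarith
  linarith

end LowX

open LowX in
theorem lowerX {d : ℕ} {μ : Perm (Fin d) → ℝ} (h : Hyp μ) {η ε : ℝ} (hη : 0 < η) (hε : ε < 1) :
    ∀ᶠ n in atTop, ∀ t, 0 ≤ t → t ≤ (1 - η) * cutTime μ n →
      ∃ x ∈ spaceX μ n, ε < tv (heat (jumpX μ n) t x) (spaceX μ n) := by
  have hq := holdGap_pos h
  have hg := specGap_pos h
  rcases le_total (1 / (2 * specGap μ)) (1 / holdGap μ) with hc | hc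
  · obtain ⟨i, hi⟩ := exists_holdGap h
    filter_upwards [ev_small hη hε 0 8, eventually_gt_atTop 0] with n h1 hn t ht htT
    refine ⟨1, one_mem_spaceX, h1.trans_le (le_trans ?_ (q_part h hn i ht))⟩
    rw [cutTime, max_eq_left hc] at htT
    have h2 : holdGap μ * t ≤ (1 - η) * (n * Real.log n) := by
      refine (mul_le_mul_of_nonneg_left htT hq.le).trans (le_of_eq ?_)
      field_simp
    have h3 := exp_ge hn h2
    have h4 : (0 : ℝ) < (n : ℝ) ^ η := by positivity
    rw [← hi, zero_mul, zero_add]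
    gcongr
  · obtain ⟨l, v, hv0, hv1, hv, hl⟩ := exists_specGap h
    filter_upwards [ev_small hη hε (8 * d ^ 2 / specGap μ) 64, eventually_gt_atTop 0]
      with n h1 hn t ht htT
    refine ⟨1, one_mem_spaceX, h1.trans_le (le_trans ?_
      (g_part h hn hv0 hv1 hv (by linarith) ht))⟩
    have hn' : (0 : ℝ) < n := by exact_mod_cast hn
    rw [cutTime, max_eq_right hc] at htT
    have h2 : 2 * specGap μ * t ≤ (1 - η) * (n * Real.log n) := by
      refine (mul_le_mul_of_nonneg_left htT (by positivity)).trans (le_of_eq ?_)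
      field_simp
    have h3 := exp_ge hn h2
    have h4 : (0 : ℝ) < (n : ℝ) ^ η := by positivity
    have h5 : 0 ≤ Real.log n := Real.log_natCast_nonneg n
    have h6 : 2 * specGap μ * t ≤ n * Real.log n := by nlinarith [mul_nonneg hn'.le h5]
    have e1 : (n * Real.exp (-(specGap μ * t / n))) ^ 2 =
        n * (n * Real.exp (-(2 * specGap μ * t / n))) := by
      rw [mul_pow, ← Real.exp_nat_mul, show ((2 : ℕ) : ℝ) * -(specGap μ * t / n) =
        -(2 * specGap μ * t / n) by push_cast; ring]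
      ring
    have h7 : 16 * d ^ 2 * t + 64 * n ≤ n * (8 * d ^ 2 / specGap μ * Real.log n + 64) := by
      have h8 : t ≤ n * Real.log n / (2 * specGap μ) := by
        rw [le_div_iff₀ (by positivity)]; linarith
      have h9 := mul_le_mul_of_nonneg_left h8 (by positivity : (0 : ℝ) ≤ 16 * d ^ 2)
      have e : 16 * (d : ℝ) ^ 2 * (n * Real.log n / (2 * specGap μ)) =
        n * (8 * d ^ 2 / specGap μ * Real.log n) := by field_simp; ring
      linarith
    rw [← hl, e1, ← mul_div_mul_left _ ((n : ℝ) ^ η) hn'.ne']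
    gcongr

end Pool.Agent.P.MP_c47a54_pr
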