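import Pool.Agent.P.MP_c47a54_pr.Base

namespace Pool.Agent.P.MP_c47a54_pr

open Equiv Finset Filter

variable {d n : ℕ} {μ : Perm (Fin d) → ℝ}

namespace Mark

lemma lyap_bound {S : Type} [Fintype S] {K : Op S} (hK : Markov K) {V B : S → ℝ} {κ : ℝ}
    (hκ : 0 ≤ κ) (hV : ∀ x, 0 ≤ V x) (h1 : ∀ x, K V x ≤ V x - κ * B x) (h2 : ∀ x, K B x ≤ B x)
    (s : ℕ) (x : S) : s * κ * (K ^ s) B x ≤ V x := by
  have h : (K ^ s) V x + s * κ * (K ^ s) B x ≤ V x := by
    induction s with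
    | zero => simp
    | succ s ih =>
      have a1 := (hK.pow s).mono _ _ h1 x
      have a2 := (hK.pow s).mono _ _ h2 x
      rw [op_sub, op_cmul] at a1
      rw [pow_succ_apply, pow_succ_apply]
      have a3 := mul_le_mul_of_nonneg_left a2 (show 0 ≤ ((s : ℝ) + 1) * κ by positivity)
      rw [Nat.cast_add_one]
      linarith
  linarith [(hK.pow s).nonneg hV x]

lemma sel_one (i : Fin d) (a : Fin n) :
    (n : ℝ) * ∑ j : Fin d → Fin n, (if j i = a then (1 : ℝ) else 0) = n ^ d := by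
  rw [sum_sel i a (fun _ => 1) fun _ _ => rfl]; simp

lemma sel_two {i k : Fin d} (hik : i ≠ k) (a b : Fin n) :
    (n : ℝ) * (n * ∑ j : Fin d → Fin n, (if j i = a ∧ j k = b then (1 : ℝ) else 0)) = n ^ d := by
  simp only [ite_and]
  rw [sum_sel i a (fun j => if j k = b then 1 else 0) fun x c => by
    simp [Function.update_of_ne hik.symm], sel_one]

lemma avg_fix (σ : Perm (Fin d)) (F : (Fin d → Fin n) → ℝ) :
    ∑ ω : Om d n, wt μ n ω * (if ω.1 = σ then F ω.2 else 0) = μ σ / n ^ d * ∑ j, F j := by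
  rw [Fintype.sum_prod_type, sum_eq_single σ]
  · simp [wt, mul_sum]
  · intro τ _ hτ; simp [hτ]
  · simp

lemma avg_sel (h : Hyp μ) (v : Slot d n) :
    ∑ ω : Om d n, wt μ n ω * (if ω.2 v.1 = v.2 then (1 : ℝ) else 0) = 1 / n := by
  have hn : (0 : ℝ) < n := by exact_mod_cast v.2.pos
  have e : ∀ σ, ∑ j : Fin d → Fin n, wt μ n (σ, j) * (if j v.1 = v.2 then (1 : ℝ) else 0) =
      μ σ * (1 / n) := by
    intro σ
    simp only [wt, ← mul_sum]
    rw [← sel_one v.1 v.2]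
    have h1 := sel_one v.1 v.2
    generalize (∑ j : Fin d → Fin n, (if j v.1 = v.2 then (1 : ℝ) else 0)) = T at h1 ⊢
    have : T ≠ 0 := by
      rintro rfl
      have : (0 : ℝ) < n ^ d := by positivity
      linarith
    field_simp
  rw [Fintype.sum_prod_type]
  refine (sum_congr rfl fun σ _ => e σ).trans ?_
  rw [← sum_mul, h.sum, one_mul]

lemma solo (hn : 2 ≤ n) {v w : Slot d n} (hvw : v ≠ w) :
    (n : ℝ) ^ d ≤ 2 * n * ∑ j : Fin d → Fin n,
      (if j v.1 = v.2 ∧ j w.1 ≠ w.2 then (1 : ℝ) else 0) := by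
  have hn' : (2 : ℝ) ≤ n := by exact_mod_cast hn
  have e : ∑ j : Fin d → Fin n, (if j v.1 = v.2 ∧ j w.1 ≠ w.2 then (1 : ℝ) else 0) =
      ∑ j : Fin d → Fin n, (if j v.1 = v.2 then (1 : ℝ) else 0) -
        ∑ j : Fin d → Fin n, (if j v.1 = v.2 ∧ j w.1 = w.2 then (1 : ℝ) else 0) := by
    rw [← sum_sub_distrib]
    refine sum_congr rfl fun j _ => ?_
    by_cases h1 : j v.1 = v.2 <;> by_cases h2 : j w.1 = w.2 <;> simp [h1, h2]
  have h1 := sel_one v.1 v.2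
  have h0 : (0 : ℝ) ≤ ∑ j : Fin d → Fin n, (if j v.1 = v.2 ∧ j w.1 = w.2 then (1 : ℝ) else 0) :=
    sum_nonneg fun j _ => by split_ifs <;> norm_num
  have h2 : (n : ℝ) * (n * ∑ j : Fin d → Fin n,
      (if j v.1 = v.2 ∧ j w.1 = w.2 then (1 : ℝ) else 0)) ≤ n ^ d := by
    by_cases hi : v.1 = w.1
    · rw [sum_eq_zero]
      · simp
      · intro j _
        rw [if_neg]
        rintro ⟨a1, a2⟩
        exact hvw (Prod.ext hi (by rw [← a1, ← a2, hi]))
    · exact (sel_two hi _ _).le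
  rw [e]
  nlinarith [mul_nonneg (show (0 : ℝ) ≤ n by linarith) h0]

lemma pair_one (h : Hyp μ) (hn : 2 ≤ n) {g0 g1 : Fin d → ℝ} (h0 : ∀ i, 0 ≤ g0 i)
    (h1 : ∀ i, 0 ≤ g1 i) {v w : Slot d n} (hvw : v ≠ w) (σ : Perm (Fin d)) :
    g0 v.1 * g1 w.1 * (1 - 2 / n) + μ σ * g0 (σ v.1) * g1 w.1 / (2 * n) ≤
      ∑ ω : Om d n, wt μ n ω * (g0 (mv ω v).1 * g1 (mv ω w).1) := by
  have hn' : (2 : ℝ) ≤ n := by exact_mod_cast hn
  have hp : ∀ ω : Om d n, g0 v.1 * g1 w.1 * (1 - (if ω.2 v.1 = v.2 then (1 : ℝ) else 0) -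
      (if ω.2 w.1 = w.2 then (1 : ℝ) else 0)) + g0 (σ v.1) * g1 w.1 *
        (if ω.1 = σ then (if ω.2 v.1 = v.2 ∧ ω.2 w.1 ≠ w.2 then (1 : ℝ) else 0) else 0) ≤
      g0 (mv ω v).1 * g1 (mv ω w).1 := by
    intro ω
    have a1 := mul_nonneg (h0 v.1) (h1 w.1)
    have a2 := mul_nonneg (h0 (mv ω v).1) (h1 (mv ω w).1)
    by_cases c1 : ω.2 v.1 = v.2 <;> by_cases c2 : ω.2 w.1 = w.2
    · simp only [c1, c2]; simp; linarith
    · by_cases c3 : ω.1 = σ
      · rw [move_of_ne _ (Ne.symm c2), move_apply, if_pos c1.symm]; simp [c1, c2, c3]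
      · simp only [c1, c2, c3]; simpa using a2
    · simp only [c1, c2]; simpa using a2
    · rw [move_of_ne _ (Ne.symm c2), move_of_ne _ (Ne.symm c1)]; simp [c1, c2]
  refine le_trans ?_ (sum_le_sum fun ω _ => mul_le_mul_of_nonneg_left (hp ω) (wt_nonneg h ω))
  have e : ∀ (p a b x y z : ℝ), p * (a * (1 - x - y) + b * z) =
      a * p - a * (p * x) - a * (p * y) + b * (p * z) := fun _ _ _ _ _ _ => by ring
  simp only [e, sum_add_distrib, sum_sub_distrib, ← mul_sum]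
  rw [wt_sum h (by omega), avg_sel h, avg_sel h,
    avg_fix σ fun j => if j v.1 = v.2 ∧ j w.1 ≠ w.2 then (1 : ℝ) else 0]
  have h3 := solo hn hvw
  set T := ∑ j : Fin d → Fin n, (if j v.1 = v.2 ∧ j w.1 ≠ w.2 then (1 : ℝ) else 0)
  have h4 : 1 / (2 * (n : ℝ)) ≤ T / n ^ d := by
    rw [div_le_div_iff₀ (by positivity) (by positivity)]; linarith
  have h5 := mul_le_mul_of_nonneg_left h4
    (mul_nonneg (mul_nonneg (h.nonneg σ) (h0 (σ v.1))) (h1 w.1))
  have e1 : g0 (σ v.1) * g1 w.1 * (μ σ / n ^ d * T) = μ σ * g0 (σ v.1) * g1 w.1 * (T / n ^ d) := by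
    ring
  rw [e1]
  have e2 : μ σ * g0 (σ v.1) * g1 w.1 / (2 * n) = μ σ * g0 (σ v.1) * g1 w.1 * (1 / (2 * n)) := by
    ring
  rw [e2]
  have e3 : g0 v.1 * g1 w.1 * (1 - 2 / n) =
      g0 v.1 * g1 w.1 * 1 - g0 v.1 * g1 w.1 * (1 / n) - g0 v.1 * g1 w.1 * (1 / n) := by ring
  linarith

lemma urn_nonneg (h : Hyp μ) (k : ℕ) (i j : Fin d) : 0 ≤ (urnMat μ ^ k) i j := by
  induction k generalizing i with
  | zero => rw [pow_zero, Matrix.one_apply]; split_ifs <;> norm_num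
  | succ k ih =>
    rw [pow_succ', Matrix.mul_apply]
    exact sum_nonneg fun l _ => mul_nonneg
      (sum_nonneg fun σ _ => by split_ifs; exacts [h.nonneg σ, le_rfl]) (ih l)

lemma arc (h : Hyp μ) {k : ℕ} {i t : Fin d} (hk : 0 < (urnMat μ ^ (k + 1)) i t) :
    ∃ σ, 0 < μ σ ∧ 0 < (urnMat μ ^ k) (σ i) t := by
  by_contra hc
  push Not at hc
  refine absurd hk (not_lt.2 ?_)
  rw [pow_succ', Matrix.mul_apply]
  refine sum_nonpos fun l _ => ?_
  rw [urnMat, sum_mul]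
  refine sum_nonpos fun σ _ => ?_
  split_ifs with h1
  · subst h1
    rcases (h.nonneg σ).eq_or_lt with h2 | h2
    · rw [← h2]; simp
    · exact mul_nonpos_of_nonneg_of_nonpos h2.le (hc σ h2)
  · simp

lemma exists_g (h : Hyp μ) (t : Fin d) : ∃ (g : Fin d → ℝ) (c : ℝ), 0 < c ∧ (∀ i, c ≤ g i) ∧
    (∀ i, g i ≤ 1) ∧ ∀ i, i ≠ t → ∃ σ, 8 * g i ≤ μ σ * g (σ i) := by
  obtain ⟨σ1, hσ1⟩ := Finite.exists_min fun σ => if 0 < μ σ then μ σ else 1
  set p := if 0 < μ σ1 then μ σ1 else 1 with hp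
  have p0 : 0 < p := by rw [hp]; split_ifs with h1; exacts [h1, one_pos]
  have p1 : ∀ σ, 0 < μ σ → p ≤ μ σ := fun σ h1 => by simpa [h1] using hσ1 σ
  have m1 : ∀ σ, μ σ ≤ 1 := fun σ =>
    h.sum ▸ single_le_sum (f := μ) (fun σ _ => h.nonneg σ) (mem_univ σ)
  have p2 : p ≤ 1 := by rw [hp]; split_ifs; exacts [m1 _, le_rfl]
  have l0 : 0 < p / 8 := by positivity
  have l1 : p / 8 ≤ 1 := by linarith
  have : Nonempty (Fin d) := ⟨t⟩
  obtain ⟨i1, hi1⟩ := Finite.exists_min fun i => (p / 8) ^ Nat.find (h.irr i t)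
  refine ⟨fun i => (p / 8) ^ Nat.find (h.irr i t), _, pow_pos l0 _, hi1,
    fun i => pow_le_one₀ l0.le l1, fun i hi => ?_⟩
  have h1 := Nat.find_spec (h.irr i t)
  obtain ⟨k, hk⟩ : ∃ k, Nat.find (h.irr i t) = k + 1 := by
    refine Nat.exists_eq_succ_of_ne_zero fun h0 => ?_
    rw [h0, pow_zero, Matrix.one_apply_ne hi] at h1
    exact lt_irrefl _ h1
  rw [hk] at h1
  obtain ⟨σ, h2, h3⟩ := arc h h1
  refine ⟨σ, ?_⟩
  have h4 := pow_le_pow_of_le_one l0.le l1 (Nat.find_min' (h.irr (σ i) t) h3)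
  simp only [hk]
  calc 8 * (p / 8) ^ (k + 1) = p * (p / 8) ^ k := by ring
    _ ≤ _ := mul_le_mul (p1 σ h2) h4 (by positivity) h2.le

lemma exists_mover (h : Hyp μ) : ∃ σ i, 0 < μ σ ∧ σ i ≠ i := by
  have := h.two
  obtain ⟨g, c, c0, h1, h2, h3⟩ := exists_g h ⟨0, by omega⟩
  obtain ⟨σ, h4⟩ := h3 ⟨1, by omega⟩ (by simp)
  have m1 : μ σ ≤ 1 := h.sum ▸ single_le_sum (f := μ) (fun σ _ => h.nonneg σ) (mem_univ σ)
  have h5 := h1 ⟨1, by omega⟩
  refine ⟨σ, ⟨1, by omega⟩, ?_, fun h6 => ?_⟩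
  · refine (h.nonneg σ).lt_of_ne fun h6 => ?_
    rw [← h6] at h4; linarith
  · rw [h6] at h4; nlinarith

/-- drift of one pair of balls -/
lemma pair (h : Hyp μ) {σ0 : Perm (Fin d)} (h0 : 0 < μ σ0) {i0 i1 : Fin d} (hi : i0 ≠ i1) :
    ∃ (g : Fin d → Fin d → ℝ) (c C : ℝ), 0 < c ∧ 0 < C ∧ (∀ i k, 0 ≤ g i k) ∧ (∀ i k, g i k ≤ 1) ∧
      ∀ n, 2 ≤ n → ∀ v w : Slot d n, v ≠ w → g v.1 w.1 + c / n ≤
        ∑ ω : Om d n, wt μ n ω * (g (mv ω v).1 (mv ω w).1 + C * n *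
          (if ω.1 = σ0 then (if v = (i0, ω.2 i0) ∧ w = (i1, ω.2 i1) then 1 else 0) else 0)) := by
  obtain ⟨g0, c0, p0, a0, b0, e0⟩ := exists_g h i0
  obtain ⟨g1, c1, p1, a1, b1, e1⟩ := exists_g h i1
  have n0 : ∀ i, 0 ≤ g0 i := fun i => p0.le.trans (a0 i)
  have n1 : ∀ i, 0 ≤ g1 i := fun i => p1.le.trans (a1 i)
  refine ⟨fun i k => g0 i * g1 k, 2 * (c0 * c1), 4 / μ σ0, by positivity, by positivity,
    fun i k => mul_nonneg (n0 i) (n1 k), fun i k => mul_le_one₀ (b0 i) (n1 k) (b1 k),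
    fun n hn v w hvw => ?_⟩
  have hn' : (2 : ℝ) ≤ n := by exact_mod_cast hn
  have hn0 : (0 : ℝ) < n := by linarith
  have e : ∀ p a b z : ℝ, p * (a + b * z) = p * a + b * (p * z) := fun _ _ _ _ => by ring
  simp only [e, sum_add_distrib, ← mul_sum]
  rw [avg_fix σ0 fun j => if v = (i0, j i0) ∧ w = (i1, j i1) then (1 : ℝ) else 0]
  set T := ∑ j : Fin d → Fin n, (if v = (i0, j i0) ∧ w = (i1, j i1) then (1 : ℝ) else 0) with hT
  have T0 : 0 ≤ T := sum_nonneg fun j _ => by split_ifs <;> norm_num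
  have T1 : 0 ≤ 4 / μ σ0 * n * (μ σ0 / n ^ d * T) := by positivity
  have hc : c0 * c1 ≤ g0 v.1 * g1 w.1 := mul_le_mul (a0 _) (a1 _) p1.le (n0 _)
  have hg : g0 v.1 * g1 w.1 ≤ 1 := mul_le_one₀ (b0 _) (n1 _) (b1 _)
  have fin : ∀ X Y : ℝ, 8 * (g0 v.1 * g1 w.1) ≤ X →
      g0 v.1 * g1 w.1 * (1 - 2 / n) + X / (2 * n) ≤ Y → g0 v.1 * g1 w.1 + 2 * (c0 * c1) / n ≤ Y := by
    intro X Y hX hY
    refine le_trans ?_ hY
    have : 2 * (c0 * c1) / n ≤ (X / 2 - 2 * (g0 v.1 * g1 w.1)) / n := by gcongr; linarith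
    refine (add_le_add le_rfl this).trans (le_of_eq ?_)
    field_simp; ring
  by_cases hv : v.1 = i0
  · by_cases hw : w.1 = i1
    · have h2 : (n : ℝ) * (n * T) = n ^ d := by
        rw [← sel_two hi v.2 w.2, hT]
        congr 3
        funext j
        simp [Prod.ext_iff, hv, hw, eq_comm]
      have h3 : 4 / μ σ0 * n * (μ σ0 / n ^ d * T) = 8 / (2 * n) := by
        have : T ≠ 0 := by
          rintro h4
          rw [h4] at h2
          have : (0 : ℝ) < n ^ d := by positivity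
          linarith
        rw [← h2]; field_simp; norm_num
      refine fin 8 _ (by linarith) ?_
      have h4 := pair_one h hn n0 n1 hvw 1
      have h5 : 0 ≤ μ 1 * g0 ((1 : Perm (Fin d)) v.1) * g1 w.1 / (2 * n) :=
        div_nonneg (mul_nonneg (mul_nonneg (h.nonneg _) (n0 _)) (n1 _)) (by positivity)
      linarith
    · obtain ⟨σ, hσ⟩ := e1 _ hw
      have h4 := pair_one h hn n1 n0 hvw.symm σ
      simp only [mul_comm (g1 _) (g0 _)] at h4
      refine fin (μ σ * g1 (σ w.1) * g0 v.1) _ ?_ (by linarith)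
      nlinarith [mul_le_mul_of_nonneg_right hσ (n0 v.1)]
  · obtain ⟨σ, hσ⟩ := e0 _ hv
    have h4 := pair_one h hn n0 n1 hvw σ
    refine fin (μ σ * g0 (σ v.1) * g1 w.1) _ ?_ (by linarith)
    nlinarith [mul_le_mul_of_nonneg_right hσ (n1 w.1)]

abbrev St (d n : ℕ) := Perm (Slot d n) × Finset (Slot d n)

abbrev hit (σ0 : Perm (Fin d)) (i0 : Fin d) (ω : Om d n) (z : St d n) : Prop :=
  ω.1 = σ0 ∧ z.1⁻¹ (i0, ω.2 i0) ∉ z.2 ∧ z.1⁻¹ (σ0⁻¹ i0, ω.2 (σ0⁻¹ i0)) ∉ z.2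

def upd (σ0 : Perm (Fin d)) (i0 : Fin d) (ω : Om d n) (z : St d n) : St d n :=
  (mv ω * z.1, if hit σ0 i0 ω z then insert (z.1⁻¹ (i0, ω.2 i0)) z.2 else z.2)

noncomputable def ind (M : Finset (Slot d n)) (ρ : Perm (Slot d n)) (z : St d n) : ℝ :=
  if z.2 = M ∧ ∀ b ∈ M, z.1 b = ρ b then 1 else 0

lemma ind_nonneg (M : Finset (Slot d n)) (ρ : Perm (Slot d n)) (z : St d n) : 0 ≤ ind M ρ z := by
  unfold ind; split_ifs <;> norm_num

variable {σ0 : Perm (Fin d)} {i0 : Fin d}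

lemma ind_step (M : Finset (Slot d n)) (ρ : Perm (Slot d n)) (ω : Om d n) (z : St d n) :
    ind M ρ (upd σ0 i0 ω z) ≤ ind M ((mv ω)⁻¹ * ρ) z + ∑ b ∈ M, if ω.1 = σ0 then
      (if ω.2 i0 = (z.1 b).2 then (if ω.2 (σ0 i0) = (ρ b).2 then (1 : ℝ) else 0) *
        ind (M.erase b) ((move (σ0 * swap i0 (σ0⁻¹ i0)) ω.2)⁻¹ * ρ) z else 0) else 0 := by
  have hs : ∀ b ∈ M, 0 ≤ if ω.1 = σ0 then
      (if ω.2 i0 = (z.1 b).2 then (if ω.2 (σ0 i0) = (ρ b).2 then (1 : ℝ) else 0) *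
        ind (M.erase b) ((move (σ0 * swap i0 (σ0⁻¹ i0)) ω.2)⁻¹ * ρ) z else 0) else 0 := by
    intro b _
    split_ifs <;> simp [ind_nonneg]
  by_cases h1 : (upd σ0 i0 ω z).2 = M ∧ ∀ b ∈ M, (upd σ0 i0 ω z).1 b = ρ b
  swap
  · rw [ind, if_neg h1]; exact add_nonneg (ind_nonneg _ _ _) (sum_nonneg hs)
  rw [ind, if_pos h1]
  obtain ⟨h1, h2⟩ := h1
  simp only [upd, Perm.mul_apply] at h1 h2
  by_cases h3 : hit σ0 i0 ω z
  · rw [if_pos h3] at h1
    obtain ⟨a1, a2, a3⟩ := h3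
    have hb : z.1⁻¹ (i0, ω.2 i0) ∈ M := h1 ▸ mem_insert_self _ _
    refine le_add_of_nonneg_of_le (ind_nonneg _ _ _) (le_trans ?_ (single_le_sum hs hb))
    have a4 := h2 _ hb
    rw [show z.1 (z.1⁻¹ (i0, ω.2 i0)) = (i0, ω.2 i0) by simp, mv, move_sel, a1] at a4
    rw [if_pos a1, if_pos (by simp), if_pos (by rw [← a4]), one_mul, ind, if_pos]
    refine ⟨by rw [← h1, erase_insert a2], fun b hb' => ?_⟩
    rw [← h1, erase_insert a2] at hb'
    have a5 := h2 b (h1 ▸ mem_insert_of_mem hb')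
    rw [Perm.mul_apply, Perm.eq_inv_iff_eq, ← a5, mv, a1, move_mul, move_swap, Perm.mul_apply,
      swap_apply_of_ne_of_ne]
    · intro a6; exact a2 (by rw [← a6]; simpa using hb')
    · intro a6; exact a3 (by rw [← a6]; simpa using hb')
  · rw [if_neg h3] at h1
    refine le_add_of_le_of_nonneg ?_ (sum_nonneg hs)
    rw [ind, if_pos]
    exact ⟨h1, fun b hb => by rw [Perm.mul_apply, Perm.eq_inv_iff_eq, h2 b hb]⟩

lemma move_update {σ : Perm (Fin d)} {i : Fin d} (hσ : σ i = i) (j : Fin d → Fin n) (c : Fin n) :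
    move σ (Function.update j i c) = move σ j := by
  ext1 v
  obtain ⟨a, b⟩ := v
  by_cases ha : a = i
  · subst ha
    simp only [move_apply, hσ, Function.update_self]
    split_ifs <;> simp_all
  · have : σ a ≠ i := fun h => ha (σ.injective (h.trans hσ.symm))
    simp [move_apply, Function.update_of_ne ha, Function.update_of_ne this]

noncomputable def KM (μ : Perm (Fin d) → ℝ) (n : ℕ) (σ0 : Perm (Fin d)) (i0 : Fin d) :
    Op (St d n) := Kup (wt μ n) (upd σ0 i0)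

lemma KM_ind (h : Hyp μ) (hn : 0 < n) (hi : σ0 i0 ≠ i0) (M : Finset (Slot d n))
    (ρ : Perm (Slot d n)) (z : St d n) :
    KM μ n σ0 i0 (ind M ρ) z ≤ ∑ ω : Om d n, wt μ n ω * ind M ((mv ω)⁻¹ * ρ) z +
      ∑ b ∈ M, ∑ j : Fin d → Fin n,
        μ σ0 / n ^ d / n * (if j (σ0 i0) = (ρ b).2 then (1 : ℝ) else 0) *
          ind (M.erase b) ((move (σ0 * swap i0 (σ0⁻¹ i0)) j)⁻¹ * ρ) z := by
  have hn' : (0 : ℝ) < n := by exact_mod_cast hn
  rw [KM, Kup_apply]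
  refine (sum_le_sum fun ω _ => mul_le_mul_of_nonneg_left (ind_step M ρ ω z)
    (wt_nonneg h ω)).trans (le_of_eq ?_)
  simp only [mul_add, sum_add_distrib]
  congr 1
  simp only [mul_sum]
  rw [sum_comm]
  refine sum_congr rfl fun b _ => ?_
  rw [avg_fix σ0 fun j => if j i0 = (z.1 b).2 then (if j (σ0 i0) = (ρ b).2 then (1 : ℝ) else 0) *
    ind (M.erase b) ((move (σ0 * swap i0 (σ0⁻¹ i0)) j)⁻¹ * ρ) z else 0]
  have := sum_sel i0 (z.1 b).2 (fun j => (if j (σ0 i0) = (ρ b).2 then (1 : ℝ) else 0) *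
    ind (M.erase b) ((move (σ0 * swap i0 (σ0⁻¹ i0)) j)⁻¹ * ρ) z) fun x c => by
      simp only [Function.update_of_ne hi]
      rw [move_update (by simp)]
  simp only [mul_assoc]
  rw [← mul_sum, ← this]
  field_simp

noncomputable def al (N k : ℕ) : ℝ := k.factorial * ((N - k).factorial / N.factorial) ^ 2

lemma al_nonneg (N k : ℕ) : 0 ≤ al N k := by unfold al; positivity

lemma al_step {N k : ℕ} (hk : k + 1 ≤ N) : (k + 1) * al N k ≤ (N : ℝ) ^ 2 * al N (k + 1) := by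
  obtain ⟨m, rfl⟩ := Nat.exists_eq_add_of_le hk
  have e1 : k + 1 + m - k = m + 1 := by omega
  have e2 : k + 1 + m - (k + 1) = m := by omega
  rw [al, al, e1, e2, Nat.factorial_succ k, Nat.factorial_succ m]
  push_cast
  calc _ = ((m : ℝ) + 1) ^ 2 * ((k + 1) * k.factorial *
      (m.factorial / (k + 1 + m).factorial) ^ 2) := by ring
    _ ≤ _ := mul_le_mul_of_nonneg_right (pow_le_pow_left₀ (by positivity)
        (by linarith [(Nat.cast_nonneg k : (0 : ℝ) ≤ k)]) 2) (by positivity)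

lemma card_slot : Fintype.card (Slot d n) = d * n := by simp

lemma density (h : Hyp μ) (hn : 0 < n) (hi : σ0 i0 ≠ i0) (x : Perm (Slot d n)) (s : ℕ)
    (M : Finset (Slot d n)) (ρ : Perm (Slot d n)) :
    (KM μ n σ0 i0 ^ s) (ind M ρ) (x, ∅) ≤ (1 + (d : ℝ) ^ 2) ^ s * al (d * n) M.card := by
  have hn' : (0 : ℝ) < n := by exact_mod_cast hn
  have hK : Markov (KM μ n σ0 i0) := markov_Kup (wt_nonneg h) (wt_sum h hn) _
  induction s generalizing M ρ with
  | zero =>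
    rw [pow_zero, pow_zero, one_mul, one_apply_eq_self, ind]
    split_ifs with h1
    · rw [← h1.1, card_empty, al, Nat.sub_zero, div_self (by positivity)]; simp
    · exact al_nonneg _ _
  | succ s ih =>
    rw [pow_succ_apply]
    refine ((hK.pow s).mono _ _ (KM_ind h hn hi M ρ) _).trans ?_
    simp only [op_add, op_sum, op_cmul]
    set A := (1 + (d : ℝ) ^ 2) ^ s with hA
    have A0 : 0 ≤ A := by positivity
    have m1 : μ σ0 ≤ 1 := h.sum ▸ single_le_sum (f := μ) (fun σ _ => h.nonneg σ) (mem_univ σ0)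
    have m0 := h.nonneg σ0
    have h1 : ∑ ω : Om d n, wt μ n ω * (KM μ n σ0 i0 ^ s) (ind M ((mv ω)⁻¹ * ρ)) (x, ∅) ≤
        A * al (d * n) M.card := by
      refine (sum_le_sum fun ω _ => mul_le_mul_of_nonneg_left (ih _ _) (wt_nonneg h ω)).trans ?_
      rw [← sum_mul, wt_sum h hn, one_mul]
    have h2 : ∀ b ∈ M, ∑ j : Fin d → Fin n,
        μ σ0 / n ^ d / n * (if j (σ0 i0) = (ρ b).2 then (1 : ℝ) else 0) * (KM μ n σ0 i0 ^ s)
          (ind (M.erase b) ((move (σ0 * swap i0 (σ0⁻¹ i0)) j)⁻¹ * ρ)) (x, ∅) ≤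
        A * al (d * n) (M.card - 1) / n ^ 2 := by
      intro b hb
      refine (sum_le_sum fun j _ => mul_le_mul_of_nonneg_left (ih _ _)
        (mul_nonneg (by positivity) (by split_ifs <;> norm_num))).trans ?_
      rw [← sum_mul, ← mul_sum, card_erase_of_mem hb]
      have h3 := sel_one (σ0 i0) (ρ b).2
      generalize (∑ j : Fin d → Fin n, (if j (σ0 i0) = (ρ b).2 then (1 : ℝ) else 0)) = T at h3 ⊢
      have e : μ σ0 / n ^ d / n * T = μ σ0 / n ^ 2 := by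
        field_simp; rw [← h3]; ring
      rw [e, div_mul_eq_mul_div]
      have := al_nonneg (d * n) (M.card - 1)
      exact div_le_div_of_nonneg_right (mul_le_of_le_one_left (by positivity) m1) (by positivity)
    have h3 := sum_le_card_nsmul _ _ _ h2
    have h4 : M.card • (A * al (d * n) (M.card - 1) / n ^ 2) ≤ A * d ^ 2 * al (d * n) M.card := by
      have h5 : M.card ≤ d * n := card_slot ▸ card_le_univ M
      rcases hk : M.card with _ | k
      · have := al_nonneg (d * n) 0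
        rw [zero_smul]; positivity
      · have h6 := mul_le_mul_of_nonneg_left (al_step (hk ▸ h5)) A0
        rw [nsmul_eq_mul, Nat.add_sub_cancel, ← mul_div_assoc, div_le_iff₀ (by positivity)]
        push_cast at h6 ⊢
        linarith
    rw [pow_succ]
    linarith

lemma good_density (h : Hyp μ) (hn : 0 < n) (hi : σ0 i0 ≠ i0) (x y : Perm (Slot d n)) (s : ℕ)
    (T : ℝ) : (KM μ n σ0 i0 ^ s) (fun z => if z.1 = y ∧ (z.2ᶜ.card : ℝ) ≤ T then 1 else 0) (x, ∅) ≤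
      (1 + (d : ℝ) ^ 2) ^ s * (d * n + 1) * Real.exp (T * Real.log (d * n)) / (d * n).factorial := by
  have hK : Markov (KM μ n σ0 i0) := markov_Kup (wt_nonneg h) (wt_sum h hn) _
  have hN : 1 ≤ d * n := Nat.mul_pos (by have := h.two; omega) hn
  have hN' : (1 : ℝ) ≤ d * n := by exact_mod_cast hN
  have h1 : ∀ z : St d n, (if z.1 = y ∧ (z.2ᶜ.card : ℝ) ≤ T then (1 : ℝ) else 0) ≤
      ∑ M : Finset (Slot d n), (if ((d * n - M.card : ℕ) : ℝ) ≤ T then 1 else 0) * ind M y z := by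
    intro z
    have hs : ∀ M ∈ (univ : Finset (Finset (Slot d n))),
        0 ≤ (if ((d * n - M.card : ℕ) : ℝ) ≤ T then (1 : ℝ) else 0) * ind M y z := fun M _ =>
      mul_nonneg (by split_ifs <;> norm_num) (ind_nonneg _ _ _)
    split_ifs with h2
    · refine le_trans ?_ (single_le_sum hs (mem_univ z.2))
      rw [card_compl, card_slot] at h2
      simp [ind, h2.1, h2.2]
    · exact sum_nonneg hs
  refine ((hK.pow s).mono _ _ h1 _).trans ?_
  simp only [op_sum, op_cmul]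
  refine (sum_le_sum fun M _ => mul_le_mul_of_nonneg_left (density h hn hi x s M y)
    (by split_ifs <;> norm_num)).trans ?_
  set A := (1 + (d : ℝ) ^ 2) ^ s with hA
  have A0 : 0 ≤ A := by positivity
  rw [← powerset_univ, sum_powerset_apply_card
    fun k => (if ((d * n - k : ℕ) : ℝ) ≤ T then (1 : ℝ) else 0) * (A * al (d * n) k),
    card_univ, card_slot]
  refine (sum_le_card_nsmul _ _ (A * Real.exp (T * Real.log (d * n)) / (d * n).factorial)
    fun k hk => ?_).trans (le_of_eq (by simp; ring))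
  split_ifs with h2
  · have h3 : k ≤ d * n := Nat.lt_succ_iff.1 (mem_range.1 hk)
    have h4 : ((d * n - k).factorial : ℝ) ≤ Real.exp (T * Real.log (d * n)) := by
      calc ((d * n - k).factorial : ℝ) ≤ ((d * n - k : ℕ) : ℝ) ^ (d * n - k) := by
            exact_mod_cast Nat.factorial_le_pow _
        _ ≤ ((d : ℝ) * n) ^ (d * n - k) := by
            gcongr; exact_mod_cast Nat.sub_le _ _
        _ = Real.exp ((d * n - k : ℕ) * Real.log (d * n)) := by
            rw [Real.exp_nat_mul, Real.exp_log (by linarith)]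
        _ ≤ _ := by gcongr; exact Real.log_nonneg hN'
    have h5 : (((d * n).choose k : ℕ) : ℝ) * k.factorial * (d * n - k).factorial =
        (d * n).factorial := by exact_mod_cast Nat.choose_mul_factorial_mul_factorial h3
    rw [nsmul_eq_mul, al]
    calc _ = A * (d * n - k).factorial / (d * n).factorial * ((((d * n).choose k : ℕ) : ℝ) *
          k.factorial * (d * n - k).factorial / (d * n).factorial) := by ring
      _ = A * (d * n - k).factorial / (d * n).factorial := by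
          rw [h5, div_self (by positivity), mul_one]
      _ ≤ _ := by gcongr
  · rw [zero_mul, smul_zero]; positivity

lemma progress (h : Hyp μ) (h0 : 0 < μ σ0) (hi : σ0 i0 ≠ i0) : ∃ c C : ℝ, 0 < c ∧
    ∀ (n : ℕ) (T : ℝ), 2 ≤ n → 2 ≤ T → ∀ (x : Perm (Slot d n)) (s : ℕ),
      s * (c / n * (T ^ 2 / 2)) * (KM μ n σ0 i0 ^ s)
        (fun z => if (z.2ᶜ.card : ℝ) ≤ T then 0 else 1) (x, ∅) ≤ C * n ^ 2 := by
  have hi' : i0 ≠ σ0⁻¹ i0 := fun h1 => hi (by rw [Perm.eq_inv_iff_eq] at h1; exact h1)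
  obtain ⟨g, c, C, c0, C0, g0, g1, hg⟩ := pair h h0 hi'
  refine ⟨c, C * d + d ^ 2, c0, fun n T hn hT x s => ?_⟩
  have hn' : (2 : ℝ) ≤ n := by exact_mod_cast hn
  have hK : Markov (KM μ n σ0 i0) := markov_Kup (wt_nonneg h) (wt_sum h (by omega)) _
  have hsub : ∀ (ω : Om d n) (z : St d n), (upd σ0 i0 ω z).2ᶜ ⊆ z.2ᶜ := fun ω z => by
    rw [compl_subset_compl, upd]
    split_ifs
    · exact subset_insert _ _
    · exact Subset.rfl
  refine (lyap_bound hK (V := fun z => C * n * z.2ᶜ.card +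
    ∑ p ∈ z.2ᶜ.offDiag, (1 - g (z.1 p.1).1 (z.1 p.2).1)) (by positivity) (fun z => ?_)
    (fun z => ?_) (fun z => ?_) s _).trans ?_
  · exact add_nonneg (by positivity) (sum_nonneg fun p _ => sub_nonneg.2 (g1 _ _))
  · have h1 : ∀ ω : Om d n, C * n * (upd σ0 i0 ω z).2ᶜ.card +
        ∑ p ∈ (upd σ0 i0 ω z).2ᶜ.offDiag,
          (1 - g ((upd σ0 i0 ω z).1 p.1).1 ((upd σ0 i0 ω z).1 p.2).1) ≤
        C * n * z.2ᶜ.card + ∑ p ∈ z.2ᶜ.offDiag, (1 - (g (mv ω (z.1 p.1)).1 (mv ω (z.1 p.2)).1 +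
          C * n * (if ω.1 = σ0 then (if z.1 p.1 = (i0, ω.2 i0) ∧
            z.1 p.2 = (σ0⁻¹ i0, ω.2 (σ0⁻¹ i0)) then 1 else 0) else 0))) := by
      intro ω
      have a1 := sum_le_sum_of_subset_of_nonneg (offDiag_mono (hsub ω z))
        (f := fun p => 1 - g (mv ω (z.1 p.1)).1 (mv ω (z.1 p.2)).1)
        fun p _ _ => sub_nonneg.2 (g1 _ _)
      have a2 : ((upd σ0 i0 ω z).2ᶜ.card : ℝ) + ∑ p ∈ z.2ᶜ.offDiag,
          (if ω.1 = σ0 then (if z.1 p.1 = (i0, ω.2 i0) ∧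
            z.1 p.2 = (σ0⁻¹ i0, ω.2 (σ0⁻¹ i0)) then (1 : ℝ) else 0) else 0) ≤ z.2ᶜ.card := by
        by_cases a3 : hit σ0 i0 ω z
        · have a4 : (upd σ0 i0 ω z).2ᶜ.card + 1 = z.2ᶜ.card := by
            rw [upd, if_pos a3, compl_insert, card_erase_add_one (mem_compl.2 a3.2.1)]
          rw [← a4, Nat.cast_add_one]
          refine add_le_add le_rfl ((sum_le_sum (g := fun p => if p =
            (z.1⁻¹ (i0, ω.2 i0), z.1⁻¹ (σ0⁻¹ i0, ω.2 (σ0⁻¹ i0))) then 1 else 0)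
            fun p _ => ?_).trans ?_)
          · simp only [a3.1, if_true, Prod.ext_iff (x := p), Perm.eq_inv_iff_eq, le_refl]
          · rw [sum_ite_eq']; split_ifs <;> norm_num
        · rw [sum_eq_zero, add_zero, upd, if_neg a3]
          intro p hp
          rw [mem_offDiag, mem_compl, mem_compl] at hp
          split_ifs with a5 a6
          · exact absurd ⟨a5, by rw [← a6.1]; simpa using hp.1, by rw [← a6.2]; simpa using hp.2.1⟩ a3
          all_goals rfl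
      have a3 := mul_le_mul_of_nonneg_left a2 (show 0 ≤ C * n by positivity)
      simp only [← sub_sub, sum_sub_distrib, ← mul_sum] at a1 ⊢
      simp only [upd, Perm.mul_apply] at a1 a3 ⊢
      linarith
    rw [KM, Kup_apply]
    refine (sum_le_sum fun ω _ => mul_le_mul_of_nonneg_left (h1 ω) (wt_nonneg h ω)).trans ?_
    simp only [mul_add (wt μ n _) (C * n * _), sum_add_distrib, ← sum_mul, wt_sum h (by omega : 0 < n),
      mul_sum]
    rw [sum_comm]
    have h2 : ∀ p ∈ z.2ᶜ.offDiag, ∑ ω : Om d n, wt μ n ω *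
        (1 - (g (mv ω (z.1 p.1)).1 (mv ω (z.1 p.2)).1 +
          C * n * (if ω.1 = σ0 then (if z.1 p.1 = (i0, ω.2 i0) ∧
            z.1 p.2 = (σ0⁻¹ i0, ω.2 (σ0⁻¹ i0)) then 1 else 0) else 0))) ≤
        1 - g (z.1 p.1).1 (z.1 p.2).1 - c / n := by
      intro p hp
      have := hg n hn (z.1 p.1) (z.1 p.2) (z.1.injective.ne (mem_offDiag.1 hp).2.2)
      simp only [mul_sub, sum_sub_distrib, mul_one, wt_sum h (by omega : 0 < n)]
      linarith
    have h3 := sum_le_sum h2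
    rw [sum_sub_distrib (fun p : Slot d n × Slot d n => 1 - g (z.1 p.1).1 (z.1 p.2).1), sum_const,
      nsmul_eq_mul] at h3
    have h4 : T ^ 2 / 2 * (if (z.2ᶜ.card : ℝ) ≤ T then 0 else 1) ≤ z.2ᶜ.offDiag.card := by
      split_ifs with h5
      · simp
      · rw [offDiag_card, Nat.cast_sub (Nat.le_mul_self _)]
        push_cast
        nlinarith
    have h5 := mul_le_mul_of_nonneg_left h4 (show 0 ≤ c / n by positivity)
    linarith
  · rw [KM, Kup_apply]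
    refine (sum_le_sum fun ω _ => mul_le_mul_of_nonneg_left
      (c := if (z.2ᶜ.card : ℝ) ≤ T then 0 else 1) ?_ (wt_nonneg h ω)).trans ?_
    · have : ((upd σ0 i0 ω z).2ᶜ.card : ℝ) ≤ z.2ᶜ.card := by exact_mod_cast card_le_card (hsub ω z)
      split_ifs <;> linarith
    · rw [← sum_mul, wt_sum h (by omega), one_mul]
  · have h1 := sum_le_card_nsmul (univ : Finset (Slot d n)).offDiag
      (fun p => 1 - g (x p.1).1 (x p.2).1) 1 fun p _ => by linarith [g0 (x p.1).1 (x p.2).1]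
    have h2 : (((univ : Finset (Slot d n)).offDiag.card : ℕ) : ℝ) ≤ (d * n) * (d * n) := by
      rw [offDiag_card, card_univ, card_slot]; exact_mod_cast Nat.sub_le _ _
    simp only [compl_empty, card_univ, card_slot, nsmul_eq_mul, mul_one] at h1 ⊢
    push_cast
    linarith

end Mark

open Mark in
theorem marking (h : Hyp μ) {δ ε : ℝ} (hδ : 0 < δ) (hε : 0 < ε) :
    ∃ W : ℕ, ∀ᶠ n in atTop, ∀ x : Equiv.Perm (Slot d n),
      ∃ ν : Equiv.Perm (Slot d n) → ℝ, (∀ y, 0 ≤ ν y) ∧ ∑ y, ν y ≤ 1 ∧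
        (∀ y, ν y ≤ Real.exp (δ * n * Real.log n) / (d * n).factorial) ∧
        ∀ Ψ : Equiv.Perm (Slot d n) → ℝ, (∀ y, |Ψ y| ≤ 1) →
          |(KX μ n ^ (W * n)) Ψ x - ∑ y, ν y * Ψ y| ≤ ε := by
  obtain ⟨σ0, i0, h0, hi⟩ := exists_mover h
  obtain ⟨c, C, c0, hc⟩ := progress h h0 hi
  obtain ⟨W, hW⟩ := exists_nat_gt (max 0 (C / (c * (δ / 2) ^ 2 / 2 * ε)))
  have W0 : (0 : ℝ) < W := (le_max_left _ _).trans_lt hW
  have W1 : C ≤ W * (c * (δ / 2) ^ 2 / 2 * ε) :=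
    ((div_lt_iff₀ (by positivity)).1 ((le_max_right _ _).trans_lt hW)).le
  refine ⟨W, ?_⟩
  have t1 : Tendsto (fun n : ℕ => δ / 2 * (n : ℝ)) atTop atTop :=
    tendsto_natCast_atTop_atTop.const_mul_atTop (by positivity)
  have t2 : Tendsto (fun n : ℕ => δ / 2 * Real.log n) atTop atTop :=
    (Real.tendsto_log_atTop.comp tendsto_natCast_atTop_atTop).const_mul_atTop (by positivity)
  filter_upwards [eventually_ge_atTop 2, t1.eventually_ge_atTop 2,
    t2.eventually_ge_atTop (d + d ^ 2 * W + δ / 2 * d)] with n hn h1 h2 x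
  have hn' : (2 : ℝ) ≤ n := by exact_mod_cast hn
  have hd : (2 : ℝ) ≤ d := by exact_mod_cast h.two
  have hK : Markov (KM μ n σ0 i0 ^ (W * n)) :=
    (markov_Kup (wt_nonneg h) (wt_sum h (by omega)) _).pow _
  have key : ∀ Ψ : Perm (Slot d n) → ℝ, ∑ y, (KM μ n σ0 i0 ^ (W * n))
      (fun z => if z.1 = y ∧ (z.2ᶜ.card : ℝ) ≤ δ / 2 * n then 1 else 0) (x, ∅) * Ψ y =
      (KM μ n σ0 i0 ^ (W * n))
        (fun z => if (z.2ᶜ.card : ℝ) ≤ δ / 2 * n then Ψ z.1 else 0) (x, ∅) := by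
    intro Ψ
    simp only [mul_comm _ (Ψ _), ← op_cmul]
    rw [← op_sum]
    refine congrFun (congrArg _ (funext fun z => ?_)) _
    by_cases h3 : (z.2ᶜ.card : ℝ) ≤ δ / 2 * n <;> simp [h3]
  refine ⟨fun y => (KM μ n σ0 i0 ^ (W * n))
    (fun z => if z.1 = y ∧ (z.2ᶜ.card : ℝ) ≤ δ / 2 * n then 1 else 0) (x, ∅),
    fun y => hK.nonneg (fun z => by split_ifs <;> norm_num) _, ?_, fun y => ?_, fun Ψ hΨ => ?_⟩
  · have := key fun _ => 1
    simp only [mul_one] at this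
    rw [this]
    exact hK.le_const (fun z => by split_ifs <;> norm_num) _
  · refine (good_density h (by omega) hi x y _ _).trans ?_
    gcongr
    have a1 : (1 + (d : ℝ) ^ 2) ^ (W * n) ≤ Real.exp (d ^ 2 * W * n) := by
      calc _ ≤ Real.exp (d ^ 2) ^ (W * n) := by
            gcongr; linarith [Real.add_one_le_exp ((d : ℝ) ^ 2)]
        _ = _ := by rw [← Real.exp_nat_mul]; push_cast; ring_nf
    have a2 := Real.add_one_le_exp ((d : ℝ) * n)
    have a3 : Real.log (d * n) ≤ d + Real.log n := by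
      rw [Real.log_mul (by positivity) (by positivity)]
      linarith [Real.log_le_sub_one_of_pos (show (0 : ℝ) < d by linarith)]
    calc _ ≤ Real.exp (d ^ 2 * W * n) * Real.exp (d * n) *
          Real.exp (δ / 2 * n * (d + Real.log n)) := by gcongr
      _ ≤ _ := by
          rw [← Real.exp_add, ← Real.exp_add]
          gcongr
          nlinarith [mul_le_mul_of_nonneg_right h2 (show (0 : ℝ) ≤ n by linarith)]
  · have a1 := congrFun (pow_comp (K := KM μ n σ0 i0) (K' := KX μ n) (ρ := Prod.fst)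
      (Kup_comp _ fun _ _ => rfl) (W * n) Ψ) (x, ∅)
    rw [key, ← a1, ← op_sub]
    have a2 := hc n _ hn h1 x (W * n)
    have a3 : (KM μ n σ0 i0 ^ (W * n))
        (fun z => if (z.2ᶜ.card : ℝ) ≤ δ / 2 * n then 0 else 1) (x, ∅) ≤ ε := by
      have : (0 : ℝ) < n := by linarith
      refine le_of_mul_le_mul_left (a2.trans ?_) (by push_cast; positivity)
      calc C * n ^ 2 ≤ W * (c * (δ / 2) ^ 2 / 2 * ε) * n ^ 2 := by gcongr
        _ = _ := by push_cast; field_simp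
    rw [abs_le]
    constructor
    · have := hK.mono (fun z => -1 * if (z.2ᶜ.card : ℝ) ≤ δ / 2 * n then 0 else 1)
        (fun z => Ψ z.1 - if (z.2ᶜ.card : ℝ) ≤ δ / 2 * n then Ψ z.1 else 0)
        (fun z => by split_ifs <;> simp [(abs_le.1 (hΨ _)).1]) (x, ∅)
      rw [op_cmul] at this
      linarith
    · exact (hK.mono _ _ (fun z => by split_ifs <;> simp [(abs_le.1 (hΨ _)).2]) (x, ∅)).trans a3

end Pool.Agent.P.MP_c47a54_pr
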