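import Pool.Agent.P.MP_c47a54_pr.LowX

namespace Pool.Agent.P.MP_c47a54_pr

open Filter Finset Matrix

namespace ProdY

section prod

variable {B S : Type} [Fintype B] [DecidableEq B] [Fintype S]

lemma sum_prod (p : B → S → ℝ) : ∑ y : B → S, ∏ b, p b (y b) = ∏ b, ∑ c, p b c := by
  rw [prod_univ_sum, Fintype.piFinset_univ]

lemma prod_sq (p g : B → S → ℝ) (hp : ∀ b, ∑ c, p b c = 1) (hg : ∀ b, ∑ c, p b c * g b c = 0) :
    ∑ y : B → S, (∏ b, p b (y b)) * (∑ b, g b (y b)) ^ 2 = ∑ b, ∑ c, p b c * g b c ^ 2 := by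
  have key : ∀ b b', ∑ y : B → S, (∏ e, p e (y e)) * (g b (y b) * g b' (y b')) =
      if b' = b then ∑ c, p b c * g b c ^ 2 else 0 := by
    intro b b'
    have e : ∀ y : B → S, (∏ e, p e (y e)) * (g b (y b) * g b' (y b')) =
        ∏ e, (p e (y e) * ((if e = b then g b (y e) else 1) * if e = b' then g b' (y e) else 1)) := by
      intro y
      rw [prod_mul_distrib, prod_mul_distrib, prod_ite_eq', prod_ite_eq']
      simp
    simp only [e]
    rw [sum_prod fun e c => p e c * ((if e = b then g b c else 1) * if e = b' then g b' c else 1)]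
    split_ifs with hb
    · subst hb
      rw [prod_eq_single b']
      · simp [sq]
      · intro e _ he
        simp [he, hp]
      · simp
    · refine prod_eq_zero (mem_univ b) ?_
      simp [Ne.symm hb, hg]
  simp only [sq (∑ b, g b _), sum_mul_sum]
  simp only [mul_sum]
  rw [sum_comm]
  refine sum_congr rfl fun b _ => ?_
  rw [sum_comm]
  simp [key]

lemma prod_var (p f : B → S → ℝ) (hp : ∀ b, ∑ c, p b c = 1) :
    ∑ y : B → S, (∏ b, p b (y b)) * (∑ b, f b (y b) - ∑ b, ∑ c, p b c * f b c) ^ 2 ≤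
      ∑ b, ∑ c, p b c * f b c ^ 2 := by
  simp only [← sum_sub_distrib]
  rw [prod_sq p (fun b c => f b c - ∑ c, p b c * f b c) hp fun b => by
    simp only [mul_sub, sum_sub_distrib, ← sum_mul, hp, one_mul, sub_self]]
  refine sum_le_sum fun b _ => ?_
  set a := ∑ c, p b c * f b c with ha
  have : ∑ c, p b c * (f b c - a) ^ 2 =
      ∑ c, p b c * f b c ^ 2 - 2 * a * ∑ c, p b c * f b c + a ^ 2 * ∑ c, p b c := by
    simp only [mul_sum, ← sum_sub_distrib, ← sum_add_distrib]
    exact sum_congr rfl fun c _ => by ring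
  rw [this, ← ha, hp]
  nlinarith [sq_nonneg a]

lemma tv_prod_ge [DecidableEq S] [Nonempty S] (p f : B → S → ℝ) (h0 : ∀ b c, 0 ≤ p b c)
    (hp : ∀ b, ∑ c, p b c = 1) (hf : ∀ b, ∑ c, f b c = 0) {m V : ℝ} (hm : 0 < m)
    (h1 : ∑ b, ∑ c, p b c * f b c = m)
    (h2 : ∀ r : B → S → ℝ, (∀ b c, 0 ≤ r b c) → (∀ b, ∑ c, r b c = 1) →
      ∑ b, ∑ c, r b c * f b c ≤ m → ∑ b, ∑ c, r b c * f b c ^ 2 ≤ V) :
    1 - 8 * V / m ^ 2 ≤ tv (fun y : B → S => ∏ b, p b (y b)) univ := by
  have hN : (0 : ℝ) < Fintype.card S := by exact_mod_cast Fintype.card_pos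
  set φ : (B → S) → ℝ := fun y => if m / 2 ≤ ∑ b, f b (y b) then 1 else 0 with hφ
  have hs : ∑ y : B → S, ∏ b, p b (y b) = 1 := by rw [sum_prod]; simp [hp]
  have h3 := LowX.tv_ge _ hs univ univ_nonempty φ
    (fun y => by simp only [hφ]; split_ifs <;> norm_num)
    (fun y => by simp only [hφ]; split_ifs <;> norm_num)
  refine le_trans ?_ h3
  have h4 := prod_var p f hp
  rw [h1] at h4
  have h5 : 1 - 4 / m ^ 2 * V ≤ ∑ y, φ y * ∏ b, p b (y b) := by
    have h6 : ∑ y : B → S, (1 - 4 / m ^ 2 * (∑ b, f b (y b) - m) ^ 2) * ∏ b, p b (y b) ≤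
        ∑ y, φ y * ∏ b, p b (y b) := sum_le_sum fun y _ =>
      mul_le_mul_of_nonneg_right (LowX.cheb_pt hm) (prod_nonneg fun b _ => h0 _ _)
    refine le_trans ?_ h6
    simp only [sub_mul, one_mul, sum_sub_distrib, hs, mul_assoc, ← mul_sum]
    simp only [mul_comm _ (∏ b, p b _)]
    have := mul_le_mul_of_nonneg_left (h4.trans (h2 p h0 hp h1.le))
      (by positivity : 0 ≤ 4 / m ^ 2)
    linarith
  have h6 : (∑ y, φ y) / ((univ : Finset (B → S)).card : ℝ) ≤ 4 / m ^ 2 * V := by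
    set r : B → S → ℝ := fun _ _ => (Fintype.card S : ℝ)⁻¹ with hr
    have hr1 : ∀ b, ∑ c, r b c = 1 := fun b => by simp [hr, hN.ne']
    have hr2 : ∑ b, ∑ c, r b c * f b c = 0 := by simp [hr, ← mul_sum, hf]
    have h7 := (prod_var r f hr1).trans (h2 r (fun _ _ => by positivity) hr1 (hr2.le.trans hm.le))
    rw [hr2] at h7
    refine le_trans ?_ (mul_le_mul_of_nonneg_left h7 (by positivity))
    rw [sum_div, mul_sum]
    refine sum_le_sum fun y _ => ?_
    have e : ∏ b, r b (y b) = (((univ : Finset (B → S)).card : ℝ))⁻¹ := by simp [hr]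
    rw [e, div_eq_inv_mul, mul_left_comm]
    refine mul_le_mul_of_nonneg_left ?_ (by positivity)
    simp only [hφ, sub_zero]
    split_ifs with h8
    · rw [div_mul_eq_mul_div, le_div_iff₀ (by positivity)]; nlinarith
    · positivity
  have e : 8 * V / m ^ 2 = 4 / m ^ 2 * V + 4 / m ^ 2 * V := by ring
  rw [e]
  linarith

lemma tv_prod_le [DecidableEq S] [Nonempty S] (p : B → S → ℝ) (hp : ∀ b, ∑ c, p b c = 1) {χ : ℝ}
    (h : ∀ b, Fintype.card S * ∑ c, (p b c - 1 / Fintype.card S) ^ 2 ≤ χ) :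
    (2 * tv (fun y : B → S => ∏ b, p b (y b)) univ) ^ 2 ≤ Real.exp (Fintype.card B * χ) - 1 := by
  have gen : ∀ {T : Type} [Fintype T] [Nonempty T] (r : T → ℝ), ∑ c, r c = 1 →
      Fintype.card T * ∑ c, (r c - 1 / Fintype.card T) ^ 2 = Fintype.card T * ∑ c, r c ^ 2 - 1 := by
    intro T _ _ r hr
    have hN : (0 : ℝ) < Fintype.card T := by exact_mod_cast Fintype.card_pos
    simp only [sub_sq, sum_add_distrib, sum_sub_distrib, ← sum_mul, ← mul_sum, hr, sum_const,
      card_univ, nsmul_eq_mul]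
    field_simp
    ring
  have hs : ∑ y : B → S, ∏ b, p b (y b) = 1 := by rw [sum_prod]; simp [hp]
  have h1 := gen _ hs
  have h2 := sum_mul_sq_le_sq_mul_sq univ (fun _ : B → S => (1 : ℝ))
    fun y => |∏ b, p b (y b) - 1 / Fintype.card (B → S)|
  simp only [one_mul, one_pow, sum_const, card_univ, nsmul_eq_mul, mul_one, sq_abs] at h2
  rw [h1] at h2
  have e : 2 * tv (fun y : B → S => ∏ b, p b (y b)) univ =
      ∑ y : B → S, |∏ b, p b (y b) - 1 / Fintype.card (B → S)| := by
    simp only [tv, mem_univ, if_true, card_univ]; ring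
  rw [e]
  refine h2.trans (sub_le_sub_right ?_ 1)
  simp only [← prod_pow]
  rw [sum_prod fun b c => p b c ^ 2, Fintype.card_fun, Nat.cast_pow, ← card_univ (α := B),
    ← prod_const, ← prod_mul_distrib, ← nsmul_eq_mul, ← sum_const, Real.exp_sum]
  refine prod_le_prod (fun b _ => by positivity) fun b _ => ?_
  have := h b
  rw [gen _ (hp b)] at this
  linarith [Real.add_one_le_exp χ]

end prod

variable {d n : ℕ} {μ : Equiv.Perm (Fin d) → ℝ}

lemma jumpBall_eq (v w : Slot d n) : jumpBall μ n v w = urnMat μ v.1 w.1 *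
    (if w.1 = v.1 then (if w.2 = v.2 then 1 else 0) else 1 / (n : ℝ)) := by
  rw [jumpBall, urnMat, sum_mul]
  refine sum_congr rfl fun σ _ => ?_
  by_cases h : σ v.1 = w.1
  · rw [if_pos h, if_pos h, h]
  · rw [if_neg h, if_neg h, zero_mul]

lemma JB_apply (φ : Slot d n → ℝ) (v : Slot d n) : opM (jumpBall μ n) φ v =
    urnMat μ v.1 v.1 * (φ v - (∑ a, φ (v.1, a)) / n) +
      ∑ j, urnMat μ v.1 j * ((∑ a, φ (j, a)) / n) := by
  rw [opM_apply, mulVec, dotProduct, Fintype.sum_prod_type]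
  have e : ∀ j, ∑ a, jumpBall μ n v (j, a) * φ (j, a) =
      (if j = v.1 then urnMat μ v.1 v.1 * (φ v - (∑ a, φ (v.1, a)) / n) else 0) +
        urnMat μ v.1 j * ((∑ a, φ (j, a)) / n) := by
    intro j
    simp only [jumpBall_eq, mul_assoc, ← mul_sum]
    split_ifs with hj
    · subst hj
      simp only [ite_mul, one_mul, zero_mul, sum_ite_eq', mem_univ, if_true]
      ring
    · rw [← mul_sum]; ring
  simp only [e, sum_add_distrib, sum_ite_eq', mem_univ, if_true]

lemma JB_fst (hn : 0 < n) (φ : Fin d → ℝ) :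
    opM (jumpBall μ n) (fun c => φ c.1) = fun c => opM (urnMat μ) φ c.1 := by
  have hn' : (n : ℝ) ≠ 0 := by positivity
  funext c
  rw [JB_apply, opM_apply]
  simp [mulVec, dotProduct, hn']

lemma markov_JB (h : Hyp μ) (hn : 0 < n) : Markov (opM (jumpBall μ n)) := by
  refine ⟨fun φ ψ hle x => ?_, fun c x => ?_⟩
  · refine sum_le_sum fun y _ => mul_le_mul_of_nonneg_left (hle y) ?_
    change 0 ≤ jumpBall μ n x y
    rw [jumpBall_eq]
    refine mul_nonneg (urn_nonneg h _ _) ?_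
    split_ifs <;> positivity
  · have := congrFun (JB_fst (μ := μ) hn fun _ => c) x
    rw [this, opM_apply]
    simp [mulVec, dotProduct, ← sum_mul, urn_row h]

lemma heat_sum {S : Type} [Fintype S] [DecidableEq S] (A : Matrix S S ℝ) (s : ℝ) (x : S)
    (φ : S → ℝ) : ∑ c, heat A s x c * φ c = Pt (opM A) s φ x := by
  rw [op_eq_sum (Pt (opM A) s) φ x]
  exact sum_congr rfl fun c _ => by rw [heat_eq, mul_comm]

lemma heat_nonneg (h : Hyp μ) (hn : 0 < n) {s : ℝ} (hs : 0 ≤ s) (x c : Slot d n) :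
    0 ≤ heat (jumpBall μ n) s x c := by
  rw [heat_eq]
  exact ((markov_JB h hn).pt hs).nonneg (fun z => by split_ifs <;> norm_num) x

lemma heat_one (h : Hyp μ) (hn : 0 < n) {s : ℝ} (hs : 0 ≤ s) (x : Slot d n) :
    ∑ c, heat (jumpBall μ n) s x c = 1 := by
  have := heat_sum (jumpBall μ n) s x fun _ => 1
  rw [((markov_JB h hn).pt hs).const] at this
  simpa using this

/-- the centred indicator of a slot inside its urn -/
noncomputable def ind (y c : Slot d n) : ℝ :=
  (if c = y then 1 else 0) - (if c.1 = y.1 then 1 / (n : ℝ) else 0)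

lemma sum_ind (hn : 0 < n) (y : Slot d n) (j : Fin d) : ∑ a, ind y (j, a) = 0 := by
  have hn' : (n : ℝ) ≠ 0 := by positivity
  obtain ⟨i, b⟩ := y
  by_cases hj : j = i <;> simp [ind, hj, hn']

lemma Pt_ind (hn : 0 < n) (s : ℝ) (y x : Slot d n) :
    Pt (opM (jumpBall μ n)) s (ind y) x = Real.exp (-((1 - urnMat μ y.1 y.1) * s)) * ind y x := by
  rw [Pt_eigen _ (l := urnMat μ y.1 y.1) (fun c => ?_) s x]
  · congr 2; ring
  · rw [JB_apply]
    simp only [sum_ind hn, zero_div, mul_zero, sum_const_zero, add_zero, sub_zero]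
    by_cases hc : c.1 = y.1
    · rw [hc]
    · have : c ≠ y := fun e => hc (e ▸ rfl)
      simp [ind, hc, this]

lemma heat_ball (h : Hyp μ) (hn : 0 < n) {s : ℝ} (hs : 0 ≤ s) (x y : Slot d n) :
    heat (jumpBall μ n) s x y - 1 / (d * n) =
      Real.exp (-((1 - urnMat μ y.1 y.1) * s)) * ind y x +
        1 / n * Pt (opM (urnMat μ)) s (fun i => (if i = y.1 then 1 else 0) - 1 / d) x.1 := by
  have e : (fun z => if z = y then (1 : ℝ) else 0) = fun z => ind y z +
      1 / n * ((if z.1 = y.1 then 1 else 0) - 1 / d) + 1 / (d * n) := by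
    funext z
    simp only [ind]
    by_cases hz : z.1 = y.1
    · simp only [hz, if_true]; ring
    · simp only [hz, if_false]; ring
  rw [heat_eq, e, op_add, op_add, op_cmul, ((markov_JB h hn).pt hs).const, ← Pt_ind hn,
    Pt_comp (JB_fst hn) s (fun i => (if i = y.1 then 1 else 0) - 1 / d) x]
  ring

lemma urn_decay (h : Hyp μ) {g : ℝ} (hg : g < specGap μ) : ∃ κ : ℝ, 0 ≤ κ ∧ ∀ s, 0 ≤ s → ∀ i j,
    Pt (opM (urnMat μ)) s (fun i => (if i = j then 1 else 0) - 1 / d) i ^ 2 ≤
      κ * Real.exp (-(2 * g * s)) := by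
  obtain ⟨κ, R, h1, h2, h3⟩ := lyap h hg
  have hd : (0 : ℝ) < d := by exact_mod_cast (by linarith [h.two] : 0 < d)
  let W : Submodule ℝ (Fin d → ℝ) := LinearMap.ker (∑ i, LinearMap.proj i : (Fin d → ℝ) →ₗ[ℝ] ℝ)
  have hW : ∀ w, w ∈ W ↔ ∑ i, w i = 0 := fun w => by simp [W]
  have key : ∀ u v : Fin d → ℝ, u ⬝ᵥ (Rᵀ * R) *ᵥ v = R *ᵥ u ⬝ᵥ R *ᵥ v := fun u v => by
    rw [← mulVec_mulVec, dotProduct_mulVec, vecMul_transpose]
  refine ⟨max κ 0, le_max_right _ _, fun s hs i j => ?_⟩
  set u : Fin d → ℝ := fun i => (if i = j then 1 else 0) - 1 / d with hu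
  have h4 := decay (K := opM (urnMat μ)) (W := W) (M := Rᵀ * R) (β := g) (fun w hw => by
      rw [hW] at hw ⊢
      simp only [opM_apply, mulVec, dotProduct]
      rw [sum_comm]
      simp [← sum_mul, urn_col h, hw]) (isSymm_transpose_mul_self R) (fun w hw => by
      have := h3 w ((hW w).1 hw)
      rw [mulVec_sub, dotProduct_sub] at this
      rw [key, key, opM_apply]
      linarith) hs (w := u) ((hW u).2 (by simp [hu, hd.ne']))
  rw [key, key] at h4
  have h5 : u ⬝ᵥ u ≤ 1 := by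
    have e : u ⬝ᵥ u = 1 - 1 / d := by
      have : ∀ i, u i * u i = (if i = j then 1 - 2 / (d : ℝ) else 0) + 1 / d ^ 2 := by
        intro i
        simp only [hu]
        split_ifs <;> ring
      simp only [dotProduct, this, sum_add_distrib, sum_ite_eq', mem_univ, if_true, sum_const,
        card_univ, Fintype.card_fin, nsmul_eq_mul]
      field_simp
      ring
    rw [e]
    have : 0 ≤ 1 / (d : ℝ) := by positivity
    linarith
  have h6 : R *ᵥ u ⬝ᵥ R *ᵥ u ≤ max κ 0 := by
    refine (h2 u).trans ((mul_le_mul_of_nonneg_right (le_max_left κ 0) ?_).trans ?_)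
    · exact sum_nonneg fun _ _ => mul_self_nonneg _
    · exact mul_le_of_le_one_right (le_max_right _ _) h5
  have h7 : Pt (opM (urnMat μ)) s u i ^ 2 ≤ Pt (opM (urnMat μ)) s u ⬝ᵥ Pt (opM (urnMat μ)) s u := by
    rw [sq]
    exact single_le_sum (f := fun i => Pt (opM (urnMat μ)) s u i * Pt (opM (urnMat μ)) s u i)
      (fun _ _ => mul_self_nonneg _) (mem_univ i)
  refine h7.trans ((h1 _).trans (h4.trans ?_))
  rw [mul_comm]
  exact mul_le_mul_of_nonneg_right h6 (Real.exp_pos _).le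

lemma chi_ball (h : Hyp μ) (hn : 0 < n) {s κ g : ℝ} (hs : 0 ≤ s)
    (hκ : ∀ i j, Pt (opM (urnMat μ)) s (fun i => (if i = j then 1 else 0) - 1 / d) i ^ 2 ≤
      κ * Real.exp (-(2 * g * s))) (x : Slot d n) :
    ∑ y, (heat (jumpBall μ n) s x y - 1 / (d * n)) ^ 2 ≤
      4 * Real.exp (-(2 * holdGap μ * s)) + 2 * d * κ * Real.exp (-(2 * g * s)) / n := by
  have hn' : (0 : ℝ) < n := by exact_mod_cast hn
  have hn1 : (1 : ℝ) ≤ n := by exact_mod_cast hn
  have h1 : ∀ y, (heat (jumpBall μ n) s x y - 1 / (d * n)) ^ 2 ≤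
      2 * Real.exp (-(2 * holdGap μ * s)) *
        ((if x = y then 1 else 0) + if x.1 = y.1 then 1 / (n : ℝ) else 0) +
        2 * κ * Real.exp (-(2 * g * s)) / n ^ 2 := by
    intro y
    rw [heat_ball h hn hs]
    have a1 : Real.exp (-((1 - urnMat μ y.1 y.1) * s)) ^ 2 ≤ Real.exp (-(2 * holdGap μ * s)) := by
      rw [← Real.exp_nat_mul, Real.exp_le_exp]
      have := mul_le_mul_of_nonneg_right (holdGap_le (μ := μ) y.1) hs
      push_cast
      linarith
    have a2 : ind y x ^ 2 ≤ (if x = y then 1 else 0) + if x.1 = y.1 then 1 / (n : ℝ) else 0 := by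
      have b1 : 0 < 1 / (n : ℝ) := by positivity
      have b2 : 1 / (n : ℝ) ≤ 1 := by rw [div_le_one hn']; exact hn1
      simp only [ind]
      split_ifs <;> nlinarith
    have a3 := mul_le_mul a1 a2 (sq_nonneg _) (Real.exp_pos _).le
    have a4 := mul_le_mul_of_nonneg_left (hκ x.1 y.1) (by positivity : 0 ≤ (1 / (n : ℝ)) ^ 2)
    rw [← mul_pow] at a3 a4
    have e : 2 * κ * Real.exp (-(2 * g * s)) / n ^ 2 =
        2 * ((1 / (n : ℝ)) ^ 2 * (κ * Real.exp (-(2 * g * s)))) := by ring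
    rw [e]
    nlinarith [sq_nonneg (Real.exp (-((1 - urnMat μ y.1 y.1) * s)) * ind y x -
      1 / n * Pt (opM (urnMat μ)) s (fun i => (if i = y.1 then 1 else 0) - 1 / d) x.1)]
  refine (sum_le_sum fun y _ => h1 y).trans (le_of_eq ?_)
  have e : ∑ y : Slot d n, (if x.1 = y.1 then 1 / (n : ℝ) else 0) = 1 := by
    rw [Fintype.sum_prod_type, sum_comm]
    simp [hn'.ne']
  rw [sum_add_distrib, ← mul_sum, sum_add_distrib, e]
  simp only [sum_ite_eq, mem_univ, if_true, sum_const, card_univ, LowX.card_slot, nsmul_eq_mul]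
  push_cast
  field_simp
  ring

lemma q_part (h : Hyp μ) (hn : 2 ≤ n) (i : Fin d) {t : ℝ} (ht : 0 ≤ t)
    (h2 : 2 ≤ n * Real.exp (-((1 - urnMat μ i i) * t / n))) :
    1 - 48 / (n * Real.exp (-((1 - urnMat μ i i) * t / n))) ≤ tv (heatY μ n t id) univ := by
  have hn0 : 0 < n := by omega
  have hn' : (2 : ℝ) ≤ n := by exact_mod_cast hn
  have : Nonempty (Slot d n) := ⟨(i, ⟨0, hn0⟩)⟩
  have hs : 0 ≤ t / n := by positivity
  set E := Real.exp (-((1 - urnMat μ i i) * t / n)) with hE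
  have hE0 : 0 < E := Real.exp_pos _
  have hsum : ∀ c : ℝ, ∑ b : Slot d n, (if b.1 = i then c else 0) = n * c := fun c => by
    rw [Fintype.sum_prod_type, sum_comm]; simp
  have h3 := tv_prod_ge (fun b c => heat (jumpBall μ n) (t / n) b c)
    (fun b c => if b.1 = i then ind b c else 0) (heat_nonneg h hn0 hs) (heat_one h hn0 hs)
    (fun b => by
      split_ifs
      · rw [Fintype.sum_prod_type]; simp [sum_ind hn0]
      · simp) (m := (n - 1) * E) (V := (n - 1) * E + 2) (by nlinarith) (by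
      have e : ∀ b : Slot d n, ∑ c, heat (jumpBall μ n) (t / n) b c *
          (if b.1 = i then ind b c else 0) = if b.1 = i then E * (1 - 1 / n) else 0 := by
        intro b
        split_ifs with hb
        · rw [heat_sum, Pt_ind hn0, hb, hE, mul_div_assoc]
          simp [ind]
        · simp
      simp only [e, hsum]
      field_simp) (fun r r0 r1 r2 => by
      have e : ∀ b : Slot d n, ∑ c, r b c * (if b.1 = i then ind b c else 0) ^ 2 ≤
          ∑ c, r b c * (if b.1 = i then ind b c else 0) + if b.1 = i then 2 / (n : ℝ) else 0 := by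
        intro b
        split_ifs with hb
        · rw [← one_mul (2 / (n : ℝ)), ← r1 b, sum_mul, ← sum_add_distrib]
          refine sum_le_sum fun c _ => ?_
          rw [← mul_add]
          refine mul_le_mul_of_nonneg_left ?_ (r0 _ _)
          have b1 : 0 < 1 / (n : ℝ) := by positivity
          have b2 : 1 / (n : ℝ) ≤ 1 := by rw [div_le_one (by linarith)]; linarith
          have b3 : 2 / (n : ℝ) = 2 * (1 / n) := by ring
          simp only [ind, b3]
          split_ifs <;> nlinarith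
        · simp
      refine (sum_le_sum fun b _ => e b).trans ?_
      rw [sum_add_distrib, hsum]
      have : (n : ℝ) * (2 / n) = 2 := by field_simp
      linarith)
  refine le_trans (sub_le_sub_left ?_ 1) h3
  have h4 : n * E ≤ 2 * ((n - 1) * E) := by nlinarith
  have h5 : 0 < (n - 1) * E := by nlinarith
  rw [div_le_div_iff₀ (by positivity) (by positivity)]
  nlinarith

lemma g_part (h : Hyp μ) (hn : 0 < n) {l : ℂ} {v : Fin d → ℂ} (hv0 : v ≠ 0) (hv1 : ∑ i, v i = 0)
    (hv : ∀ i, ∑ j, (urnMat μ i j : ℂ) * v j = l * v i) {t : ℝ} (ht : 0 ≤ t) :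
    1 - 8 / (n * Real.exp (-(2 * (1 - l.re) * t / n))) ≤ tv (heatY μ n t id) univ := by
  have hn' : (0 : ℝ) < n := by exact_mod_cast hn
  have : Nonempty (Slot d n) := ⟨(⟨0, by linarith [h.two]⟩, ⟨0, hn⟩)⟩
  have hs : 0 ≤ t / n := by positivity
  set V : ℝ := ∑ i, ‖v i‖ ^ 2 with hV
  have hle : ∀ i, ‖v i‖ ^ 2 ≤ V := fun i =>
    single_le_sum (f := fun i => ‖v i‖ ^ 2) (fun _ _ => by positivity) (mem_univ i)
  have hV0 : 0 < V := by
    obtain ⟨i, hi⟩ := Function.ne_iff.1 hv0
    exact lt_of_lt_of_le (pow_pos (norm_pos_iff.2 hi) 2) (hle i)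
  set E : ℝ := Real.exp (-((1 - l.re) * (t / n))) with hE
  have hE0 : 0 < E := Real.exp_pos _
  set θ : ℂ := Complex.exp (-((t / n * l.im : ℝ) * Complex.I)) with hθ
  have hθ1 : ‖θ‖ = 1 := by
    rw [hθ, ← neg_mul, ← Complex.ofReal_neg, Complex.norm_exp_ofReal_mul_I]
  have e2 : Complex.exp ((t / n : ℝ) * (l - 1)) * θ = (E : ℂ) := by
    rw [hθ, ← Complex.exp_add, hE, Complex.ofReal_exp]
    congr 1
    conv_lhs => rw [← Complex.re_add_im l]
    simp only [Complex.add_im, Complex.ofReal_im, Complex.mul_im, Complex.ofReal_re,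
      Complex.I_im, Complex.I_re]
    push_cast
    ring
  have hsum : ∀ c : ℝ, ∑ b : Slot d n, c * ‖v b.1‖ ^ 2 = n * c * V := fun c => by
    rw [Fintype.sum_prod_type, sum_comm]
    simp [hV, mul_sum, mul_assoc]
  have heig : ∀ (a : ℂ) i, ∑ j, (urnMat μ i j : ℂ) * (a * v j) = l * (a * v i) := fun a i => by
    rw [mul_left_comm, ← hv, mul_sum]
    exact sum_congr rfl fun j _ => by ring
  have h3 := tv_prod_ge (fun b c => heat (jumpBall μ n) (t / n) b c)
    (fun b c => (θ * (starRingEnd ℂ) (v b.1) * v c.1).re) (heat_nonneg h hn hs) (heat_one h hn hs)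
    (fun b => by
      rw [← Complex.re_sum, ← mul_sum, Fintype.sum_prod_type, sum_comm]
      simp [hv1]) (m := n * E * V) (V := n * V * V) (by positivity) (by
      rw [← hsum]
      refine sum_congr rfl fun b _ => ?_
      rw [heat_sum, (Pt_ceigen (opM (jumpBall μ n)) (l := l)
        (v := fun c => θ * (starRingEnd ℂ) (v b.1) * v c.1) (fun c => ?_) (fun c => ?_) _ b).1]
      · rw [mul_assoc θ, ← mul_assoc, e2, Complex.conj_mul', ← Complex.ofReal_pow,
          ← Complex.ofReal_mul, Complex.ofReal_re]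
      · rw [JB_fst hn fun i => (θ * (starRingEnd ℂ) (v b.1) * v i).re, ← heig, Complex.re_sum]
        simp only [Complex.re_ofReal_mul]
        rfl
      · rw [JB_fst hn fun i => (θ * (starRingEnd ℂ) (v b.1) * v i).im, ← heig, Complex.im_sum]
        simp only [Complex.im_ofReal_mul]
        rfl) (fun r r0 r1 _ => by
      rw [← hsum]
      refine sum_le_sum fun b _ => ?_
      rw [← one_mul (V * _), ← r1 b, sum_mul]
      refine sum_le_sum fun c _ => mul_le_mul_of_nonneg_left ?_ (r0 _ _)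
      have a1 := Complex.abs_re_le_norm (θ * (starRingEnd ℂ) (v b.1) * v c.1)
      rw [norm_mul, norm_mul, hθ1, one_mul, Complex.norm_conj] at a1
      refine (sq_le_sq' (abs_le.1 a1).1 (abs_le.1 a1).2).trans ?_
      rw [mul_pow, mul_comm]
      exact mul_le_mul_of_nonneg_right (hle _) (sq_nonneg _))
  refine le_trans (le_of_eq ?_) h3
  have e : Real.exp (-(2 * (1 - l.re) * t / n)) = E ^ 2 := by
    rw [hE, ← Real.exp_nat_mul]
    congr 1
    push_cast
    ring
  rw [e]
  field_simp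

end ProdY

variable {d : ℕ} {μ : Equiv.Perm (Fin d) → ℝ}

open ProdY in
theorem upperY (h : Hyp μ) {η ε : ℝ} (hη : 0 < η) (hε : 0 < ε) :
    ∀ᶠ n in atTop, ∀ x, tv (heatY μ n ((1 + η) * cutTime μ n) x) Finset.univ ≤ ε := by
  have hq := holdGap_pos h
  have hγ := specGap_pos h
  set g := specGap μ * ((1 + η / 2) / (1 + η)) with hg
  obtain ⟨κ, hκ0, hκ⟩ := urn_decay h (g := g) (mul_lt_of_lt_one_right hγ (by
    rw [div_lt_one (by positivity)]; linarith))
  have h1 : Tendsto (fun n : ℕ => Real.exp ((4 * d ^ 2 + 2 * d ^ 3 * κ) * ((n : ℝ) ^ (η / 2))⁻¹) - 1)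
      atTop (nhds (Real.exp ((4 * d ^ 2 + 2 * d ^ 3 * κ) * 0) - 1)) :=
    ((((tendsto_rpow_atTop (half_pos hη)).comp
      tendsto_natCast_atTop_atTop).inv_tendsto_atTop.const_mul _).rexp).sub_const 1
  simp only [mul_zero, Real.exp_zero, sub_self] at h1
  filter_upwards [h1.eventually (gt_mem_nhds (by positivity : 0 < (2 * ε) ^ 2)),
    eventually_gt_atTop 0] with n h2 hn x
  have hn' : (0 : ℝ) < n := by exact_mod_cast hn
  have : Nonempty (Slot d n) := ⟨(⟨0, by linarith [h.two]⟩, ⟨0, hn⟩)⟩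
  have hL : 0 ≤ Real.log n := Real.log_natCast_nonneg n
  set s := (1 + η) * cutTime μ n / n with hs
  set c := max (1 / holdGap μ) (1 / (2 * specGap μ)) with hc
  have es : s = (1 + η) * Real.log n * c := by rw [hs, cutTime]; field_simp; rfl
  have hc1 : 1 ≤ holdGap μ * c := by
    rw [← div_le_iff₀' hq]; exact le_max_left _ _
  have hc2 : 1 ≤ 2 * specGap μ * c := by
    rw [← div_le_iff₀' (by positivity)]; exact le_max_right _ _
  have hs0 : 0 ≤ s := by
    have : 0 ≤ c := le_max_of_le_left (by positivity)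
    rw [es]; positivity
  have h3 := tv_prod_le (fun b c => heat (jumpBall μ n) s (x b) c) (fun b => heat_one h hn hs0 _)
    (χ := d * n * (4 * Real.exp (-(2 * holdGap μ * s)) + 2 * d * κ * Real.exp (-(2 * g * s)) / n))
    (fun b => by
      rw [LowX.card_slot]
      push_cast
      exact mul_le_mul_of_nonneg_left (chi_ball h hn hs0 (hκ s hs0) _) (by positivity))
  have e0 : ((n : ℝ) ^ (η / 2))⁻¹ = Real.exp (-(Real.log n * (η / 2))) := by
    rw [Real.rpow_def_of_pos hn', Real.exp_neg]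
  have a1 : (n : ℝ) ^ 2 * Real.exp (-(2 * holdGap μ * s)) ≤ ((n : ℝ) ^ (η / 2))⁻¹ := by
    rw [e0]
    conv_lhs => rw [← Real.exp_log hn', ← Real.exp_nat_mul, ← Real.exp_add]
    rw [Real.exp_le_exp, es]
    have := mul_le_mul_of_nonneg_left hc1 (by positivity : 0 ≤ (1 + η) * Real.log n)
    push_cast
    nlinarith [mul_nonneg hL hη.le]
  have a2 : (n : ℝ) * Real.exp (-(2 * g * s)) ≤ ((n : ℝ) ^ (η / 2))⁻¹ := by
    rw [e0]
    conv_lhs => rw [← Real.exp_log hn', ← Real.exp_add]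
    rw [Real.exp_le_exp]
    have e : 2 * g * s = (1 + η / 2) * Real.log n * (2 * specGap μ * c) := by
      rw [es, hg]; field_simp
    have := mul_le_mul_of_nonneg_left hc2 (by positivity : 0 ≤ (1 + η / 2) * Real.log n)
    rw [e]
    linarith
  have h4 : (Fintype.card (Slot d n) : ℝ) * (d * n * (4 * Real.exp (-(2 * holdGap μ * s)) +
      2 * d * κ * Real.exp (-(2 * g * s)) / n)) ≤
      (4 * d ^ 2 + 2 * d ^ 3 * κ) * ((n : ℝ) ^ (η / 2))⁻¹ := by
    rw [LowX.card_slot]
    push_cast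
    have b1 := mul_le_mul_of_nonneg_left a1 (by positivity : (0 : ℝ) ≤ 4 * d ^ 2)
    have b2 := mul_le_mul_of_nonneg_left a2 (by positivity : (0 : ℝ) ≤ 2 * d ^ 3 * κ)
    refine le_trans (le_of_eq ?_) ((add_le_add b1 b2).trans (le_of_eq (add_mul _ _ _).symm))
    field_simp
  have h5 := (h3.trans (sub_le_sub_right (Real.exp_le_exp.2 h4) 1)).trans h2.le
  have h6 := le_of_sq_le_sq h5 (by positivity)
  change tv (fun y : Slot d n → Slot d n => ∏ b, heat (jumpBall μ n) s (x b) (y b)) univ ≤ ε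
  linarith

open ProdY in
theorem lowerY (h : Hyp μ) {η ε : ℝ} (hη : 0 < η) (hε : ε < 1) :
    ∀ᶠ n in atTop, ∀ t, 0 ≤ t → t ≤ (1 - η) * cutTime μ n →
      ∃ x, ε < tv (heatY μ n t x) Finset.univ := by
  have hq := holdGap_pos h
  have hg := specGap_pos h
  rcases le_total (1 / (2 * specGap μ)) (1 / holdGap μ) with hc | hc
  · obtain ⟨i, hi⟩ := exists_holdGap h
    filter_upwards [LowX.ev_small hη hε 0 48, eventually_ge_atTop 2,
      ((tendsto_rpow_atTop hη).comp tendsto_natCast_atTop_atTop).eventually_ge_atTop 2]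
      with n h1 hn h0 t ht htT
    rw [cutTime, max_eq_left hc] at htT
    have h2 : holdGap μ * t ≤ (1 - η) * (n * Real.log n) := by
      refine (mul_le_mul_of_nonneg_left htT hq.le).trans (le_of_eq ?_)
      field_simp
    have h3 := LowX.exp_ge (by omega) h2
    rw [hi] at h3
    refine ⟨id, h1.trans_le (le_trans ?_ (q_part h hn i ht (le_trans h0 h3)))⟩
    have h4 : (0 : ℝ) < (n : ℝ) ^ η := by positivity
    rw [zero_mul, zero_add]
    gcongr
  · obtain ⟨l, v, hv0, hv1, hv, hl⟩ := exists_specGap h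
    filter_upwards [LowX.ev_small hη hε 0 8, eventually_gt_atTop 0] with n h1 hn t ht htT
    refine ⟨id, h1.trans_le (le_trans ?_ (g_part h hn hv0 hv1 hv ht))⟩
    rw [cutTime, max_eq_right hc] at htT
    have h2 : 2 * specGap μ * t ≤ (1 - η) * (n * Real.log n) := by
      refine (mul_le_mul_of_nonneg_left htT (by positivity)).trans (le_of_eq ?_)
      field_simp
    have h3 := LowX.exp_ge hn h2
    have h4 : (0 : ℝ) < (n : ℝ) ^ η := by positivity
    rw [← hl, zero_mul, zero_add]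
    gcongr

end Pool.Agent.P.MP_c47a54_pr
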