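import Pool.Agent.P.MP_c47a54_pr.Base

namespace Pool.Agent.P.MP_c47a54_pr

open Filter Matrix

variable {d : ℕ} {μ : Equiv.Perm (Fin d) → ℝ}

lemma urn_nonneg (h : Hyp μ) (i j : Fin d) : 0 ≤ urnMat μ i j :=
  Finset.sum_nonneg fun σ _ => by
    split_ifs
    · exact h.nonneg σ
    · exact le_rfl

lemma urn_row (h : Hyp μ) (i : Fin d) : ∑ j, urnMat μ i j = 1 := by
  simp only [urnMat]
  rw [Finset.sum_comm, ← h.sum]
  exact Finset.sum_congr rfl fun σ _ => by simp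

lemma urn_col (h : Hyp μ) (j : Fin d) : ∑ i, urnMat μ i j = 1 := by
  simp only [urnMat]
  rw [Finset.sum_comm, ← h.sum]
  refine Finset.sum_congr rfl fun σ _ => ?_
  simp only [← Equiv.eq_symm_apply]
  simp

lemma urn_le_one (h : Hyp μ) (i j : Fin d) : urnMat μ i j ≤ 1 :=
  (Finset.single_le_sum (fun k _ => urn_nonneg h i k) (Finset.mem_univ j)).trans (urn_row h i).le

/-- a function constant along the arcs of `U` is constant -/
lemma const_of_arcs (h : Hyp μ) {α : Type} (v : Fin d → α)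
    (hv : ∀ i j, urnMat μ i j ≠ 0 → v i = v j) (i j : Fin d) : v i = v j := by
  obtain ⟨k, hk⟩ := h.irr i j
  induction k generalizing j with
  | zero =>
    by_contra hne
    have : i ≠ j := fun e => hne (e ▸ rfl)
    simp [this] at hk
  | succ k ih =>
    rw [pow_succ, Matrix.mul_apply] at hk
    obtain ⟨l, -, hl⟩ := Finset.exists_ne_zero_of_sum_ne_zero hk.ne'
    have h0 : ∀ (m : ℕ) a b, 0 ≤ (urnMat μ ^ m) a b := by
      intro m
      induction m with
      | zero => intro a b; rw [pow_zero, Matrix.one_apply]; split_ifs <;> norm_num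
      | succ m ihm =>
        intro a b
        rw [pow_succ, Matrix.mul_apply]
        exact Finset.sum_nonneg fun c _ => mul_nonneg (ihm _ _) (urn_nonneg h _ _)
    exact (ih l (lt_of_le_of_ne (h0 _ _ _) (left_ne_zero_of_mul hl).symm)).trans
      (hv l j (right_ne_zero_of_mul hl))

lemma exists_ne_fin (h : Hyp μ) (i : Fin d) : ∃ j, j ≠ i := by
  have : Nontrivial (Fin d) := Fin.nontrivial_iff_two_le.2 h.two
  exact exists_ne i

lemma urn_diag_lt (h : Hyp μ) (i : Fin d) : urnMat μ i i < 1 := by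
  refine lt_of_le_of_ne (urn_le_one h i i) fun e => ?_
  have hr : ∀ j, j ≠ i → urnMat μ i j = 0 := by
    intro j hj
    have := urn_row h i
    rw [← Finset.add_sum_erase _ _ (Finset.mem_univ i), e, add_eq_left] at this
    exact (Finset.sum_eq_zero_iff_of_nonneg fun k _ => urn_nonneg h i k).1 this j (by simp [hj])
  have hc : ∀ j, j ≠ i → urnMat μ j i = 0 := by
    intro j hj
    have := urn_col h i
    rw [← Finset.add_sum_erase _ _ (Finset.mem_univ i), e, add_eq_left] at this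
    exact (Finset.sum_eq_zero_iff_of_nonneg fun k _ => urn_nonneg h k i).1 this j (by simp [hj])
  obtain ⟨j, hj⟩ := exists_ne_fin h i
  have := const_of_arcs h (fun k => (k = i : Prop)) (fun a b hab => by
    by_cases ha : a = i
    · by_cases hb : b = i
      · simp [ha, hb]
      · exact absurd (ha ▸ hr b hb) hab
    · by_cases hb : b = i
      · exact absurd (hb ▸ hc a ha) hab
      · simp [ha, hb]) i j
  exact hj (this ▸ rfl)

lemma holdGap_le (i : Fin d) : holdGap μ ≤ 1 - urnMat μ i i :=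
  ciInf_le (Set.finite_range _).bddBelow i

lemma exists_holdGap (h : Hyp μ) : ∃ i, holdGap μ = 1 - urnMat μ i i := by
  have : Nonempty (Fin d) := ⟨⟨0, by linarith [h.two]⟩⟩
  obtain ⟨i, hi⟩ := exists_eq_ciInf_of_finite (f := fun i => 1 - urnMat μ i i)
  exact ⟨i, hi.symm⟩

lemma holdGap_pos (h : Hyp μ) : 0 < holdGap μ := by
  obtain ⟨i, hi⟩ := exists_holdGap h
  rw [hi]
  linarith [urn_diag_lt h i]

/-- the set whose infimum is the spectral gap -/
def gapSet (μ : Equiv.Perm (Fin d) → ℝ) : Set ℝ :=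
  {g | ∃ (l : ℂ) (v : Fin d → ℂ), (∃ i j, v i ≠ v j) ∧
    (∀ i, ∑ j, (urnMat μ i j : ℂ) * v j = l * v i) ∧ g = 1 - l.re}

/-- the complex matrix of `U` -/
noncomputable def urnC (μ : Equiv.Perm (Fin d) → ℝ) : Matrix (Fin d) (Fin d) ℂ :=
  (urnMat μ).map (algebraMap ℝ ℂ)

lemma mem_spec_iff (A : Matrix (Fin d) (Fin d) ℂ) (l : ℂ) :
    l ∈ spectrum ℂ A ↔ ∃ v : Fin d → ℂ, v ≠ 0 ∧ A *ᵥ v = l • v := by
  rw [← Matrix.spectrum_toLin', ← Module.End.hasEigenvalue_iff_mem_spectrum]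
  constructor
  · intro hl
    obtain ⟨v, hv⟩ := hl.exists_hasEigenvector
    exact ⟨v, hv.2, by simpa using hv.apply_eq_smul⟩
  · rintro ⟨v, hv, e⟩
    exact Module.End.hasEigenvalue_of_hasEigenvector ⟨Module.End.mem_eigenspace_iff.2 (by
      simpa using e), hv⟩

lemma gapSet_finite : (gapSet μ).Finite := by
  refine ((urnC μ).finite_spectrum.image fun l : ℂ => 1 - l.re).subset ?_
  rintro g ⟨l, v, ⟨i, j, hij⟩, hv, rfl⟩
  refine ⟨l, (mem_spec_iff _ _).2 ⟨v, ?_, funext fun k => ?_⟩, rfl⟩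
  · rintro rfl; exact hij rfl
  · simpa [urnC, mulVec, dotProduct] using hv k

lemma nonconst_of_sum (h : Hyp μ) {v : Fin d → ℂ} (hv : v ≠ 0) (hs : ∑ i, v i = 0) :
    ∃ i j, v i ≠ v j := by
  by_contra hc
  push Not at hc
  apply hv
  funext i
  have : ∑ k, v k = (d : ℂ) * v i := by
    rw [Finset.sum_congr rfl fun k _ => hc k i]; simp
  rw [hs] at this
  have hd : (d : ℂ) ≠ 0 := by
    have := h.two
    exact_mod_cast (by omega : d ≠ 0)
  simpa [hd] using this.symm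

lemma sum_urnC (h : Hyp μ) (v : Fin d → ℂ) : ∑ i, ∑ j, (urnMat μ i j : ℂ) * v j = ∑ j, v j := by
  rw [Finset.sum_comm]
  refine Finset.sum_congr rfl fun j _ => ?_
  rw [← Finset.sum_mul, ← Complex.ofReal_sum, urn_col h]; simp

lemma gapSet_nonempty (h : Hyp μ) : (gapSet μ).Nonempty := by
  let s : (Fin d → ℂ) →ₗ[ℂ] ℂ := ∑ i, LinearMap.proj i
  have hs : ∀ v, s v = ∑ i, v i := fun v => by simp [s]
  have hm : ∀ v ∈ LinearMap.ker s, Matrix.toLin' (urnC μ) v ∈ LinearMap.ker s := by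
    intro v hv
    rw [LinearMap.mem_ker, hs] at hv ⊢
    rw [← hv, ← sum_urnC h v]
    simp [urnC, mulVec, dotProduct]
  obtain ⟨i⟩ : Nonempty (Fin d) := ⟨⟨0, by linarith [h.two]⟩⟩
  obtain ⟨j, hj⟩ := exists_ne_fin h i
  have : Nontrivial (LinearMap.ker s) := by
    refine ⟨⟨⟨Pi.single i 1 - Pi.single j 1, ?_⟩, 0, fun e => ?_⟩⟩
    · rw [LinearMap.mem_ker, map_sub, hs, hs]; simp
    · have := congrFun (congrArg Subtype.val e) i
      simp [hj.symm] at this
  obtain ⟨l, hl⟩ := Module.End.exists_eigenvalue ((Matrix.toLin' (urnC μ)).restrict hm)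
  obtain ⟨v, hv⟩ := hl.exists_hasEigenvector
  have e := congrArg Subtype.val hv.apply_eq_smul
  refine ⟨1 - l.re, l, v.1, nonconst_of_sum h (fun e => hv.2 (Subtype.ext e)) ?_, fun k => ?_, rfl⟩
  · rw [← hs]; exact v.2
  · simpa [urnC, mulVec, dotProduct] using congrFun e k

lemma dirichlet (h : Hyp μ) {l : ℂ} {v : Fin d → ℂ}
    (hv : ∀ i, ∑ j, (urnMat μ i j : ℂ) * v j = l * v i) :
    ∑ i, ∑ j, urnMat μ i j * Complex.normSq (v i - v j) =
      2 * (1 - l.re) * ∑ i, Complex.normSq (v i) := by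
  have h1 : ∑ i, ∑ j, urnMat μ i j * Complex.normSq (v i) = ∑ i, Complex.normSq (v i) :=
    Finset.sum_congr rfl fun i _ => by rw [← Finset.sum_mul, urn_row h, one_mul]
  have h2 : ∑ i, ∑ j, urnMat μ i j * Complex.normSq (v j) = ∑ i, Complex.normSq (v i) := by
    rw [Finset.sum_comm]
    exact Finset.sum_congr rfl fun i _ => by rw [← Finset.sum_mul, urn_col h, one_mul]
  have h3 : ∑ i, ∑ j, urnMat μ i j * ((v i).re * (v j).re + (v i).im * (v j).im) =
      l.re * ∑ i, Complex.normSq (v i) := by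
    rw [Finset.mul_sum]
    refine Finset.sum_congr rfl fun i _ => ?_
    have a := congrArg Complex.re (hv i)
    have b := congrArg Complex.im (hv i)
    simp only [Complex.re_sum, Complex.im_sum, Complex.mul_re, Complex.mul_im, Complex.ofReal_re,
      Complex.ofReal_im, zero_mul, sub_zero, add_zero] at a b
    have : ∑ j, urnMat μ i j * ((v i).re * (v j).re + (v i).im * (v j).im) =
        (v i).re * ∑ j, urnMat μ i j * (v j).re + (v i).im * ∑ j, urnMat μ i j * (v j).im := by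
      simp only [Finset.mul_sum, ← Finset.sum_add_distrib]
      exact Finset.sum_congr rfl fun j _ => by ring
    rw [this, a, b, Complex.normSq_apply]; ring
  have h4 : ∑ i, ∑ j, urnMat μ i j * Complex.normSq (v i - v j) =
      ∑ i, ∑ j, urnMat μ i j * Complex.normSq (v i) + ∑ i, ∑ j, urnMat μ i j * Complex.normSq (v j)
        - 2 * ∑ i, ∑ j, urnMat μ i j * ((v i).re * (v j).re + (v i).im * (v j).im) := by
    simp only [Finset.mul_sum, ← Finset.sum_add_distrib, ← Finset.sum_sub_distrib]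
    refine Finset.sum_congr rfl fun i _ => Finset.sum_congr rfl fun j _ => ?_
    simp only [Complex.normSq_apply, Complex.sub_re, Complex.sub_im]; ring
  rw [h4, h1, h2, h3]; ring

lemma gapSet_pos (h : Hyp μ) {g : ℝ} (hg : g ∈ gapSet μ) : 0 < g := by
  obtain ⟨l, v, ⟨i, j, hij⟩, hv, rfl⟩ := hg
  have e := dirichlet h hv
  have h0 : ∀ a b, 0 ≤ urnMat μ a b * Complex.normSq (v a - v b) :=
    fun a b => mul_nonneg (urn_nonneg h _ _) (Complex.normSq_nonneg _)
  have h1 : 0 ≤ ∑ i, Complex.normSq (v i) := Finset.sum_nonneg fun _ _ => Complex.normSq_nonneg _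
  by_contra hc
  push Not at hc
  have h2 : ∑ i, ∑ j, urnMat μ i j * Complex.normSq (v i - v j) = 0 :=
    le_antisymm (by rw [e]; nlinarith)
      (Finset.sum_nonneg fun a _ => Finset.sum_nonneg fun b _ => h0 a b)
  refine hij (const_of_arcs h v (fun a b hab => ?_) i j)
  have h3 := (Finset.sum_eq_zero_iff_of_nonneg fun b _ => h0 a b).1
    ((Finset.sum_eq_zero_iff_of_nonneg fun a _ => Finset.sum_nonneg fun b _ => h0 a b).1 h2 a
      (Finset.mem_univ _)) b (Finset.mem_univ _)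
  simpa [hab, sub_eq_zero] using h3

lemma specGap_mem (h : Hyp μ) : specGap μ ∈ gapSet μ :=
  (gapSet_nonempty h).csInf_mem gapSet_finite

lemma specGap_le {g : ℝ} (hg : g ∈ gapSet μ) : specGap μ ≤ g :=
  csInf_le gapSet_finite.bddBelow hg

lemma specGap_pos (h : Hyp μ) : 0 < specGap μ := gapSet_pos h (specGap_mem h)

lemma exists_specGap (h : Hyp μ) : ∃ (l : ℂ) (v : Fin d → ℂ), v ≠ 0 ∧ ∑ i, v i = 0 ∧
    (∀ i, ∑ j, (urnMat μ i j : ℂ) * v j = l * v i) ∧ specGap μ = 1 - l.re := by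
  obtain ⟨l, v, ⟨i, j, hij⟩, hv, e⟩ := specGap_mem h
  refine ⟨l, v, ?_, ?_, hv, e⟩
  · rintro rfl; exact hij rfl
  · have h1 := sum_urnC h v
    simp only [hv, ← Finset.mul_sum] at h1
    have h2 : l ≠ 1 := by
      rintro rfl
      have := specGap_pos h
      rw [e] at this
      simp at this
    have : (l - 1) * ∑ i, v i = 0 := by rw [sub_mul, h1, one_mul, sub_self]
    exact (mul_eq_zero.1 this).resolve_left (sub_ne_zero.2 h2)

lemma eig_norm_le (h : Hyp μ) {l : ℂ} {v : Fin d → ℂ} (h0 : v ≠ 0)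
    (hv : ∀ i, ∑ j, (urnMat μ i j : ℂ) * v j = l * v i) : ‖l‖ ≤ 1 := by
  have : Nonempty (Fin d) := ⟨⟨0, by linarith [h.two]⟩⟩
  obtain ⟨i, -, hi⟩ := Finset.exists_max_image Finset.univ (fun i => ‖v i‖) Finset.univ_nonempty
  have hp : 0 < ‖v i‖ := by
    obtain ⟨k, hk⟩ := Function.ne_iff.1 h0
    exact (norm_pos_iff.2 hk).trans_le (hi k (Finset.mem_univ _))
  have : ‖l‖ * ‖v i‖ ≤ 1 * ‖v i‖ := by
    rw [← norm_mul, ← hv i, ← urn_row h i, Finset.sum_mul]
    refine (norm_sum_le _ _).trans (Finset.sum_le_sum fun j _ => ?_)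
    rw [norm_mul, Complex.norm_real, Real.norm_of_nonneg (urn_nonneg h i j)]
    exact mul_le_mul_of_nonneg_left (hi j (Finset.mem_univ _)) (urn_nonneg h i j)
  exact le_of_mul_le_mul_right this hp

lemma specGap_le_two (h : Hyp μ) : specGap μ ≤ 2 := by
  obtain ⟨l, v, h0, -, hv, e⟩ := exists_specGap h
  have := (abs_le.1 ((Complex.abs_re_le_norm l).trans (eig_norm_le h h0 hv))).1
  linarith

open scoped Matrix.Norms.L2Operator in
/-- Gelfand's formula for a real matrix -/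
lemma exists_pow_le (hd : 0 < d) (B : Matrix (Fin d) (Fin d) ℝ) {r : ℝ} (hr : 0 < r)
    (hB : ∀ l ∈ spectrum ℂ (B.map (algebraMap ℝ ℂ)), ‖l‖ < r) :
    ∃ m : ℕ, 0 < m ∧ ∀ u, (B ^ m) *ᵥ u ⬝ᵥ (B ^ m) *ᵥ u ≤ (r ^ m) ^ 2 * (u ⬝ᵥ u) := by
  have : Nonempty (Fin d) := ⟨⟨0, hd⟩⟩
  set C := B.map (algebraMap ℝ ℂ) with hC
  have h1 : spectralRadius ℂ C < ((r.toNNReal : NNReal) : ENNReal) :=
    spectrum.spectralRadius_lt_of_forall_lt C fun z hz => by
      rw [Real.toNNReal_of_nonneg hr.le]; exact hB z hz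
  have h2 := (spectrum.pow_norm_pow_one_div_tendsto_nhds_spectralRadius C).eventually
    (gt_mem_nhds h1)
  obtain ⟨m, hm, hm0⟩ := (h2.and (eventually_gt_atTop 0)).exists
  refine ⟨m, hm0, fun u => ?_⟩
  have h3 : ‖C ^ m‖ ^ (1 / m : ℝ) < r := by
    rw [← ENNReal.ofReal_lt_ofReal_iff hr]
    exact hm
  have h4 : ‖C ^ m‖ ≤ r ^ m := by
    have := pow_le_pow_left₀ (by positivity) h3.le m
    rwa [one_div, Real.rpow_inv_natCast_pow (norm_nonneg _) hm0.ne'] at this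
  have h5 := (C ^ m).l2_opNorm_mulVec (WithLp.toLp 2 fun i => (u i : ℂ))
  have h6 := pow_le_pow_left₀ (norm_nonneg _)
    (h5.trans (mul_le_mul_of_nonneg_right h4 (norm_nonneg _))) 2
  rw [mul_pow, EuclideanSpace.norm_sq_eq, EuclideanSpace.norm_sq_eq] at h6
  have e : C ^ m = (B ^ m).map (algebraMap ℝ ℂ) := by
    rw [hC]
    exact (map_pow (RingHom.mapMatrix (algebraMap ℝ ℂ)) B m).symm
  rw [e] at h6
  have e2 : ∀ i, ((B ^ m).map Complex.ofReal *ᵥ fun i => (u i : ℂ)) i =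
      (((B ^ m) *ᵥ u) i : ℝ) := by
    intro i
    simp [mulVec, dotProduct]
  simpa [dotProduct, sq, e2] using h6

open scoped MatrixOrder in
lemma exists_lyap (B : Matrix (Fin d) (Fin d) ℝ) {r : ℝ} (hr : 0 < r) {m : ℕ} (hm : 0 < m)
    (hB : ∀ u, (B ^ m) *ᵥ u ⬝ᵥ (B ^ m) *ᵥ u ≤ (r ^ m) ^ 2 * (u ⬝ᵥ u)) :
    ∃ R : Matrix (Fin d) (Fin d) ℝ, (∀ u, u ⬝ᵥ u ≤ R *ᵥ u ⬝ᵥ R *ᵥ u) ∧
      ∀ u, R *ᵥ u ⬝ᵥ R *ᵥ (B *ᵥ u) ≤ r * (R *ᵥ u ⬝ᵥ R *ᵥ u) := by
  set M : Matrix (Fin d) (Fin d) ℝ :=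
    ∑ j ∈ Finset.range m, (((r ^ j)⁻¹ • B ^ j)ᴴ * ((r ^ j)⁻¹ • B ^ j)) with hM
  have hP : M.PosSemidef := Matrix.posSemidef_sum _ fun j _ => posSemidef_conjTranspose_mul_self _
  obtain ⟨R, hR⟩ := CStarAlgebra.nonneg_iff_eq_star_mul_self.mp hP.nonneg
  have key : ∀ (A : Matrix (Fin d) (Fin d) ℝ) u, u ⬝ᵥ (Aᴴ * A) *ᵥ u = A *ᵥ u ⬝ᵥ A *ᵥ u := by
    intro A u
    rw [← mulVec_mulVec, dotProduct_mulVec, conjTranspose_eq_transpose_of_trivial,
      vecMul_transpose]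
  have hq : ∀ u, R *ᵥ u ⬝ᵥ R *ᵥ u =
      ∑ j ∈ Finset.range m, ((r ^ j)⁻¹) ^ 2 * ((B ^ j) *ᵥ u ⬝ᵥ (B ^ j) *ᵥ u) := by
    intro u
    rw [← key, ← star_eq_conjTranspose, ← hR, hM, sum_mulVec, dotProduct_sum]
    refine Finset.sum_congr rfl fun j _ => ?_
    rw [key, smul_mulVec, smul_dotProduct, dotProduct_smul, smul_eq_mul, smul_eq_mul]; ring
  have nn : ∀ w : Fin d → ℝ, 0 ≤ w ⬝ᵥ w := fun w => Finset.sum_nonneg fun _ _ => mul_self_nonneg _
  refine ⟨R, fun u => ?_, fun u => ?_⟩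
  · rw [hq]
    have := Finset.single_le_sum (f := fun j => ((r ^ j)⁻¹) ^ 2 * ((B ^ j) *ᵥ u ⬝ᵥ (B ^ j) *ᵥ u))
      (fun j _ => mul_nonneg (sq_nonneg _) (nn _)) (Finset.mem_range.2 hm)
    simpa using this
  · have h1 : R *ᵥ (B *ᵥ u) ⬝ᵥ R *ᵥ (B *ᵥ u) ≤ r ^ 2 * (R *ᵥ u ⬝ᵥ R *ᵥ u) := by
      set f : ℕ → ℝ := fun j => ((r ^ j)⁻¹) ^ 2 * ((B ^ j) *ᵥ u ⬝ᵥ (B ^ j) *ᵥ u) with hf
      have e1 : R *ᵥ (B *ᵥ u) ⬝ᵥ R *ᵥ (B *ᵥ u) = r ^ 2 * ∑ j ∈ Finset.range m, f (j + 1) := by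
        rw [hq, Finset.mul_sum]
        refine Finset.sum_congr rfl fun j _ => ?_
        simp only [hf, mulVec_mulVec, pow_succ]
        field_simp
      have e2 := Finset.sum_range_succ f m
      rw [Finset.sum_range_succ'] at e2
      have e3 : f m ≤ f 0 := by
        simp only [hf, pow_zero, inv_one, one_pow, one_mul, one_mulVec]
        have := mul_le_mul_of_nonneg_left (hB u) (sq_nonneg (r ^ m)⁻¹)
        refine this.trans (le_of_eq ?_)
        field_simp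
      rw [e1, hq]
      exact mul_le_mul_of_nonneg_left (by linarith) (sq_nonneg _)
    set a := R *ᵥ u
    set b := R *ᵥ (B *ᵥ u)
    have h2 := nn (r • a - b)
    simp only [sub_dotProduct, dotProduct_sub, smul_dotProduct, dotProduct_smul, smul_eq_mul,
      dotProduct_comm b a] at h2
    have : r * (a ⬝ᵥ b) ≤ r * (r * (a ⬝ᵥ a)) := by nlinarith
    exact le_of_mul_le_mul_left this hr

lemma mulVec_sq_le (R : Matrix (Fin d) (Fin d) ℝ) (u : Fin d → ℝ) :
    R *ᵥ u ⬝ᵥ R *ᵥ u ≤ (∑ i, ∑ j, R i j ^ 2) * (u ⬝ᵥ u) := by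
  rw [Finset.sum_mul]
  refine Finset.sum_le_sum fun i _ => ?_
  have := Finset.sum_mul_sq_le_sq_mul_sq Finset.univ (fun j => R i j) u
  simpa [mulVec, dotProduct, sq] using this

lemma lyap (h : Hyp μ) {g : ℝ} (hg : g < specGap μ) : ∃ (κ : ℝ) (R : Matrix (Fin d) (Fin d) ℝ),
    (∀ u, u ⬝ᵥ u ≤ R *ᵥ u ⬝ᵥ R *ᵥ u) ∧ (∀ u, R *ᵥ u ⬝ᵥ R *ᵥ u ≤ κ * (u ⬝ᵥ u)) ∧
    ∀ u, ∑ i, u i = 0 → R *ᵥ u ⬝ᵥ R *ᵥ (urnMat μ *ᵥ u - u) ≤ -g * (R *ᵥ u ⬝ᵥ R *ᵥ u) := by
  wlog hg0 : 0 < g generalizing g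
  · obtain ⟨κ, R, h1, h2, h3⟩ := this (half_lt_self (specGap_pos h)) (half_pos (specGap_pos h))
    refine ⟨κ, R, h1, h2, fun u hu => (h3 u hu).trans ?_⟩
    refine mul_le_mul_of_nonneg_right (by linarith [specGap_pos h]) ?_
    exact Finset.sum_nonneg fun _ _ => mul_self_nonneg _
  have h2 := specGap_le_two h
  have hd : 0 < d := by linarith [h.two]
  have hd' : (d : ℂ) ≠ 0 := by exact_mod_cast hd.ne'
  set s := (specGap μ - g) / 4 with hs
  have hs0 : 0 < s := by linarith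
  have hr : 0 < 1 - s * g := by nlinarith
  set B : Matrix (Fin d) (Fin d) ℝ :=
    1 + s • (urnMat μ - 1) - Matrix.of fun _ _ => (d : ℝ)⁻¹ with hB
  obtain ⟨m, hm, hBm⟩ := exists_pow_le hd B hr (by
    intro l hl
    obtain ⟨v, hv, e⟩ := (mem_spec_iff _ _).1 hl
    by_cases hl0 : l = 0
    · rw [hl0, norm_zero]; exact hr
    have e1 : ∀ i, v i + s * (∑ j, (urnMat μ i j : ℂ) * v j - v i) - (d : ℂ)⁻¹ * ∑ j, v j =
        l * v i := by
      intro i
      have := congrFun e i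
      simp only [Pi.smul_apply, smul_eq_mul] at this
      rw [← this]
      have e0 : ∀ j, (B.map (algebraMap ℝ ℂ)) i j * v j = (if i = j then v j else 0) +
          s * ((urnMat μ i j : ℂ) * v j - if i = j then v j else 0) - (d : ℂ)⁻¹ * v j := by
        intro j
        by_cases hij : i = j <;> simp [hB, hij] <;> ring
      simp only [mulVec, dotProduct, e0, Finset.sum_sub_distrib, Finset.sum_add_distrib,
        ← Finset.mul_sum, Finset.sum_ite_eq, Finset.mem_univ, if_true]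
    have e2 : ∑ j, v j = 0 := by
      have := Finset.sum_congr rfl fun i (_ : i ∈ Finset.univ) => e1 i
      rw [Finset.sum_sub_distrib, Finset.sum_add_distrib, ← Finset.mul_sum, ← Finset.mul_sum,
        ← Finset.mul_sum, Finset.sum_sub_distrib, sum_urnC h] at this
      simp only [sub_self, mul_zero, add_zero, Finset.sum_const, Finset.card_univ, Fintype.card_fin,
        nsmul_eq_mul] at this
      rw [inv_mul_cancel_left₀ hd', sub_self] at this
      exact (mul_eq_zero.1 this.symm).resolve_left hl0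
    have hsC : (s : ℂ) ≠ 0 := by exact_mod_cast hs0.ne'
    set z := (l - 1) / s with hz
    have e3 : ∀ i, ∑ j, (urnMat μ i j : ℂ) * v j = (1 + z) * v i := by
      intro i
      have := e1 i
      rw [e2, mul_zero, sub_zero] at this
      rw [hz]
      field_simp
      linear_combination this
    have h3 : specGap μ ≤ 1 - (1 + z).re := specGap_le ⟨_, v, nonconst_of_sum h hv e2, e3, rfl⟩
    have h4 := eig_norm_le h hv e3
    have h5 : l = 1 + s * z := by rw [hz]; field_simp; ring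
    have h6 : ‖z‖ ≤ 2 := by
      have := norm_sub_le (1 + z) 1
      rw [add_sub_cancel_left, norm_one] at this
      linarith
    have h7 : z.re ^ 2 + z.im ^ 2 ≤ 4 := by
      have := Complex.sq_norm z
      rw [Complex.normSq_apply] at this
      nlinarith [norm_nonneg z]
    refine lt_of_pow_lt_pow_left₀ 2 hr.le ?_
    rw [Complex.sq_norm, Complex.normSq_apply, h5]
    simp only [Complex.add_re, Complex.one_re, Complex.mul_re, Complex.ofReal_re, Complex.ofReal_im,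
      zero_mul, sub_zero, Complex.add_im, Complex.one_im, Complex.mul_im, add_zero, zero_add] at h3 ⊢
    have h8 : 2 * z.re + s * (z.re ^ 2 + z.im ^ 2) < -2 * g + s * g ^ 2 := by
      nlinarith [mul_le_mul_of_nonneg_left h7 hs0.le, mul_nonneg hs0.le (sq_nonneg g)]
    nlinarith [mul_lt_mul_of_pos_left h8 hs0])
  obtain ⟨R, hR1, hR2⟩ := exists_lyap B hr hm hBm
  refine ⟨_, R, hR1, mulVec_sq_le R, fun u hu => ?_⟩
  have e : B *ᵥ u = u + s • (urnMat μ *ᵥ u - u) := by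
    rw [hB, sub_mulVec, add_mulVec, one_mulVec, smul_mulVec, sub_mulVec, one_mulVec]
    have : (Matrix.of fun _ _ => (d : ℝ)⁻¹ : Matrix (Fin d) (Fin d) ℝ) *ᵥ u = 0 := by
      funext i
      simp [mulVec, dotProduct, ← Finset.mul_sum, hu]
    rw [this, sub_zero]
  have h3 := hR2 u
  rw [e, mulVec_add, mulVec_smul, dotProduct_add, dotProduct_smul, smul_eq_mul] at h3
  have : s * (R *ᵥ u ⬝ᵥ R *ᵥ (urnMat μ *ᵥ u - u)) ≤ s * (-g * (R *ᵥ u ⬝ᵥ R *ᵥ u)) := by linarith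
  exact le_of_mul_le_mul_left this hs0

lemma cutTime_pos (h : Hyp μ) : ∀ᶠ n in atTop, 0 < cutTime μ n := by
  filter_upwards [eventually_ge_atTop 2] with n hn
  have h1 : (1 : ℝ) < n := by exact_mod_cast hn
  have h2 := Real.log_pos h1
  have h3 : 0 < 1 / holdGap μ := one_div_pos.2 (holdGap_pos h)
  exact mul_pos (mul_pos (by linarith) h2) (lt_max_of_lt_left h3)

end Pool.Agent.P.MP_c47a54_pr
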