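import Pool.Agent.P.MP_c47a54_pr.Defs

namespace Pool.Agent.P.MP_c47a54_pr

open Matrix

abbrev Op (S : Type) := (S → ℝ) →L[ℝ] (S → ℝ)

variable {S S' Ω : Type} [Fintype S] [Fintype S'] [Fintype Ω]

noncomputable def Pt (K : Op S) (t : ℝ) : Op S := NormedSpace.exp (t • (K - 1))

noncomputable def poi (t : ℝ) (k : ℕ) : ℝ := Real.exp (-t) * t ^ k / (k.factorial : ℝ)

lemma poi_nonneg {t : ℝ} (ht : 0 ≤ t) (k : ℕ) : 0 ≤ poi t k := by unfold poi; positivity

lemma hasSum_poi_pow (t l : ℝ) : HasSum (fun k => poi t k * l ^ k) (Real.exp (t * (l - 1))) := by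
  have h := (NormedSpace.expSeries_div_hasSum_exp (t * l)).mul_left (Real.exp (-t))
  rw [← Real.exp_eq_exp_ℝ, ← Real.exp_add, show -t + t * l = t * (l - 1) by ring] at h
  have e : (fun k => poi t k * l ^ k) = fun i => Real.exp (-t) * ((t * l) ^ i / ↑i.factorial) := by
    funext k; unfold poi; rw [mul_pow]; ring
  rw [e]; exact h

lemma hasSum_poi (t : ℝ) : HasSum (poi t) 1 := by simpa using hasSum_poi_pow t 1

lemma hasSum_poi_cpow (t : ℝ) (l : ℂ) :
    HasSum (fun k => (poi t k : ℂ) * l ^ k) (Complex.exp (t * (l - 1))) := by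
  have h := (NormedSpace.expSeries_div_hasSum_exp ((t : ℂ) * l)).mul_left (Complex.exp (-t))
  rw [← Complex.exp_eq_exp_ℂ, ← Complex.exp_add, show -(t : ℂ) + t * l = t * (l - 1) by ring] at h
  have e : (fun k => (poi t k : ℂ) * l ^ k) =
      fun i => Complex.exp (-t) * (((t : ℂ) * l) ^ i / ↑i.factorial) := by
    funext k; unfold poi; rw [mul_pow]; push_cast; ring
  rw [e]; exact h

@[simp] lemma Pt_zero (K : Op S) : Pt K 0 = 1 := by simp [Pt]

lemma Pt_add (K : Op S) (s t : ℝ) : Pt K (s + t) = Pt K s * Pt K t := by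
  unfold Pt
  let _ : NormedAlgebra ℚ (Op S) := NormedAlgebra.restrictScalars ℚ ℝ _
  rw [add_smul, NormedSpace.exp_add_of_commute]
  exact ((Commute.refl _).smul_left _).smul_right _

lemma hasSum_Pt (K : Op S) (t : ℝ) : HasSum (fun k => poi t k • K ^ k) (Pt K t) := by
  have h1 : Pt K t = Real.exp (-t) • NormedSpace.exp (t • K) := by
    unfold Pt
    let _ : NormedAlgebra ℚ (Op S) := NormedAlgebra.restrictScalars ℚ ℝ _
    have e : t • (K - 1) = algebraMap ℝ (Op S) (-t) + t • K := by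
      rw [Algebra.algebraMap_eq_smul_one, smul_sub, neg_smul]; abel
    rw [e, NormedSpace.exp_add_of_commute (Algebra.commutes _ _), ← NormedSpace.algebraMap_exp_comm,
      ← Real.exp_eq_exp_ℝ, Algebra.smul_def (Real.exp (-t))]
  rw [h1]
  have h2 := (NormedSpace.exp_series_hasSum_exp' (𝕂 := ℝ) (t • K)).const_smul (Real.exp (-t))
  have e : (fun k => poi t k • K ^ k) =
      fun i : ℕ => Real.exp (-t) • ((i.factorial : ℝ))⁻¹ • (t • K) ^ i := by
    funext k
    rw [_root_.smul_pow, smul_smul, smul_smul]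
    congr 1
    unfold poi; ring
  rw [e]; exact h2

lemma hasSum_Pt_fun (K : Op S) (t : ℝ) (φ : S → ℝ) :
    HasSum (fun k => poi t k • (K ^ k) φ) (Pt K t φ) :=
  (hasSum_Pt K t).mapL (ContinuousLinearMap.apply ℝ (S → ℝ) φ)

lemma hasSum_Pt_apply (K : Op S) (t : ℝ) (φ : S → ℝ) (x : S) :
    HasSum (fun k => poi t k * (K ^ k) φ x) (Pt K t φ x) :=
  (hasSum_Pt_fun K t φ).mapL (ContinuousLinearMap.proj (R := ℝ) (φ := fun _ : S => ℝ) x)

lemma hasDerivAt_Pt (K : Op S) (t : ℝ) : HasDerivAt (Pt K) (Pt K t * (K - 1)) t :=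
  hasDerivAt_exp_smul_const (K - 1) t

lemma hasDerivAt_Pt' (K : Op S) (t : ℝ) : HasDerivAt (Pt K) ((K - 1) * Pt K t) t :=
  hasDerivAt_exp_smul_const' (K - 1) t

lemma Pt_comm (K : Op S) (t : ℝ) (r : ℕ) (φ : S → ℝ) :
    (K ^ r) (Pt K t φ) = Pt K t ((K ^ r) φ) := by
  have h1 := (hasSum_Pt_fun K t φ).mapL (K ^ r)
  refine h1.unique ?_
  convert hasSum_Pt_fun K t ((K ^ r) φ) using 2 with k
  rw [map_smul, ← mul_apply_eq_comp, ← mul_apply_eq_comp, ← pow_add,
    ← pow_add, add_comm]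

/-- positive and unital -/
structure Markov (K : Op S) : Prop where
  mono : ∀ φ ψ : S → ℝ, (∀ x, φ x ≤ ψ x) → ∀ x, K φ x ≤ K ψ x
  const : ∀ (c : ℝ) x, K (fun _ => c) x = c

lemma Markov.one : Markov (1 : Op S) := ⟨fun _ _ h => h, fun _ _ => rfl⟩

lemma Markov.mul {K L : Op S} (hK : Markov K) (hL : Markov L) : Markov (K * L) :=
  ⟨fun φ ψ h => hK.mono _ _ (hL.mono φ ψ h), fun c x => by
    have : L (fun _ => c) = fun _ => c := funext (hL.const c)
    rw [mul_apply_eq_comp, this, hK.const]⟩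

lemma Markov.pow {K : Op S} (hK : Markov K) (k : ℕ) : Markov (K ^ k) := by
  induction k with
  | zero => simpa using Markov.one
  | succ k ih => rw [pow_succ]; exact ih.mul hK

lemma Markov.pt {K : Op S} (hK : Markov K) {t : ℝ} (ht : 0 ≤ t) : Markov (Pt K t) :=
  ⟨fun φ ψ h x => hasSum_le (fun k => mul_le_mul_of_nonneg_left ((hK.pow k).mono φ ψ h x)
      (poi_nonneg ht k)) (hasSum_Pt_apply K t φ x) (hasSum_Pt_apply K t ψ x),
    fun c x => (hasSum_Pt_apply K t _ x).unique (by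
      simp only [(hK.pow _).const]
      simpa using (hasSum_poi t).mul_right c)⟩

lemma Markov.le_const {K : Op S} (hK : Markov K) {φ : S → ℝ} {c : ℝ} (h : ∀ x, φ x ≤ c) (x : S) :
    K φ x ≤ c := (hK.mono φ (fun _ => c) h x).trans (hK.const c x).le

lemma Markov.ge_const {K : Op S} (hK : Markov K) {φ : S → ℝ} {c : ℝ} (h : ∀ x, c ≤ φ x) (x : S) :
    c ≤ K φ x := (hK.const c x).ge.trans (hK.mono (fun _ => c) φ h x)

lemma Markov.nonneg {K : Op S} (hK : Markov K) {φ : S → ℝ} (h : ∀ x, 0 ≤ φ x) (x : S) :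
    0 ≤ K φ x := hK.ge_const h x

lemma Markov.abs_le {K : Op S} (hK : Markov K) {φ : S → ℝ} {c : ℝ} (h : ∀ x, |φ x| ≤ c) (x : S) :
    |K φ x| ≤ c :=
  _root_.abs_le.2 ⟨hK.ge_const (fun x => (_root_.abs_le.1 (h x)).1) x,
    hK.le_const (fun x => (_root_.abs_le.1 (h x)).2) x⟩

lemma op_add (K : Op S) (φ ψ : S → ℝ) (x : S) : K (fun y => φ y + ψ y) x = K φ x + K ψ x :=
  congrFun (K.map_add φ ψ) x

lemma op_sub (K : Op S) (φ ψ : S → ℝ) (x : S) : K (fun y => φ y - ψ y) x = K φ x - K ψ x :=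
  congrFun (K.map_sub φ ψ) x

lemma op_cmul (K : Op S) (c : ℝ) (φ : S → ℝ) (x : S) : K (fun y => c * φ y) x = c * K φ x :=
  congrFun (K.map_smul c φ) x

lemma op_sum {ι : Type*} (K : Op S) (s : Finset ι) (φ : ι → S → ℝ) (x : S) :
    K (fun y => ∑ i ∈ s, φ i y) x = ∑ i ∈ s, K (φ i) x := by
  have : (fun y => ∑ i ∈ s, φ i y) = ∑ i ∈ s, φ i := by funext y; simp
  rw [this, map_sum]; simp

lemma op_eq_sum [DecidableEq S] (K : Op S) (φ : S → ℝ) (x : S) :
    K φ x = ∑ y, φ y * K (fun z => if z = y then 1 else 0) x := by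
  simp only [← op_cmul]
  rw [← op_sum]
  have : (fun z => ∑ y, φ y * if z = y then (1 : ℝ) else 0) = φ := by funext z; simp
  rw [this]

lemma pow_succ_apply (K : Op S) (k : ℕ) (φ : S → ℝ) : (K ^ (k + 1)) φ = (K ^ k) (K φ) := by
  rw [pow_succ]; rfl

lemma pow_succ_apply' (K : Op S) (k : ℕ) (φ : S → ℝ) : (K ^ (k + 1)) φ = K ((K ^ k) φ) := by
  rw [pow_succ']; rfl

lemma pow_add_apply (K : Op S) (k l : ℕ) (φ : S → ℝ) :
    (K ^ (k + l)) φ = (K ^ k) ((K ^ l) φ) := by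
  rw [pow_add]; rfl

lemma Markov.pow_ge {K : Op S} (hK : Markov K) {φ : S → ℝ} {l : ℝ} (hl : 0 ≤ l)
    (h : ∀ x, l * φ x ≤ K φ x) (k : ℕ) (x : S) : l ^ k * φ x ≤ (K ^ k) φ x := by
  induction k with
  | zero => simp
  | succ k ih =>
    rw [pow_succ_apply]
    refine le_trans ?_ ((hK.pow k).mono _ _ h x)
    rw [op_cmul, pow_succ', mul_assoc]
    exact mul_le_mul_of_nonneg_left ih hl

lemma Markov.pow_le {K : Op S} (hK : Markov K) {φ : S → ℝ} (h : ∀ x, K φ x ≤ φ x) (k : ℕ)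
    (x : S) : (K ^ k) φ x ≤ φ x := by
  induction k with
  | zero => simp
  | succ k ih => rw [pow_succ_apply]; exact ((hK.pow k).mono _ _ h x).trans ih

lemma Markov.pt_ge {K : Op S} (hK : Markov K) {φ : S → ℝ} {l t : ℝ} (hl : 0 ≤ l) (ht : 0 ≤ t)
    (h : ∀ x, l * φ x ≤ K φ x) (x : S) : Real.exp (t * (l - 1)) * φ x ≤ Pt K t φ x :=
  hasSum_le (fun k => by
    rw [mul_assoc]
    exact mul_le_mul_of_nonneg_left (hK.pow_ge hl h k x) (poi_nonneg ht k))
    ((hasSum_poi_pow t l).mul_right (φ x)) (hasSum_Pt_apply K t φ x)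

lemma Markov.pt_le {K : Op S} (hK : Markov K) {φ : S → ℝ} {t : ℝ} (ht : 0 ≤ t)
    (h : ∀ x, K φ x ≤ φ x) (x : S) : Pt K t φ x ≤ φ x := by
  have := hasSum_le (fun k => mul_le_mul_of_nonneg_left (hK.pow_le h k x) (poi_nonneg ht k))
    (hasSum_Pt_apply K t φ x) ((hasSum_poi t).mul_right (φ x))
  simpa using this

lemma Pt_eigen (K : Op S) {φ : S → ℝ} {l : ℝ} (h : ∀ x, K φ x = l * φ x) (t : ℝ) (x : S) :
    Pt K t φ x = Real.exp (t * (l - 1)) * φ x := by
  have h1 : ∀ k x, (K ^ k) φ x = l ^ k * φ x := by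
    intro k
    induction k with
    | zero => simp
    | succ k ih =>
      intro x
      rw [pow_succ_apply, show K φ = fun x => l * φ x from funext h, op_cmul, ih]; ring
  refine (hasSum_Pt_apply K t φ x).unique ?_
  simp only [h1, ← mul_assoc]
  exact (hasSum_poi_pow t l).mul_right (φ x)

lemma Pt_ceigen (K : Op S) {v : S → ℂ} {l : ℂ}
    (h1 : ∀ x, K (fun y => (v y).re) x = (l * v x).re)
    (h2 : ∀ x, K (fun y => (v y).im) x = (l * v x).im) (t : ℝ) (x : S) :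
    Pt K t (fun y => (v y).re) x = (Complex.exp (t * (l - 1)) * v x).re ∧
      Pt K t (fun y => (v y).im) x = (Complex.exp (t * (l - 1)) * v x).im := by
  have h : ∀ k x, (K ^ k) (fun y => (v y).re) x = (l ^ k * v x).re ∧
      (K ^ k) (fun y => (v y).im) x = (l ^ k * v x).im := by
    intro k
    induction k with
    | zero => simp
    | succ k ih =>
      intro x
      rw [pow_succ_apply, pow_succ_apply, funext h1, funext h2]
      simp only [Complex.mul_re, Complex.mul_im, op_sub, op_add, op_cmul, (ih x).1, (ih x).2,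
        pow_succ]
      constructor <;> ring
  have hs := (hasSum_poi_cpow t l).mul_right (v x)
  constructor
  · refine (hasSum_Pt_apply K t _ x).unique ?_
    have e : (fun k => poi t k * (K ^ k) (fun y => (v y).re) x) =
        fun k => Complex.reCLM ((poi t k : ℂ) * l ^ k * v x) := by
      funext k; rw [(h k x).1, mul_assoc]; simp
    rw [e]; exact hs.mapL Complex.reCLM
  · refine (hasSum_Pt_apply K t _ x).unique ?_
    have e : (fun k => poi t k * (K ^ k) (fun y => (v y).im) x) =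
        fun k => Complex.imCLM ((poi t k : ℂ) * l ^ k * v x) := by
      funext k; rw [(h k x).2, mul_assoc]; simp
    rw [e]; exact hs.mapL Complex.imCLM

lemma pow_comp {K : Op S} {K' : Op S'} {ρ : S → S'}
    (h : ∀ φ : S' → ℝ, K (fun x => φ (ρ x)) = fun x => K' φ (ρ x)) (k : ℕ) (φ : S' → ℝ) :
    (K ^ k) (fun x => φ (ρ x)) = fun x => (K' ^ k) φ (ρ x) := by
  induction k generalizing φ with
  | zero => rfl
  | succ k ih => rw [pow_succ_apply, h, ih, pow_succ_apply]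

lemma Pt_comp {K : Op S} {K' : Op S'} {ρ : S → S'}
    (h : ∀ φ : S' → ℝ, K (fun x => φ (ρ x)) = fun x => K' φ (ρ x)) (t : ℝ) (φ : S' → ℝ) (x : S) :
    Pt K t (fun x => φ (ρ x)) x = Pt K' t φ (ρ x) := by
  refine (hasSum_Pt_apply K t _ x).unique ?_
  simp only [pow_comp h]
  exact hasSum_Pt_apply K' t φ (ρ x)

lemma pow_mem {K : Op S} {W : Submodule ℝ (S → ℝ)} (h : ∀ w ∈ W, K w ∈ W) (k : ℕ) {w : S → ℝ}
    (hw : w ∈ W) : (K ^ k) w ∈ W := by
  induction k with
  | zero => exact hw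
  | succ k ih => rw [pow_succ_apply']; exact h _ ih

lemma Pt_mem {K : Op S} {W : Submodule ℝ (S → ℝ)} (h : ∀ w ∈ W, K w ∈ W) (t : ℝ) {w : S → ℝ}
    (hw : w ∈ W) : Pt K t w ∈ W :=
  W.closed_of_finiteDimensional.mem_of_tendsto (hasSum_Pt_fun K t w)
    (Filter.Eventually.of_forall fun _ => W.sum_mem fun k _ => W.smul_mem _ (pow_mem h k hw))

lemma hasDerivAt_Pt_fun (K : Op S) (φ : S → ℝ) (t : ℝ) :
    HasDerivAt (fun s => Pt K s φ) (K (Pt K t φ) - Pt K t φ) t := by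
  have := (hasDerivAt_Pt' K t).clm_apply (hasDerivAt_const t φ)
  simpa using this

/-- exponential decay of a quadratic form -/
lemma decay {K : Op S} {W : Submodule ℝ (S → ℝ)} (h : ∀ w ∈ W, K w ∈ W) {M : Matrix S S ℝ}
    (hM : M.IsSymm) {β : ℝ} (hβ : ∀ w ∈ W, w ⬝ᵥ M *ᵥ K w ≤ (1 - β) * (w ⬝ᵥ M *ᵥ w)) {t : ℝ}
    (ht : 0 ≤ t) {w : S → ℝ} (hw : w ∈ W) :
    Pt K t w ⬝ᵥ M *ᵥ Pt K t w ≤ Real.exp (-(2 * β * t)) * (w ⬝ᵥ M *ᵥ w) := by
  have sym : ∀ u v : S → ℝ, u ⬝ᵥ M *ᵥ v = v ⬝ᵥ M *ᵥ u := fun u v => by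
    rw [dotProduct_mulVec, ← mulVec_transpose, hM.eq, dotProduct_comm]
  have hd : ∀ s, HasDerivAt (fun s => Real.exp (2 * β * s) * (Pt K s w ⬝ᵥ M *ᵥ Pt K s w))
      (Real.exp (2 * β * s) * (2 * β) * (Pt K s w ⬝ᵥ M *ᵥ Pt K s w) + Real.exp (2 * β * s) *
        (2 * (Pt K s w ⬝ᵥ M *ᵥ K (Pt K s w) - Pt K s w ⬝ᵥ M *ᵥ Pt K s w))) s := by
    intro s
    have h1 := hasDerivAt_pi.1 (hasDerivAt_Pt_fun K w s)
    have h2 : HasDerivAt (fun s => Pt K s w ⬝ᵥ M *ᵥ Pt K s w)
        ((K (Pt K s w) - Pt K s w) ⬝ᵥ M *ᵥ Pt K s w +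
          Pt K s w ⬝ᵥ M *ᵥ (K (Pt K s w) - Pt K s w)) s := by
      simp only [dotProduct, mulVec, ← Finset.sum_add_distrib]
      refine HasDerivAt.fun_sum fun x _ => (h1 x).mul ?_
      exact HasDerivAt.fun_sum fun y _ => (h1 y).const_mul _
    have h3 := (((hasDerivAt_id s).const_mul (2 * β)).exp).mul h2
    refine HasDerivAt.congr_deriv h3 ?_
    rw [sym (K (Pt K s w) - Pt K s w), mulVec_sub, dotProduct_sub]
    simp only [id, mul_one]; ring
  have ha : Antitone fun s => Real.exp (2 * β * s) * (Pt K s w ⬝ᵥ M *ᵥ Pt K s w) := by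
    refine antitone_of_deriv_nonpos (fun s => (hd s).differentiableAt) fun s => ?_
    rw [(hd s).deriv]
    have h1 := hβ _ (Pt_mem h s hw)
    have h2 := Real.exp_pos (2 * β * s)
    nlinarith
  have := ha ht
  simp only [mul_zero, Real.exp_zero, Pt_zero, one_apply_eq_self, one_mul] at this
  rw [Real.exp_neg, inv_mul_eq_div, le_div_iff₀ (Real.exp_pos _), mul_comm]
  exact this

/-- the kernel given by random update maps -/
noncomputable def Kup (p : Ω → ℝ) (upd : Ω → S → S) : Op S :=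
  LinearMap.toContinuousLinearMap
    { toFun := fun φ x => ∑ ω, p ω * φ (upd ω x)
      map_add' := fun φ ψ => by funext x; simp [mul_add, Finset.sum_add_distrib]
      map_smul' := fun c φ => by funext x; simp [Finset.mul_sum, mul_left_comm] }

lemma Kup_apply (p : Ω → ℝ) (upd : Ω → S → S) (φ : S → ℝ) (x : S) :
    Kup p upd φ x = ∑ ω, p ω * φ (upd ω x) := rfl

lemma markov_Kup {p : Ω → ℝ} (h0 : ∀ ω, 0 ≤ p ω) (h1 : ∑ ω, p ω = 1) (upd : Ω → S → S) :
    Markov (Kup p upd) :=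
  ⟨fun _ _ h _ => Finset.sum_le_sum fun ω _ => mul_le_mul_of_nonneg_left (h _) (h0 ω),
    fun c x => by rw [Kup_apply, ← Finset.sum_mul, h1, one_mul]⟩

lemma Kup_comp (p : Ω → ℝ) {upd : Ω → S → S} {upd' : Ω → S' → S'} {ρ : S → S'}
    (h : ∀ ω x, ρ (upd ω x) = upd' ω (ρ x)) (φ : S' → ℝ) :
    Kup p upd (fun x => φ (ρ x)) = fun x => Kup p upd' φ (ρ x) := by
  funext x; simp only [Kup_apply, h]

/-- variance bound for functions with bounded jumps -/
lemma var_le {p : Ω → ℝ} (h0 : ∀ ω, 0 ≤ p ω) (h1 : ∑ ω, p ω = 1) (upd : Ω → S → S) (F : S → ℝ)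
    {c t : ℝ} (ht : 0 ≤ t) (hc : ∀ s, 0 ≤ s → ∀ ω x,
      (Pt (Kup p upd) s F (upd ω x) - Pt (Kup p upd) s F x) ^ 2 ≤ c) (x : S) :
    Pt (Kup p upd) t (fun y => F y ^ 2) x ≤ (Pt (Kup p upd) t F x) ^ 2 + c * t := by
  set K := Kup p upd with hK
  have hM : Markov K := markov_Kup h0 h1 upd
  set u : ℝ → S → ℝ := fun s => Pt K (t - s) F with hu
  have hd : ∀ s, HasDerivAt (fun s => Pt K s (fun y => u s y ^ 2) x - c * s)
      (Pt K s (fun y => (K (fun y => u s y ^ 2) y - u s y ^ 2) +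
        2 * u s y * -(K (u s) y - u s y)) x - c) s := by
    intro s
    have h2 : HasDerivAt u (-(K (u s) - u s)) s := by
      have := (hasDerivAt_Pt_fun K F (t - s)).scomp s ((hasDerivAt_id s).const_sub t)
      exact HasDerivAt.congr_deriv this (by simp [hu])
    have h3 : HasDerivAt (fun s y => u s y ^ 2) (fun y => 2 * u s y * -(K (u s) y - u s y)) s :=
      hasDerivAt_pi.2 fun y => HasDerivAt.congr_deriv ((hasDerivAt_pi.1 h2 y).pow 2) (by simp)
    have h4 := hasDerivAt_pi.1 ((hasDerivAt_Pt K s).clm_apply h3) x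
    have h5 := h4.sub ((hasDerivAt_id s).const_mul c)
    refine HasDerivAt.congr_deriv h5 ?_
    rw [op_add, mul_one]
    rfl
  have ha : AntitoneOn (fun s => Pt K s (fun y => u s y ^ 2) x - c * s) (Set.Icc 0 t) := by
    refine antitoneOn_of_deriv_nonpos (convex_Icc _ _)
      (fun s _ => (hd s).continuousAt.continuousWithinAt)
      (fun s _ => (hd s).differentiableAt.differentiableWithinAt) fun s hs => ?_
    rw [interior_Icc] at hs
    rw [(hd s).deriv, sub_nonpos]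
    refine (hM.pt hs.1.le).le_const (fun y => ?_) x
    have e : (K (fun y => u s y ^ 2) y - u s y ^ 2) + 2 * u s y * -(K (u s) y - u s y) =
        ∑ ω, p ω * (u s (upd ω y) - u s y) ^ 2 := by
      simp only [hK, Kup_apply, sub_sq, mul_add, mul_sub, Finset.sum_add_distrib,
        Finset.sum_sub_distrib, ← Finset.sum_mul, h1]
      have : ∑ ω, p ω * (2 * u s (upd ω y) * u s y) = 2 * u s y * ∑ ω, p ω * u s (upd ω y) := by
        rw [Finset.mul_sum]; exact Finset.sum_congr rfl fun _ _ => by ring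
      rw [this]; ring
    rw [e]
    refine (Finset.sum_le_sum fun ω _ => mul_le_mul_of_nonneg_left
      (hc (t - s) (by linarith [hs.2]) ω y) (h0 ω)).trans ?_
    rw [← Finset.sum_mul, h1, one_mul]
  have := ha ⟨le_rfl, ht⟩ ⟨ht, le_rfl⟩ ht
  simp only [hu, sub_self, Pt_zero, one_apply_eq_self, sub_zero, mul_zero] at this
  linarith

/-- the operator of a matrix -/
noncomputable def opM [DecidableEq S] (A : Matrix S S ℝ) : Op S :=
  LinearMap.toContinuousLinearMap (Matrix.toLin' A)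

lemma opM_apply [DecidableEq S] (A : Matrix S S ℝ) (φ : S → ℝ) : opM A φ = A *ᵥ φ := rfl

lemma heat_eq [DecidableEq S] (A : Matrix S S ℝ) (t : ℝ) (x y : S) :
    heat A t x y = Pt (opM A) t (fun z => if z = y then 1 else 0) x := by
  have h : ∀ k (φ : S → ℝ), (opM A ^ k) φ = (A ^ k) *ᵥ φ := by
    intro k
    induction k with
    | zero => simp
    | succ k ih => intro φ; rw [pow_succ_apply, ih, opM_apply, mulVec_mulVec, pow_succ]
  rw [← (hasSum_Pt_apply _ t _ x).tsum_eq]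
  unfold heat poi
  congr 1
  funext k
  rw [h]
  simp [mulVec, dotProduct]

lemma poi_tail {t : ℝ} (ht : 0 ≤ t) (s : ℕ) :
    ∑ k ∈ Finset.range s, poi t k ≤ 2 ^ s * Real.exp (-(t / 2)) := by
  have h := hasSum_poi_pow t (1 / 2)
  have h1 := sum_le_hasSum (Finset.range s)
    (fun k _ => mul_nonneg (poi_nonneg ht k) (by positivity)) h
  have e : t * (1 / 2 - 1) = -(t / 2) := by ring
  rw [e] at h1
  refine le_trans ?_ (mul_le_mul_of_nonneg_left h1 (by positivity))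
  rw [Finset.mul_sum]
  refine Finset.sum_le_sum fun k hk => ?_
  have h2 : (1 : ℝ) ≤ 2 ^ s * (1 / 2) ^ k := by
    rw [one_div, inv_pow, ← div_eq_mul_inv, le_div_iff₀ (by positivity), one_mul]
    exact pow_le_pow_right₀ (by norm_num) (Finset.mem_range.1 hk).le
  nlinarith [poi_nonneg ht k]

end Pool.Agent.P.MP_c47a54_pr
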