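import Pool.Agent.P.MP_c47a54_pr.Semi

namespace Pool.Agent.P.MP_c47a54_pr

open Equiv Finset Matrix Function

variable {ι V Ω : Type} [Fintype ι] [DecidableEq ι] [Fintype V] [DecidableEq V] [Fintype Ω]

/-- tensor product of matrices -/
def ten (F : ι → Matrix V V ℝ) : Matrix (ι → V) (ι → V) ℝ := fun y z => ∏ a, F a (y a) (z a)

lemma ten_mul (F G : ι → Matrix V V ℝ) : ten F * ten G = ten fun a => F a * G a := by
  ext y z
  simp only [ten, mul_apply, ← prod_mul_distrib]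
  rw [prod_univ_sum, Fintype.piFinset_univ]

lemma ten_add (F G : ι → Matrix V V ℝ) :
    ten (fun a => F a + G a) = ∑ T : Finset ι, ten fun a => if a ∈ T then F a else G a := by
  ext y z
  simp only [ten, Matrix.add_apply, Matrix.sum_apply]
  rw [prod_add, powerset_univ]
  refine sum_congr rfl fun T _ => ?_
  rw [← prod_mul_prod_compl T, compl_eq_univ_sdiff]
  congr 1
  · exact prod_congr rfl fun a ha => by rw [if_pos ha]
  · exact prod_congr rfl fun a ha => by rw [if_neg (mem_sdiff.1 ha).2]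

/-- `F` on the coordinates in `T`, `G` on the others -/
def tn (T : Finset ι) (F G : Matrix V V ℝ) : Matrix (ι → V) (ι → V) ℝ :=
  ten fun a => if a ∈ T then F else G

lemma tn_mul (T : Finset ι) (F G F' G' : Matrix V V ℝ) :
    tn T F G * tn T F' G' = tn T (F * F') (G * G') := by
  rw [tn, tn, ten_mul]; congr 1; funext a; split_ifs <;> rfl

lemma tn_transpose (T : Finset ι) (F G : Matrix V V ℝ) : (tn T F G)ᵀ = tn T Fᵀ Gᵀ := by
  ext y z
  simp only [tn, ten, transpose_apply]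
  exact prod_congr rfl fun a _ => by split_ifs <;> rfl

lemma tn_same (T : Finset ι) (F : Matrix V V ℝ) : tn T F F = ten fun _ => F := by simp [tn]

lemma tn_compl (T : Finset ι) (F G : Matrix V V ℝ) : tn Tᶜ F G = tn T G F := by
  simp [tn]

lemma ten_one : ten (fun _ : ι => (1 : Matrix V V ℝ)) = 1 := by
  ext y z
  simp only [ten, one_apply, prod_boole, mem_univ, true_imp_iff, funext_iff]

lemma tn_apply (T : Finset ι) (F G : Matrix V V ℝ) (y z : ι → V) :
    tn T F G y z = (∏ a ∈ T, F (y a) (z a)) * ∏ a ∈ Tᶜ, G (y a) (z a) := by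
  rw [tn, ten, ← prod_mul_prod_compl T]
  congr 1
  · exact prod_congr rfl fun a ha => by rw [if_pos ha]
  · exact prod_congr rfl fun a ha => by rw [if_neg (mem_compl.1 ha)]

lemma tn_insert {T : Finset ι} {a : ι} (ha : a ∉ T) (F : Matrix V V ℝ) :
    tn (insert a T) F 1 = tn {a} F 1 * tn T F 1 := by
  rw [tn, tn, tn, ten_mul]; congr 1; funext c
  by_cases h : c = a
  · subst h; simp [ha]
  · simp [h]

lemma tn_single_mulVec (a : ι) (F : Matrix V V ℝ) (φ : (ι → V) → ℝ) (y : ι → V) :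
    (tn {a} F 1 *ᵥ φ) y = ∑ v, F (y a) v * φ (update y a v) := by
  simp only [mulVec, dotProduct, tn_apply, prod_singleton, one_apply, prod_boole]
  rw [← sum_fiberwise (s := univ) (g := fun z : ι → V => z a)]
  refine sum_congr rfl fun v _ => ?_
  rw [sum_eq_single (update y a v)]
  · rw [update_self, if_pos, mul_one]
    intro c hc
    rw [update_of_ne (by simpa using hc)]
  · intro z hz hne
    rw [if_neg, mul_zero, zero_mul]
    intro h
    refine hne (funext fun c => ?_)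
    by_cases hc : c = a
    · subst hc; simpa using hz
    · rw [update_of_ne hc]; exact (h c (by simpa using hc)).symm
  · simp

lemma sum_update (a : ι) (F : (ι → V) → ℝ) :
    ∑ y, ∑ v, F (update y a v) = Fintype.card V * ∑ y, F y := by
  have : ∑ x : (ι → V) × V, F (update x.1 a x.2) = ∑ x : (ι → V) × V, F x.1 := by
    refine Fintype.sum_bijective (fun x => (update x.1 a x.2, x.1 a))
      (Involutive.bijective fun x => ?_) _ _ fun _ => rfl
    simp
  rw [Fintype.sum_prod_type, Fintype.sum_prod_type] at this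
  simp only [this, sum_const, card_univ, nsmul_eq_mul, mul_sum]

lemma form_single (a : ι) (F : Matrix V V ℝ) (φ : (ι → V) → ℝ) :
    Fintype.card V * (φ ⬝ᵥ tn {a} F 1 *ᵥ φ) =
      ∑ y, (fun v => φ (update y a v)) ⬝ᵥ F *ᵥ fun v => φ (update y a v) := by
  rw [dotProduct, ← sum_update a]
  refine sum_congr rfl fun y _ => sum_congr rfl fun v _ => ?_
  simp only [tn_single_mulVec, update_self, update_idem]
  rfl

lemma form_single_le [Nonempty V] (a : ι) {F G : Matrix V V ℝ} {φ : (ι → V) → ℝ}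
    (h : ∀ y, ((fun v => φ (update y a v)) ⬝ᵥ F *ᵥ fun v => φ (update y a v)) ≤
      (fun v => φ (update y a v)) ⬝ᵥ G *ᵥ fun v => φ (update y a v)) :
    φ ⬝ᵥ tn {a} F 1 *ᵥ φ ≤ φ ⬝ᵥ tn {a} G 1 *ᵥ φ := by
  have : (0 : ℝ) < Fintype.card V := by exact_mod_cast Fintype.card_pos
  refine le_of_mul_le_mul_left ?_ this
  rw [form_single, form_single]
  exact sum_le_sum fun y _ => h y

lemma tn_single_add (a : ι) (F F' G : Matrix V V ℝ) :
    tn {a} (F + F') G = tn {a} F G + tn {a} F' G := by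
  ext y z; simp [tn_apply, add_mul]

lemma tn_single_smul (a : ι) (c : ℝ) (F G : Matrix V V ℝ) :
    tn {a} (c • F) G = c • tn {a} F G := by
  ext y z; simp [tn_apply, mul_assoc]

lemma tn_single_sum (a : ι) (F : Ω → Matrix V V ℝ) (G : Matrix V V ℝ) :
    tn {a} (∑ ω, F ω) G = ∑ ω, tn {a} (F ω) G := by
  ext y z; simp [tn_apply, Matrix.sum_apply, sum_mul]

lemma dot_tr {Y : Type} [Fintype Y] (A B : Matrix Y Y ℝ) (u v : Y → ℝ) :
    A *ᵥ u ⬝ᵥ B *ᵥ v = u ⬝ᵥ (Aᵀ * B) *ᵥ v := by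
  rw [← mulVec_mulVec, dotProduct_mulVec u, vecMul_transpose]

lemma dot_self_nonneg {Y : Type} [Fintype Y] (u : Y → ℝ) : 0 ≤ u ⬝ᵥ u :=
  sum_nonneg fun _ _ => mul_self_nonneg _

lemma norm_tn_le [Nonempty V] {S : Matrix V V ℝ} {κ : ℝ} (hκ : 0 ≤ κ)
    (h : ∀ u, S *ᵥ u ⬝ᵥ S *ᵥ u ≤ κ * (u ⬝ᵥ u)) (T : Finset ι) (φ : (ι → V) → ℝ) :
    tn T S 1 *ᵥ φ ⬝ᵥ tn T S 1 *ᵥ φ ≤ κ ^ T.card * (φ ⬝ᵥ φ) := by
  induction T using Finset.induction_on with
  | empty => simp [tn, ten_one]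
  | insert a T ha ih =>
    rw [tn_insert ha, ← mulVec_mulVec, dot_tr, tn_transpose, tn_mul, card_insert_of_notMem ha,
      pow_succ', mul_assoc]
    refine le_trans ?_ (mul_le_mul_of_nonneg_left ih hκ)
    have := form_single_le a (F := Sᵀ * S) (G := κ • 1) (φ := tn T S 1 *ᵥ φ) fun y => by
      rw [← dot_tr]; simpa [smul_mulVec] using h _
    simpa [tn_single_smul, tn_same, ten_one, smul_mulVec] using this

lemma norm_tn_ge [Nonempty V] {S : Matrix V V ℝ} (h : ∀ u, u ⬝ᵥ u ≤ S *ᵥ u ⬝ᵥ S *ᵥ u)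
    (T : Finset ι) (φ : (ι → V) → ℝ) : φ ⬝ᵥ φ ≤ tn T S 1 *ᵥ φ ⬝ᵥ tn T S 1 *ᵥ φ := by
  induction T using Finset.induction_on with
  | empty => simp [tn, ten_one]
  | insert a T ha ih =>
    rw [tn_insert ha, ← mulVec_mulVec, dot_tr (tn {a} S 1), tn_transpose, tn_mul]
    refine ih.trans ?_
    have := form_single_le a (F := 1) (G := Sᵀ * S) (φ := tn T S 1 *ᵥ φ) fun y => by
      rw [← dot_tr]; simpa using h _
    simpa [tn_same, ten_one] using this

lemma schur {Y : Type} [Fintype Y] {p : Ω → ℝ} (hp : ∀ ω, 0 ≤ p ω) (H : Ω → Matrix Y Y ℝ)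
    {φ : Y → ℝ} {r : ℝ} (h1 : ∀ y, φ y ≠ 0 → ∑ ω, p ω * ∑ z, |H ω y z| ≤ r)
    (h2 : ∀ y, φ y ≠ 0 → ∑ ω, p ω * ∑ z, |H ω z y| ≤ r) :
    ∑ ω, p ω * (φ ⬝ᵥ H ω *ᵥ φ) ≤ r * (φ ⬝ᵥ φ) := by
  have a1 : ∀ ω, φ ⬝ᵥ H ω *ᵥ φ ≤
      (∑ y, φ y ^ 2 * ∑ z, |H ω y z| + ∑ y, φ y ^ 2 * ∑ z, |H ω z y|) / 2 := by
    intro ω
    simp only [dotProduct, mulVec, mul_sum]
    rw [sum_comm (f := fun y z => φ y ^ 2 * |H ω z y|), ← sum_add_distrib, sum_div]
    refine sum_le_sum fun y _ => ?_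
    rw [← sum_add_distrib, sum_div]
    refine sum_le_sum fun z _ => ?_
    rcases abs_cases (H ω y z) with h | h <;> rw [h.1] <;>
      nlinarith [sq_nonneg (φ y - φ z), sq_nonneg (φ y + φ z)]
  have a2 : ∀ G : Ω → Y → ℝ, (∀ y, φ y ≠ 0 → ∑ ω, p ω * G ω y ≤ r) →
      ∑ ω, p ω * ∑ y, φ y ^ 2 * G ω y ≤ r * (φ ⬝ᵥ φ) := by
    intro G hG
    simp only [mul_sum, dotProduct]
    rw [sum_comm]
    refine sum_le_sum fun y _ => ?_
    by_cases h : φ y = 0
    · simp [h]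
    · have := mul_le_mul_of_nonneg_left (hG y h) (sq_nonneg (φ y))
      rw [mul_sum] at this
      simp only [mul_left_comm (p _)]
      linarith
  refine (sum_le_sum fun ω _ => mul_le_mul_of_nonneg_left (a1 ω) (hp ω)).trans ?_
  simp only [← mul_div_assoc, mul_add, ← sum_div, sum_add_distrib]
  linarith [a2 _ h1, a2 _ h2]

lemma row_tn (T : Finset ι) (H : Matrix V V ℝ) (y : ι → V) :
    ∑ z, |tn T H 1 y z| = ∏ a ∈ T, ∑ v, |H (y a) v| := by
  simp only [tn, ten, abs_prod]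
  rw [← Fintype.piFinset_univ,
    ← prod_univ_sum (fun _ => univ) fun a v => |(if a ∈ T then H else 1) (y a) v|,
    ← prod_mul_prod_compl T, prod_eq_one (s := Tᶜ), mul_one]
  · exact prod_congr rfl fun a ha => by rw [if_pos ha]
  · intro a ha
    rw [if_neg (mem_compl.1 ha)]
    simp [one_apply, apply_ite abs]

lemma col_tn (T : Finset ι) (H : Matrix V V ℝ) (y : ι → V) :
    ∑ z, |tn T H 1 z y| = ∏ a ∈ T, ∑ v, |H v (y a)| := by
  have := row_tn T Hᵀ y
  rw [← transpose_one, ← tn_transpose] at this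
  exact this

lemma supp_tn {T : Finset ι} (S : Matrix V V ℝ) {φ : (ι → V) → ℝ}
    (h : ∀ y, φ y ≠ 0 → Injective y) {y : ι → V} (hy : (tn T 1 S *ᵥ φ) y ≠ 0) :
    Set.InjOn y T := by
  obtain ⟨z, -, hz⟩ := exists_ne_zero_of_sum_ne_zero hy
  have h1 := h z (right_ne_zero_of_mul hz)
  have h0 : tn T 1 S y z ≠ 0 := left_ne_zero_of_mul hz
  rw [tn_apply] at h0
  have h2 := left_ne_zero_of_mul h0
  have h3 : ∀ a ∈ T, y a = z a := fun a ha => by
    by_contra hne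
    exact prod_ne_zero_iff.1 h2 a ha (one_apply_ne hne)
  intro a ha b hb hab
  exact h1 (by rw [← h3 a ha, ← h3 b hb, hab])

lemma marg_tn (a : ι) (S : Matrix V V ℝ) {φ : (ι → V) → ℝ}
    (h : ∀ y, ∑ v, φ (update y a v) = 0) (y : ι → V) :
    ∑ v, (tn {a} 1 S *ᵥ φ) (update y a v) = 0 := by
  have h1 : ∀ (ψ : (ι → V) → ℝ) y, (tn {a} (of fun _ _ => 1) 1 *ᵥ ψ) y = ∑ v, ψ (update y a v) :=
    fun ψ y => by simp [tn_single_mulVec]
  have h2 : tn {a} (of fun _ _ => 1) 1 *ᵥ φ = 0 := funext fun y => by rw [h1, h]; rfl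
  rw [← h1, mulVec_mulVec, tn_mul, mul_one, one_mul, ← one_mul (of fun _ _ => (1 : ℝ)),
    ← mul_one S, ← tn_mul, ← mulVec_mulVec, h2]
  simp

lemma sum_pow_card (b : ℝ) : ∑ T : Finset ι, b ^ T.card = (1 + b) ^ Fintype.card ι := by
  have := prod_one_add (s := (univ : Finset ι)) (f := fun _ => b)
  simpa using this.symm

/-- the matrix of a permutation acting on functions -/
def pm (g : Perm V) : Matrix V V ℝ := fun v w => if g v = w then 1 else 0

lemma ten_pm (g : Perm V) (φ : (ι → V) → ℝ) (y : ι → V) :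
    (ten (fun _ : ι => pm g) *ᵥ φ) y = φ (fun a => g (y a)) := by
  simp only [ten, pm, mulVec, dotProduct, prod_boole, mem_univ, true_imp_iff]
  simp only [← funext_iff]
  simp

/-- counting the coordinates with a nonconstant factor -/
lemma pattern {S P : Matrix V V ℝ} (hP : Pᵀ = P) (hPP : P * P = P)
    (hM : Sᵀ * S = Sᵀ * S * P + (1 - P)) {φ : (ι → V) → ℝ} {j : ℕ}
    (hj : ∀ A : Finset ι, A.card < j → tn A 1 P *ᵥ φ = 0) :
    j * (φ ⬝ᵥ ten (fun _ => Sᵀ * S) *ᵥ φ) ≤ ∑ a, φ ⬝ᵥ tn {a} (1 - P) (Sᵀ * S) *ᵥ φ := by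
  set M := Sᵀ * S with hMd
  have hMs : Mᵀ = M := by rw [hMd, transpose_mul, transpose_transpose]
  have e0 : P * M * P = M * P := by
    have : (1 - P) * (M * P) = 0 := by
      have h := congrArg transpose hM
      rw [hMs, transpose_add, transpose_mul, hMs, transpose_sub, hP, transpose_one] at h
      have h2 : M * P = P * M := add_right_cancel (hM.symm.trans h)
      rw [h2, ← mul_assoc, sub_mul, one_mul, hPP, sub_self, zero_mul]
    rw [sub_mul, one_mul, sub_eq_zero] at this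
    rw [mul_assoc, ← this]
  have e1 : ∀ A : Finset ι, φ ⬝ᵥ tn A (1 - P) (M * P) *ᵥ φ =
      tn A (1 - P) (S * P) *ᵥ φ ⬝ᵥ tn A (1 - P) (S * P) *ᵥ φ := fun A => by
    rw [dot_tr, tn_transpose, tn_mul, transpose_mul, hP, transpose_sub, hP, transpose_one,
      mul_assoc P, ← mul_assoc Sᵀ, ← hMd, ← mul_assoc, e0]
    congr 3
    rw [sub_mul, mul_sub, mul_sub, hPP]; simp
  have e2 : ten (fun _ : ι => M) = ∑ A : Finset ι, tn A (1 - P) (M * P) := by
    rw [show (fun _ : ι => M) = fun _ => (1 - P) + M * P from funext fun _ => by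
      rw [add_comm]; exact hM, ten_add]
    rfl
  have e3 : ∀ a : ι, tn {a} (1 - P) M =
      ∑ A : Finset ι, if a ∈ A then tn A (1 - P) (M * P) else 0 := fun a => by
    have : (fun c : ι => if c ∈ ({a} : Finset ι) then 1 - P else M) =
        fun c => (1 - P) + if c = a then 0 else M * P := funext fun c => by
      by_cases h : c = a
      · simp [h]
      · simp only [mem_singleton, h, if_false]; rw [add_comm]; exact hM
    rw [tn, this, ten_add]
    refine sum_congr rfl fun A _ => ?_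
    split_ifs with h
    · rw [tn]; congr 1; funext c
      by_cases hc : c ∈ A
      · simp [hc]
      · have : c ≠ a := fun e => hc (e ▸ h)
        simp [hc, this]
    · ext y z
      exact prod_eq_zero (mem_univ a) (by simp [h])
  simp only [e2, e3, sum_mulVec, dotProduct_sum, mul_sum]
  rw [sum_comm]
  refine sum_le_sum fun A _ => ?_
  have e4 : ∑ a, φ ⬝ᵥ (if a ∈ A then tn A (1 - P) (M * P) else 0) *ᵥ φ =
      A.card * (φ ⬝ᵥ tn A (1 - P) (M * P) *ᵥ φ) := by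
    simp [apply_ite (fun X => φ ⬝ᵥ X *ᵥ φ)]
  rw [e4]
  by_cases h : A.card < j
  · rw [← mul_one (1 - P), ← tn_mul, ← mulVec_mulVec, hj A h]; simp
  · exact mul_le_mul_of_nonneg_right (by exact_mod_cast not_lt.1 h) (e1 A ▸ dot_self_nonneg _)

/-- the quadratic form estimate for `k` balls -/
theorem main_form [Nonempty V] {p : Ω → ℝ} (hp : ∀ ω, 0 ≤ p ω)
    (g : Ω → Perm V) {S P : Matrix V V ℝ} (hP : Pᵀ = P) (hPP : P * P = P)
    (hM : Sᵀ * S = Sᵀ * S * P + (1 - P)) (hS : ∀ u, u ⬝ᵥ u ≤ S *ᵥ u ⬝ᵥ S *ᵥ u)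
    {α β b : ℝ} (hβ : 0 ≤ β) (hb : 0 ≤ b) (hbk : Fintype.card ι * b ≤ 1)
    (hL : ∀ u : V → ℝ, ∑ v, u v = 0 → u ⬝ᵥ (∑ ω, p ω • (Sᵀ * S * (pm (g ω) - 1))) *ᵥ u ≤
      u ⬝ᵥ ((-α) • (Sᵀ * S) + (-β) • (1 - P)) *ᵥ u)
    {r : Ω → V → ℝ} (hr1 : ∀ ω v, ∑ w, |(Sᵀ * S * (pm (g ω) - 1)) v w| ≤ r ω v)
    (hr2 : ∀ ω v, ∑ w, |(Sᵀ * S * (pm (g ω) - 1)) w v| ≤ r ω v)
    (hr : ∀ (T : Finset ι) (y : ι → V), Set.InjOn y T → ∑ ω, p ω * ∏ a ∈ T, r ω (y a) ≤ b ^ T.card)
    {φ : (ι → V) → ℝ} (h1 : ∀ y, φ y ≠ 0 → Injective y)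
    (h2 : ∀ a y, ∑ v, φ (update y a v) = 0) {j : ℕ}
    (hj : ∀ A : Finset ι, A.card < j → tn A 1 P *ᵥ φ = 0) :
    φ ⬝ᵥ ten (fun _ => Sᵀ * S) *ᵥ (Kup p (fun ω y a => g ω (y a)) φ) ≤
      (1 - (α * Fintype.card ι + β * j - (Fintype.card ι * b) ^ 2)) *
        (φ ⬝ᵥ ten (fun _ => Sᵀ * S) *ᵥ φ) := by
  set M := Sᵀ * S with hMd
  set B := φ ⬝ᵥ ten (fun _ => M) *ᵥ φ with hB
  set k : ℝ := (Fintype.card ι : ℝ) with hk
  have eS : ∀ (T : Finset ι) (H : Matrix V V ℝ), φ ⬝ᵥ tn T H M *ᵥ φ =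
      tn T 1 S *ᵥ φ ⬝ᵥ tn T H 1 *ᵥ (tn T 1 S *ᵥ φ) := fun T H => by
    rw [mulVec_mulVec, dot_tr, tn_transpose, tn_mul, tn_mul]; simp [hMd]
  have nS : ∀ T : Finset ι, tn T 1 S *ᵥ φ ⬝ᵥ tn T 1 S *ᵥ φ ≤ B := fun T => by
    refine (norm_tn_ge hS T _).trans_eq ?_
    rw [mulVec_mulVec, dot_tr, tn_mul, tn_transpose, tn_mul]
    simp [hB, hMd, tn_same]
  have B0 : 0 ≤ B := (dot_self_nonneg _).trans (nS ∅)
  set E : Finset ι → ℝ := fun T => ∑ ω, p ω * (φ ⬝ᵥ tn T (M * (pm (g ω) - 1)) M *ᵥ φ) with hE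
  have e1 : φ ⬝ᵥ ten (fun _ => M) *ᵥ (Kup p (fun ω y a => g ω (y a)) φ) = ∑ T, E T := by
    have : Kup p (fun ω y a => g ω (y a)) φ = ∑ ω, p ω • ten (fun _ : ι => pm (g ω)) *ᵥ φ := by
      funext y; simp [Kup_apply, ten_pm]
    rw [this, mulVec_sum, dotProduct_sum, hE, sum_comm]
    refine sum_congr rfl fun ω _ => ?_
    rw [mulVec_smul, dotProduct_smul, smul_eq_mul, ← mul_sum, mulVec_mulVec, ten_mul,
      show (fun _ : ι => M * pm (g ω)) = fun _ => M * (pm (g ω) - 1) + M from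
        funext fun _ => by rw [mul_sub]; simp, ten_add, sum_mulVec, dotProduct_sum]
    rfl
  have a1 : ∀ T, E T ≤ b ^ T.card * B := fun T => by
    simp only [hE, eS]
    refine (schur hp _ (r := b ^ T.card) (fun y hy => ?_) fun y hy => ?_).trans
      (mul_le_mul_of_nonneg_left (nS T) (by positivity))
    · refine le_trans (sum_le_sum fun ω _ => mul_le_mul_of_nonneg_left ?_ (hp ω))
        (hr T y (supp_tn S h1 hy))
      rw [row_tn]
      exact prod_le_prod (fun _ _ => by positivity) fun a _ => hr1 ω _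
    · refine le_trans (sum_le_sum fun ω _ => mul_le_mul_of_nonneg_left ?_ (hp ω))
        (hr T y (supp_tn S h1 hy))
      rw [col_tn]
      exact prod_le_prod (fun _ _ => by positivity) fun a _ => hr2 ω _
  have a2 : ∀ a, E {a} ≤ -α * B - β * (φ ⬝ᵥ tn {a} (1 - P) M *ᵥ φ) := fun a => by
    have := form_single_le a (φ := tn {a} 1 S *ᵥ φ) fun y => hL _ (marg_tn a S (h2 a) y)
    rw [← eS, ← eS] at this
    simp only [tn_single_sum, tn_single_add, tn_single_smul, tn_same, sum_mulVec, dotProduct_sum,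
      smul_mulVec, add_mulVec, dotProduct_add, dotProduct_smul, smul_eq_mul] at this
    simp only [hE]; linarith
  have a3 := pattern hP hPP hM hj
  rw [← hMd, ← hB] at a3
  have a4 : ∑ T, (b ^ T.card * B - E T) ≥ ∑ a : ι, (b * B - E {a}) := by
    have := sum_le_sum_of_subset_of_nonneg (subset_univ (univ.map ⟨fun a : ι => ({a} : Finset ι),
      singleton_injective⟩)) (f := fun T => b ^ T.card * B - E T) fun T _ _ => sub_nonneg.2 (a1 T)
    simpa using this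
  have a5 : ∑ a, E {a} ≤ -α * k * B - β * (j * B) := by
    refine (sum_le_sum fun a _ => a2 a).trans ?_
    rw [sum_sub_distrib, sum_const, card_univ, nsmul_eq_mul, ← mul_sum, ← hk]
    nlinarith [mul_le_mul_of_nonneg_left a3 hβ]
  have a6 : (1 + b) ^ Fintype.card ι ≤ 1 + k * b + (k * b) ^ 2 := by
    have h := Real.abs_exp_sub_one_sub_id_le (x := k * b) (by rwa [abs_of_nonneg (by positivity)])
    have h' : (1 + b) ^ Fintype.card ι ≤ Real.exp (k * b) := by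
      rw [hk, Real.exp_nat_mul]
      exact pow_le_pow_left₀ (by positivity) (by linarith [Real.add_one_le_exp b]) _
    linarith [(abs_le.1 h).2]
  rw [sum_sub_distrib, sum_sub_distrib, ← sum_mul, sum_pow_card, sum_const, card_univ,
    nsmul_eq_mul, ← hk] at a4
  rw [e1]
  nlinarith

end Pool.Agent.P.MP_c47a54_pr
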