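import Pool.Agent.P.MP_c47a54_pr.Base
import Pool.Agent.P.MP_c47a54_pr.Tensor

namespace Pool.Agent.P.MP_c47a54_pr

open Equiv Finset Matrix Function

variable {d n : ℕ} {μ : Perm (Fin d) → ℝ}

/-- a matrix on urns, acting on slots -/
noncomputable def lift (n : ℕ) (A : Matrix (Fin d) (Fin d) ℝ) : Matrix (Slot d n) (Slot d n) ℝ :=
  fun v w => A v.1 w.1 / n

lemma lift_mul (hn : 0 < n) (A B : Matrix (Fin d) (Fin d) ℝ) :
    lift n A * lift n B = lift n (A * B) := by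
  have : (n : ℝ) ≠ 0 := by positivity
  ext v w
  simp only [lift, mul_apply, Fintype.sum_prod_type, sum_const, card_univ, Fintype.card_fin,
    nsmul_eq_mul, sum_div]
  exact sum_congr rfl fun i _ => by field_simp

lemma lift_transpose (A : Matrix (Fin d) (Fin d) ℝ) : (lift n A)ᵀ = lift n Aᵀ := rfl

lemma lift_sub (A B : Matrix (Fin d) (Fin d) ℝ) : lift n (A - B) = lift n A - lift n B := by
  ext v w; simp [lift, sub_div]

lemma lift_mul_diag (A : Matrix (Fin d) (Fin d) ℝ) (f : Fin d → ℝ) :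
    lift n A * diagonal (fun v : Slot d n => f v.1) = lift n (A * diagonal f) := by
  ext v w; simp [lift, mul_diagonal]; ring

lemma diag_mul_lift (A : Matrix (Fin d) (Fin d) ℝ) (f : Fin d → ℝ) :
    diagonal (fun v : Slot d n => f v.1) * lift n A = lift n (diagonal f * A) := by
  ext v w; simp [lift, diagonal_mul]; ring

lemma form_lift (A : Matrix (Fin d) (Fin d) ℝ) (u : Slot d n → ℝ) :
    u ⬝ᵥ lift n A *ᵥ u = ((fun i => ∑ j, u (i, j)) ⬝ᵥ A *ᵥ fun i => ∑ j, u (i, j)) / n := by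
  simp only [dotProduct, mulVec, lift, Fintype.sum_prod_type, sum_mul, mul_sum, sum_div]
  refine sum_congr rfl fun i _ => ?_
  rw [sum_comm]
  refine sum_congr rfl fun i' _ => ?_
  rw [sum_comm]
  exact sum_congr rfl fun j _ => sum_congr rfl fun j' _ => by ring

/-- the square root of the one-ball form -/
noncomputable def Sm (n : ℕ) (R : Matrix (Fin d) (Fin d) ℝ) : Matrix (Slot d n) (Slot d n) ℝ :=
  1 - lift n 1 + lift n R

lemma Sm_sq (hn : 0 < n) (R : Matrix (Fin d) (Fin d) ℝ) :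
    (Sm n R)ᵀ * Sm n R = 1 - lift n 1 + lift n (Rᵀ * R) := by
  simp only [Sm, transpose_add, transpose_sub, transpose_one, lift_transpose, add_mul, mul_add,
    sub_mul, mul_sub, lift_mul hn, one_mul, mul_one]
  abel

lemma Sm_split (hn : 0 < n) (R : Matrix (Fin d) (Fin d) ℝ) :
    (Sm n R)ᵀ * Sm n R = (Sm n R)ᵀ * Sm n R * lift n 1 + (1 - lift n 1) := by
  simp only [Sm_sq hn, add_mul, sub_mul, lift_mul hn, one_mul, mul_one]
  abel

lemma form_perp (hn : 0 < n) (u : Slot d n → ℝ) : u ⬝ᵥ (1 - lift n 1) *ᵥ u =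
    (1 - lift n (1 : Matrix (Fin d) (Fin d) ℝ)) *ᵥ u ⬝ᵥ (1 - lift n 1) *ᵥ u := by
  rw [dot_tr]
  simp only [transpose_sub, transpose_one, lift_transpose, sub_mul, mul_sub, lift_mul hn, one_mul,
    mul_one, sub_self, sub_zero]

lemma norm_Sm (hn : 0 < n) (R : Matrix (Fin d) (Fin d) ℝ) (u : Slot d n → ℝ) :
    Sm n R *ᵥ u ⬝ᵥ Sm n R *ᵥ u = u ⬝ᵥ (1 - lift n 1) *ᵥ u +
      ((R *ᵥ fun i => ∑ j, u (i, j)) ⬝ᵥ R *ᵥ fun i => ∑ j, u (i, j)) / n := by
  rw [dot_tr, Sm_sq hn, add_mulVec, dotProduct_add, form_lift, dot_tr]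

lemma norm_slot (u : Slot d n → ℝ) : u ⬝ᵥ u = u ⬝ᵥ (1 - lift n 1) *ᵥ u +
      ((fun i => ∑ j, u (i, j)) ⬝ᵥ fun i => ∑ j, u (i, j)) / n := by
  rw [sub_mulVec, dotProduct_sub, form_lift]; simp

lemma Sm_ge (hn : 0 < n) {R : Matrix (Fin d) (Fin d) ℝ} (h : ∀ u, u ⬝ᵥ u ≤ R *ᵥ u ⬝ᵥ R *ᵥ u)
    (u : Slot d n → ℝ) : u ⬝ᵥ u ≤ Sm n R *ᵥ u ⬝ᵥ Sm n R *ᵥ u := by
  rw [norm_Sm hn, norm_slot]
  gcongr
  exact h _

lemma Sm_le (hn : 0 < n) {R : Matrix (Fin d) (Fin d) ℝ} {κ : ℝ} (hκ : 1 ≤ κ)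
    (h : ∀ u, R *ᵥ u ⬝ᵥ R *ᵥ u ≤ κ * (u ⬝ᵥ u)) (u : Slot d n → ℝ) :
    Sm n R *ᵥ u ⬝ᵥ Sm n R *ᵥ u ≤ κ * (u ⬝ᵥ u) := by
  rw [norm_Sm hn, norm_slot u, mul_add, ← mul_div_assoc]
  gcongr
  · exact le_mul_of_one_le_left (form_perp hn u ▸ dot_self_nonneg _) hκ
  · exact h _

/-- indicator that slot `v` is selected -/
def sel (x : Fin d → Fin n) (v : Slot d n) : ℝ := if v.2 = x v.1 then 1 else 0

lemma sel_nonneg (x : Fin d → Fin n) (v : Slot d n) : 0 ≤ sel x v := by
  unfold sel; split_ifs <;> norm_num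

lemma sum_sel' (v : Slot d n) (F : (Fin d → Fin n) → ℝ)
    (hF : ∀ x b, F (update x v.1 b) = F x) : (n : ℝ) * ∑ x, sel x v * F x = ∑ x, F x := by
  rw [← sum_sel v.1 v.2 F hF]
  simp only [sel, ite_mul, one_mul, zero_mul, eq_comm]

lemma sum_one_sel : ∑ _x : Fin d → Fin n, (1 : ℝ) = (n : ℝ) ^ d := by simp

lemma sum_prod_sel {ι : Type} [DecidableEq ι] (T : Finset ι) {y : ι → Slot d n}
    (hy : Set.InjOn y T) : (n : ℝ) ^ T.card * ∑ x, ∏ a ∈ T, sel x (y a) ≤ (n : ℝ) ^ d := by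
  induction T using Finset.induction_on with
  | empty => simp
  | insert a T ha ih =>
    simp only [prod_insert ha, card_insert_of_notMem ha]
    by_cases h : ∃ c ∈ T, (y c).1 = (y a).1
    · obtain ⟨c, hc, h⟩ := h
      rw [sum_eq_zero, mul_zero]
      · positivity
      intro x _
      by_cases h1 : (y a).2 = x (y a).1
      · refine mul_eq_zero_of_right _ (prod_eq_zero hc (if_neg fun h2 => ha ?_))
        rwa [← hy (by simp [hc]) (by simp) (Prod.ext h (by rw [h1, h2, h]) : y c = y a)]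
      · rw [sel, if_neg h1, zero_mul]
    · push Not at h
      rw [pow_succ, mul_assoc, sum_sel' (y a) (fun x => ∏ c ∈ T, sel x (y c))]
      · exact ih (hy.mono (by simp))
      · exact fun x b => prod_congr rfl fun c hc => by simp [sel, update_of_ne (h c hc)]

lemma sum_prod_sel' (h : Hyp μ) (hn : 0 < n) {ι : Type} [DecidableEq ι] (T : Finset ι)
    {y : ι → Slot d n} (hy : Set.InjOn y T) {C : ℝ} (hC : 0 ≤ C) :
    ∑ ω : Om d n, wt μ n ω * ∏ a ∈ T, C * (sel ω.2 (y a) + 1 / n) ≤ (2 * C / n) ^ T.card := by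
  have hn' : (0 : ℝ) < n := by exact_mod_cast hn
  have h1 : ∑ x : Fin d → Fin n, ∏ a ∈ T, (sel x (y a) + 1 / n) ≤ (2 / n) ^ T.card * n ^ d := by
    simp only [prod_add, prod_const]
    rw [sum_comm]
    refine (sum_le_sum (g := fun _ => (1 / (n : ℝ)) ^ T.card * n ^ d) fun T' hT' => ?_).trans_eq ?_
    · have hs := mem_powerset.1 hT'
      have := sum_prod_sel T' (hy.mono (by simpa using hs))
      rw [← sum_mul, ← card_sdiff_add_card_eq_card hs, pow_add, mul_comm, mul_assoc]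
      gcongr
      rwa [one_div, inv_pow, le_inv_mul_iff₀ (by positivity)]
    · rw [sum_const, card_powerset, nsmul_eq_mul, div_pow, div_pow]; push_cast; ring
  rw [Fintype.sum_prod_type]
  simp only [wt, prod_mul_distrib, prod_const, ← mul_sum, ← sum_mul, ← sum_div, h.sum]
  refine (mul_le_mul_of_nonneg_left (mul_le_mul_of_nonneg_left h1 (by positivity))
    (by positivity)).trans_eq ?_
  rw [div_pow, div_pow, mul_pow]; field_simp

lemma one_body (h : Hyp μ) (hn : 0 < n) : ∑ ω : Om d n, wt μ n ω • (pm (mv ω) - 1) =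
    (1 / n : ℝ) • (diagonal (fun v : Slot d n => urnMat μ v.1 v.1) - 1 +
      lift n (urnMat μ - diagonal fun i => urnMat μ i i)) := by
  have hn' : (0 : ℝ) < n := by exact_mod_cast hn
  ext v w
  have key : ∀ σ : Perm (Fin d), ∑ x : Fin d → Fin n, (pm (move σ x) - 1) v w =
      (n : ℝ) ^ d * (1 / n) * (((if σ v.1 = v.1 then 1 else 0) - 1) * (if v = w then 1 else 0) +
        ((if σ v.1 = w.1 then 1 else 0) - if σ v.1 = v.1 ∧ v.1 = w.1 then 1 else 0) / n) := by
    intro σ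
    by_cases h1 : σ v.1 = v.1
    · rw [sum_eq_zero]
      · simp [h1]
      intro x _
      have : move σ x v = v := by
        rw [move_apply, h1]; split_ifs with h
        · rw [← h]
        · rfl
      simp [pm, this, one_apply]
    have e : ∀ x : Fin d → Fin n, (pm (move σ x) - 1) v w =
        sel x v * ((if σ v.1 = w.1 then sel x w else 0) - if v = w then 1 else 0) := by
      intro x
      simp only [Matrix.sub_apply, pm, one_apply, sel, move_apply]
      by_cases h2 : v.2 = x v.1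
      · simp only [h2, if_true, one_mul, Prod.ext_iff]
        by_cases h3 : σ v.1 = w.1
        · simp [h3, eq_comm]
        · simp [h3]
      · simp [h2]
    have e2 : ∑ x : Fin d → Fin n, ((if σ v.1 = w.1 then sel x w else 0) - if v = w then 1 else 0) =
        (n : ℝ) ^ d * ((if σ v.1 = w.1 then 1 else 0) / n - if v = w then 1 else 0) := by
      have := sum_sel' w (fun _ => 1) fun _ _ => rfl
      rw [sum_one_sel] at this
      simp only [mul_one] at this
      rw [sum_sub_distrib]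
      split_ifs <;> simp [mul_sub, ← this] <;> field_simp
    simp only [e]
    refine mul_left_cancel₀ hn'.ne' ?_
    rw [sum_sel' v, e2]
    · simp only [h1, if_false, false_and]; field_simp; ring
    · intro x b
      by_cases h3 : σ v.1 = w.1
      · simp [sel, update_of_ne (h3 ▸ h1 : w.1 ≠ v.1)]
      · simp [h3]
  simp only [Matrix.sum_apply, Matrix.smul_apply, smul_eq_mul, Fintype.sum_prod_type, wt, ← mul_sum,
    mv, key]
  simp only [Matrix.add_apply, Matrix.sub_apply, lift, diagonal_apply, one_apply, urnMat]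
  have e3 : ∀ (σ : Perm (Fin d)) (t : ℝ), μ σ / (n : ℝ) ^ d * ((n : ℝ) ^ d * (1 / n) * t) =
      1 / n * (μ σ * t) := fun σ t => by field_simp
  simp only [e3, ← mul_sum]
  congr 1
  by_cases h1 : v = w
  · subst h1; simp [mul_sub, h.sum]
  · by_cases h2 : v.1 = w.1
    · simp [h1, h2]
    · simp [h1, h2, div_eq_mul_inv, sum_mul]

lemma one_body_le (h : Hyp μ) (hn : 0 < n) {R : Matrix (Fin d) (Fin d) ℝ} {g q : ℝ}
    (hq : ∀ i, q ≤ 1 - urnMat μ i i) (hR : ∀ u, ∑ i, u i = 0 →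
      R *ᵥ u ⬝ᵥ R *ᵥ (urnMat μ *ᵥ u - u) ≤ -g * (R *ᵥ u ⬝ᵥ R *ᵥ u))
    (u : Slot d n → ℝ) (hu : ∑ v, u v = 0) :
    u ⬝ᵥ (∑ ω : Om d n, wt μ n ω • ((Sm n R)ᵀ * Sm n R * (pm (mv ω) - 1))) *ᵥ u ≤
      u ⬝ᵥ ((-(g / n)) • ((Sm n R)ᵀ * Sm n R) + (-((q - g) / n)) • (1 - lift n 1)) *ᵥ u := by
  have hn' : (0 : ℝ) < n := by exact_mod_cast hn
  set D := diagonal fun v : Slot d n => urnMat μ v.1 v.1 with hD
  have e : (∑ ω : Om d n, wt μ n ω • ((Sm n R)ᵀ * Sm n R * (pm (mv ω) - 1))) =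
      (1 / n : ℝ) • ((1 - lift n 1)ᵀ * ((D - 1) * (1 - lift n 1)) +
        lift n (Rᵀ * (R * (urnMat μ - 1)))) := by
    simp only [← Matrix.mul_smul, ← mul_sum]
    rw [one_body h hn, Matrix.mul_smul, Sm_sq hn]
    congr 1
    simp only [hD, transpose_sub, transpose_one, lift_transpose, add_mul, mul_add, sub_mul, mul_sub,
      lift_sub, lift_mul hn, lift_mul_diag (f := fun i => urnMat μ i i),
      diag_mul_lift (f := fun i => urnMat μ i i), one_mul, mul_one, mul_assoc]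
    abel
  have h1 : u ⬝ᵥ ((1 - lift n 1)ᵀ * ((D - 1) * (1 - lift n 1))) *ᵥ u ≤
      -q * (u ⬝ᵥ (1 - lift n 1) *ᵥ u) := by
    rw [← dot_tr, ← mulVec_mulVec, form_perp hn, dotProduct, dotProduct, mul_sum]
    refine sum_le_sum fun v _ => ?_
    rw [sub_mulVec (A := D), one_mulVec, Pi.sub_apply, hD, mulVec_diagonal]
    nlinarith [hq v.1, mul_self_nonneg (((1 - lift n (1 : Matrix (Fin d) (Fin d) ℝ)) *ᵥ u) v)]
  have h2 := hR (fun i => ∑ j, u (i, j)) (by rwa [Fintype.sum_prod_type] at hu)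
  rw [e, smul_mulVec, add_mulVec, add_mulVec, smul_mulVec, smul_mulVec, dotProduct_add,
    dotProduct_smul, dotProduct_smul, dotProduct_smul, dotProduct_add, ← dot_tr (Sm n R), norm_Sm hn,
    form_lift, ← dot_tr R, ← mulVec_mulVec _ R, sub_mulVec (A := urnMat μ), one_mulVec]
  simp only [smul_eq_mul]
  have h3 := div_le_div_of_nonneg_right h2 hn'.le
  have := mul_le_mul_of_nonneg_left (add_le_add h1 h3) (by positivity : (0 : ℝ) ≤ 1 / n)
  refine this.trans_eq ?_
  ring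

lemma row_delta (ω : Om d n) (v : Slot d n) : ∑ w, |(pm (mv ω) - 1) v w| ≤ 2 * sel ω.2 v := by
  unfold sel
  split_ifs with h
  · refine (sum_le_sum fun w _ => abs_sub _ _).trans ?_
    simp [sum_add_distrib, pm, one_apply, apply_ite abs]; norm_num
  · simp [pm, move_of_ne _ h, one_apply]

lemma col_delta (ω : Om d n) (v : Slot d n) : ∑ w, |(pm (mv ω) - 1) w v| ≤ 2 * sel ω.2 v := by
  unfold sel
  split_ifs with h
  · refine (sum_le_sum fun w _ => abs_sub _ _).trans ?_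
    simp [sum_add_distrib, pm, one_apply, apply_ite abs, ← eq_symm_apply]; norm_num
  · have : ∀ w, mv ω w = v ↔ w = v := fun w => by
      conv_lhs => rw [← move_of_ne ω.1 h]
      exact (mv ω).apply_eq_iff_eq
    simp [pm, this, one_apply]

lemma rowcol (R : Matrix (Fin d) (Fin d) ℝ) : ∃ C : ℝ, 0 ≤ C ∧ ∀ n, 0 < n → ∀ (ω : Om d n) v,
    ∑ w, |((Sm n R)ᵀ * Sm n R * (pm (mv ω) - 1)) v w| ≤ C * (sel ω.2 v + 1 / n) ∧
    ∑ w, |((Sm n R)ᵀ * Sm n R * (pm (mv ω) - 1)) w v| ≤ C * (sel ω.2 v + 1 / n) := by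
  set c : ℝ := ∑ i, ∑ j, |(Rᵀ * R - 1) i j| with hc
  have hc0 : 0 ≤ c := by positivity
  have hc1 : ∀ i j, |(Rᵀ * R - 1) i j| ≤ c := fun i j =>
    (single_le_sum (f := fun j => |(Rᵀ * R - 1) i j|) (fun _ _ => abs_nonneg _) (mem_univ j)).trans
      (single_le_sum (f := fun i => ∑ j, |(Rᵀ * R - 1) i j|) (fun _ _ => by positivity) (mem_univ i))
  refine ⟨2 * (1 + c * d), by positivity, fun n hn ω v => ?_⟩
  have hn' : (0 : ℝ) < n := by exact_mod_cast hn
  have hM : ∀ a b : Slot d n, |((Sm n R)ᵀ * Sm n R) a b| ≤ (if a = b then 1 else 0) + c / n := by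
    intro a b
    rw [Sm_sq hn, show (1 - lift n 1 + lift n (Rᵀ * R)) = 1 + lift n (Rᵀ * R - 1) by
      rw [lift_sub]; abel, Matrix.add_apply]
    refine (abs_add_le _ _).trans (add_le_add (by simp [one_apply, apply_ite abs]) ?_)
    rw [lift, abs_div, abs_of_pos hn']
    gcongr
    exact hc1 _ _
  have hs : ∑ u, sel ω.2 u = d := by
    rw [Fintype.sum_prod_type]; simp [sel]
  have hv := sel_nonneg ω.2 v
  have hcd : 0 ≤ c * d := by positivity
  have hi : (0 : ℝ) ≤ 1 / n := by positivity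
  constructor
  · calc ∑ w, |((Sm n R)ᵀ * Sm n R * (pm (mv ω) - 1)) v w|
        ≤ ∑ w, ∑ u, ((if v = u then 1 else 0) + c / n) * |(pm (mv ω) - 1) u w| := by
          refine sum_le_sum fun w _ => (abs_sum_le_sum_abs _ _).trans (sum_le_sum fun u _ => ?_)
          rw [abs_mul]; gcongr; exact hM _ _
      _ ≤ ∑ u, ((if v = u then 1 else 0) + c / n) * (2 * sel ω.2 u) := by
          rw [sum_comm]
          refine sum_le_sum fun u _ => ?_
          rw [← mul_sum]; gcongr; exact row_delta ω u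
      _ = 2 * sel ω.2 v + 2 * (c * d) * (1 / n) := by
          simp only [add_mul, sum_add_distrib, ← mul_sum, hs]; simp; ring
      _ ≤ _ := by nlinarith [mul_nonneg hcd hv]
  · calc ∑ w, |((Sm n R)ᵀ * Sm n R * (pm (mv ω) - 1)) w v|
        ≤ ∑ w, ∑ u, ((if w = u then 1 else 0) + c / n) * |(pm (mv ω) - 1) u v| := by
          refine sum_le_sum fun w _ => (abs_sum_le_sum_abs _ _).trans (sum_le_sum fun u _ => ?_)
          rw [abs_mul]; gcongr; exact hM _ _
      _ = (1 + c * d) * ∑ u, |(pm (mv ω) - 1) u v| := by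
          rw [sum_comm, mul_sum]
          refine sum_congr rfl fun u _ => ?_
          rw [← sum_mul]; congr 1
          simp [sum_add_distrib]; field_simp
      _ ≤ (1 + c * d) * (2 * sel ω.2 v) := by gcongr; exact col_delta ω v
      _ ≤ _ := by nlinarith [mul_nonneg hcd hi]

end Pool.Agent.P.MP_c47a54_pr
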