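import Pool.Agent.P.MP_c47a54_pr.Single

namespace Pool.Agent.P.MP_c47a54_pr

open Equiv Finset Matrix Module WithLp
open Function hiding swap
open scoped RealInnerProductSpace

section
variable {E : Type} [NormedAddCommGroup E] [InnerProductSpace ℝ E] [FiniteDimensional ℝ E]

lemma split_bound {W' W : Submodule ℝ E} (h : W' ≤ W) (l : E →ₗ[ℝ] ℝ) {a b : ℝ} (ha : 0 ≤ a)
    (hb : 0 ≤ b) (h1 : ∀ φ ∈ W', l φ ^ 2 ≤ a * ‖φ‖ ^ 2)
    (h2 : ∀ φ ∈ W'ᗮ ⊓ W, l φ ^ 2 ≤ b * ‖φ‖ ^ 2) : ∀ φ ∈ W, l φ ^ 2 ≤ (a + b) * ‖φ‖ ^ 2 := by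
  intro φ hφ
  obtain ⟨x, hx, y, hy, rfl⟩ := W'.exists_add_mem_mem_orthogonal φ
  have hy' : y ∈ W := by simpa using W.sub_mem hφ (h hx)
  have e : ‖x + y‖ ^ 2 = ‖x‖ ^ 2 + ‖y‖ ^ 2 := by
    rw [norm_add_sq_real, Submodule.inner_right_of_mem_orthogonal hx hy]; ring
  have a1 := h1 x hx
  have a2 := h2 y ⟨hy, hy'⟩
  have a3 : l x * l y ≤ (a * ‖y‖ ^ 2 + b * ‖x‖ ^ 2) / 2 := by
    refine le_trans (le_abs_self _) (abs_le_of_sq_le_sq ?_ (by positivity))
    have := mul_le_mul a1 a2 (sq_nonneg _) (by positivity)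
    nlinarith [sq_nonneg (a * ‖y‖ ^ 2 - b * ‖x‖ ^ 2)]
  rw [e, map_add]
  nlinarith

lemma hs_step {Y I : Type} [Fintype Y] [Fintype I] {W' W : Submodule ℝ E} (h : W' ≤ W)
    (l : Y → E →ₗ[ℝ] ℝ) {H' : Y → ℝ} (h0 : ∀ y, 0 ≤ H' y)
    (h1 : ∀ y, ∀ φ ∈ W', l y φ ^ 2 ≤ H' y * ‖φ‖ ^ 2) {r : ℝ} (hr0 : 0 ≤ r)
    (hr : ∀ φ ∈ W, ∑ y, l y φ ^ 2 ≤ r * ‖φ‖ ^ 2) (f : E →ₗ[ℝ] (I → ℝ))
    (hf : ∀ φ ∈ W, f φ = 0 → φ ∈ W') : ∃ H : Y → ℝ, (∀ y, 0 ≤ H y) ∧
      (∀ y, ∀ φ ∈ W, l y φ ^ 2 ≤ H y * ‖φ‖ ^ 2) ∧ ∑ y, H y ≤ ∑ y, H' y + Fintype.card I * r := by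
  set C := W'ᗮ ⊓ W with hC
  set e := stdOrthonormalBasis ℝ C with he
  have hd : finrank ℝ C ≤ Fintype.card I := by
    rw [← finrank_fintype_fun_eq_card ℝ]
    refine LinearMap.finrank_le_finrank_of_injective (f := f ∘ₗ C.subtype) ?_
    rw [injective_iff_map_eq_zero]
    intro x hx
    exact Subtype.ext (inner_self_eq_zero.1
      (Submodule.inner_right_of_mem_orthogonal (hf _ x.2.2 hx) x.2.1))
  refine ⟨fun y => H' y + ∑ i, l y (e i) ^ 2, fun y => add_nonneg (h0 y) (by positivity),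
    fun y => split_bound h (l y) (h0 y) (by positivity) (h1 y) fun φ hφ => ?_, ?_⟩
  · have e1 : l y φ = ∑ i, l y (e i) * ⟪e i, (⟨φ, hφ⟩ : C)⟫ := by
      have := congrArg (fun x : C => l y x) (e.sum_repr' ⟨φ, hφ⟩)
      simp only [Submodule.coe_sum, Submodule.coe_smul, map_sum, map_smul, smul_eq_mul] at this
      rw [← this]
      exact sum_congr rfl fun _ _ => mul_comm _ _
    have e2 : ∑ i, ⟪e i, (⟨φ, hφ⟩ : C)⟫ ^ 2 = ‖φ‖ ^ 2 := e.sum_sq_inner_right ⟨φ, hφ⟩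
    rw [e1, ← e2]
    exact sum_mul_sq_le_sq_mul_sq _ _ _
  · rw [sum_add_distrib, sum_comm]
    gcongr
    refine (sum_le_sum (g := fun _ => r) fun i _ => ?_).trans ?_
    · have := hr _ (e i).2.2
      rwa [← Submodule.coe_norm, e.orthonormal.1 i, one_pow, mul_one] at this
    · rw [sum_const, card_univ, Fintype.card_fin, nsmul_eq_mul]
      gcongr

end

variable {d n : ℕ} {μ : Perm (Fin d) → ℝ} {ι : Type} [Fintype ι] [DecidableEq ι]

/-- the motion of the balls indexed by `ι` -/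
noncomputable def KT (μ : Perm (Fin d) → ℝ) (n : ℕ) (ι : Type) [Fintype ι] [DecidableEq ι] :
    Op (ι → Slot d n) := Kup (wt μ n) fun ω y a => mv ω (y a)

/-- invariance under the transpositions inside an urn that avoid `Z` -/
def Inv (Z : Finset (Slot d n)) (ψ : (ι → Slot d n) → ℝ) : Prop :=
  ∀ i (a b : Fin n), (i, a) ∉ Z → (i, b) ∉ Z → ∀ y, ψ (fun c => swap (i, a) (i, b) (y c)) = ψ y

/-- the filtration of the functions of injective tuples with zero marginals -/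
def GG (d n : ℕ) (ι : Type) [Fintype ι] [DecidableEq ι] (j : ℕ) :
    Submodule ℝ ((ι → Slot d n) → ℝ) where
  carrier := {φ | (∀ y, ¬Injective y → φ y = 0) ∧ (∀ a y, ∑ v, φ (update y a v) = 0) ∧
    ∀ Z : Finset (Slot d n), Z.card < j → ∀ ψ, Inv Z ψ → φ ⬝ᵥ ψ = 0}
  add_mem' := fun ha hb => ⟨fun y hy => by simp [ha.1 y hy, hb.1 y hy],
    fun a y => by simp [sum_add_distrib, ha.2.1 a y, hb.2.1 a y],
    fun Z hZ ψ hψ => by simp [ha.2.2 Z hZ ψ hψ, hb.2.2 Z hZ ψ hψ]⟩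
  zero_mem' := ⟨fun _ _ => rfl, by simp, by simp⟩
  smul_mem' := fun c φ ha => ⟨fun y hy => by simp [ha.1 y hy],
    fun a y => by simp [← mul_sum, ha.2.1 a y], fun Z hZ ψ hψ => by simp [ha.2.2 Z hZ ψ hψ]⟩

lemma swap_fst (i : Fin d) (a b : Fin n) (v : Slot d n) : (swap (i, a) (i, b) v).1 = v.1 := by
  rw [swap_apply_def]; split_ifs with h1 h2
  · rw [h1]
  · rw [h2]
  · rfl

lemma swap_slot (i : Fin d) (a b : Fin n) (v : Slot d n) :
    swap (i, a) (i, b) v = (v.1, if v.1 = i then swap a b v.2 else v.2) := by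
  obtain ⟨i', c⟩ := v
  by_cases h : i' = i
  · subst h
    simp only [swap_apply_def, Prod.mk.injEq, true_and, if_true]
    split_ifs <;> rfl
  · simp [swap_apply_def, h]

lemma move_conj (σ : Perm (Fin d)) (x : Fin d → Fin n) (i : Fin d) (a b : Fin n) :
    move σ (update x i (swap a b (x i))) * swap (i, a) (i, b) = swap (i, a) (i, b) * move σ x := by
  have e : ∀ j, update x i (swap a b (x i)) j = if j = i then swap a b (x j) else x j := fun j => by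
    by_cases h : j = i
    · subst h; simp
    · simp [h]
  ext1 v
  simp only [Perm.mul_apply, move_apply, swap_slot, e]
  by_cases h : v.2 = x v.1
  · simp [h]
  · rw [if_neg h, if_neg]
    split_ifs
    · simpa using h
    · exact h

lemma KT_mem {j : ℕ} (φ : (ι → Slot d n) → ℝ) (h : φ ∈ GG d n ι j) :
    KT μ n ι φ ∈ GG d n ι j := by
  refine ⟨fun y hy => sum_eq_zero fun ω _ => ?_, fun a y => ?_, fun Z hZ ψ hψ => ?_⟩
  · exact mul_eq_zero_of_right _ (h.1 _ fun h' => hy (Injective.of_comp (f := mv ω) h'))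
  · simp only [KT, Kup_apply]
    rw [sum_comm]
    refine sum_eq_zero fun ω _ => ?_
    rw [← mul_sum, ← mul_zero (wt μ n ω), ← h.2.1 a fun c => mv ω (y c),
      ← Equiv.sum_comp (mv ω) fun v => φ (update (fun c => mv ω (y c)) a v)]
    exact congrArg _ (sum_congr rfl fun v _ => congrArg φ (comp_update (mv ω) y a v))
  · rw [← h.2.2 Z hZ (fun y => ∑ ω, wt μ n ω * ψ fun c => (mv ω)⁻¹ (y c))]
    · simp only [KT, Kup_apply, dotProduct, sum_mul, mul_sum]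
      rw [sum_comm, sum_comm (f := fun y ω => φ y * _)]
      refine sum_congr rfl fun ω _ => ?_
      refine Fintype.sum_equiv (Equiv.piCongrRight fun _ => mv ω) _ _ fun y => ?_
      have : (fun c => (mv ω)⁻¹ ((piCongrRight fun _ => mv ω) y c)) = y := by funext c; simp
      rw [this, mul_left_comm, mul_assoc]
      rfl
    · intro i a b ha hb y
      refine Fintype.sum_bijective (fun ω : Om d n => (ω.1, update ω.2 i (swap a b (ω.2 i))))
        (Involutive.bijective fun ω => by simp) _ _ fun ω => ?_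
      rw [← hψ i a b ha hb fun c => (mv (ω.1, update ω.2 i (swap a b (ω.2 i))))⁻¹ (y c)]
      refine congrArg (wt μ n ω * ψ ·) (funext fun c => ?_)
      have := congrArg (fun g => g⁻¹ (y c)) (move_conj ω.1 ω.2 i a b)
      simpa using this.symm

lemma GG_pattern {j : ℕ} {φ : (ι → Slot d n) → ℝ} (h : φ ∈ GG d n ι j) (A : Finset ι)
    (hA : A.card < j) : tn A 1 (lift n 1) *ᵥ φ = 0 := by
  funext y
  rw [mulVec, dotProduct_comm]
  refine h.2.2 (A.image y) (card_image_le.trans_lt hA) _ fun i a b ha hb z => ?_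
  simp only [tn_apply, lift]
  refine congrArg₂ _ (prod_congr rfl fun c hc => ?_) (prod_congr rfl fun c _ => by rw [swap_fst])
  have : swap (i, a) (i, b) (y c) = y c := swap_apply_of_ne_of_ne
    (fun e => ha (e ▸ mem_image_of_mem y hc)) (fun e => hb (e ▸ mem_image_of_mem y hc))
  simp only [one_apply]
  conv_lhs => rw [← this]
  simp only [EmbeddingLike.apply_eq_iff_eq]

lemma GG_top {φ : (ι → Slot d n) → ℝ} (h : φ ∈ GG d n ι (Fintype.card ι + 1)) : φ = 0 := by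
  funext y
  have := h.2.2 (univ.image y) (Nat.lt_succ_of_le card_image_le) (fun z => if z = y then 1 else 0)
    fun i a b ha hb z => ?_
  · simpa [dotProduct] using this
  · have e : ∀ c, swap (i, a) (i, b) (y c) = y c := fun c => swap_apply_of_ne_of_ne
      (fun e => ha (e ▸ mem_image_of_mem y (mem_univ c)))
      (fun e => hb (e ▸ mem_image_of_mem y (mem_univ c)))
    simp only [funext_iff, swap_apply_eq_iff, e]

lemma Inv.eq {Z : Finset (Slot d n)} {ψ : (ι → Slot d n) → ℝ} (h : Inv Z ψ) {z : ι → Slot d n}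
    (hz : Injective z) (m : ℕ) : ∀ y : ι → Slot d n, (univ.filter fun c => y c ≠ z c).card = m →
      Injective y → (∀ c, (y c).1 = (z c).1) → (∀ c, y c ∈ Z ∨ z c ∈ Z → y c = z c) → ψ y = ψ z := by
  induction m using Nat.strong_induction_on with
  | _ m ih =>
    intro y hm hy h1 h2
    by_cases hyz : y = z
    · rw [hyz]
    obtain ⟨a, ha⟩ := Function.ne_iff.1 hyz
    have e : z a = ((y a).1, (z a).2) := Prod.ext (h1 a).symm rfl
    have hya : y a ∉ Z := fun h => ha (h2 a (Or.inl h))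
    have hza : z a ∉ Z := fun h => ha (h2 a (Or.inr h))
    rw [← h (y a).1 (y a).2 (z a).2 hya (e ▸ hza) y, ← e]
    have key : ∀ c, y c = z c → swap (y a) (z a) (y c) = z c := fun c hc => by
      rw [← hc]
      exact swap_apply_of_ne_of_ne (fun e => ha (hy e ▸ hc)) fun e => ha (hz (hc ▸ e) ▸ hc)
    have hlt : (univ.filter fun c => swap (y a) (z a) (y c) ≠ z c).card < m := by
      refine hm ▸ card_lt_card ⟨fun c => ?_, fun hs => ?_⟩
      · simpa using fun h1 h2 => h1 (key c h2)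
      · simpa using hs (mem_filter.2 ⟨mem_univ a, ha⟩)
    refine ih _ hlt _ rfl ((Equiv.swap _ _).injective.comp hy) (fun c => ?_)
      fun c hc => key c (h2 c (hc.imp_left fun hc => ?_))
    · rw [← h1 c]; conv_lhs => rw [e]
      exact swap_fst _ _ _ _
    · rw [swap_apply_def] at hc
      split_ifs at hc
      · exact absurd hc hza
      · exact absurd hc hya
      · exact hc

/-- the orbit data of a tuple -/
noncomputable def cls (Z : Finset (Slot d n)) (y : ι → Slot d n) : (Z → Option ι) × (ι → Fin d) :=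
  (fun z => if h : ∃ c, y c = z then some h.choose else none, fun c => (y c).1)

lemma cls_eq {Z : Finset (Slot d n)} {y z : ι → Slot d n} (hy : Injective y)
    (h : cls Z y = cls Z z) {c : ι} (hc : y c ∈ Z) : y c = z c := by
  have h1 := congrFun (congrArg Prod.fst h) ⟨y c, hc⟩
  have h2 : ∃ c', y c' = y c := ⟨c, rfl⟩
  simp only [cls, dif_pos h2] at h1
  split_ifs at h1 with h3
  rw [hy h2.choose_spec, Option.some_inj] at h1
  conv_rhs => rw [h1, h3.choose_spec]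

lemma GG_step {j : ℕ} {φ : (ι → Slot d n) → ℝ} (h : φ ∈ GG d n ι j)
    (h0 : ∀ Z : Finset (Slot d n), Z.card = j → ∀ q, ∑ y with cls Z y = q, φ y = 0) :
    φ ∈ GG d n ι (j + 1) := by
  refine ⟨h.1, h.2.1, fun Z hZ ψ hψ => ?_⟩
  rcases (Nat.lt_succ_iff.1 hZ).lt_or_eq with hZ | hZ
  · exact h.2.2 Z hZ ψ hψ
  rw [dotProduct, ← sum_fiberwise (s := univ) (g := cls Z)]
  refine sum_eq_zero fun q _ => ?_
  by_cases hq : ∃ z, Injective z ∧ cls Z z = q
  · obtain ⟨z, hz, rfl⟩ := hq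
    rw [← zero_mul (ψ z), ← h0 Z hZ (cls Z z), sum_mul]
    refine sum_congr rfl fun y hy => ?_
    have hy := (mem_filter.1 hy).2
    by_cases hi : Injective y
    · rw [hψ.eq hz _ y rfl hi (congrFun (congrArg Prod.snd hy)) fun c hc =>
        hc.elim (cls_eq hi hy) fun hc => (cls_eq hz hy.symm hc).symm]
    · simp [h.1 y hi]
  · exact sum_eq_zero fun y hy => by
      rw [h.1 y fun hi => hq ⟨y, hi, (mem_filter.1 hy).2⟩, zero_mul]

lemma GG_mono (j : ℕ) : GG d n ι (j + 1) ≤ GG d n ι j := fun _ h =>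
  ⟨h.1, h.2.1, fun Z hZ => h.2.2 Z (by omega)⟩

/-- Hilbert-Schmidt bound from decay rates on the filtration -/
theorem hs_bound (P : Op (ι → Slot d n)) {r : ℕ → ℝ} (hr0 : ∀ j, 0 ≤ r j)
    (hr : ∀ j, ∀ φ ∈ GG d n ι j, P φ ⬝ᵥ P φ ≤ r j * (φ ⬝ᵥ φ)) :
    ∃ H : (ι → Slot d n) → ℝ, (∀ y, 0 ≤ H y) ∧
      (∀ y, ∀ φ ∈ GG d n ι 0, P φ y ^ 2 ≤ H y * (φ ⬝ᵥ φ)) ∧
      ∑ y, H y ≤ ∑ j ∈ range (Fintype.card ι + 1),
        ((d * n).choose j * (Fintype.card ι + 1) ^ j * d ^ Fintype.card ι : ℕ) * r j := by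
  set k := Fintype.card ι with hk
  set L := (WithLp.linearEquiv 2 ℝ ((ι → Slot d n) → ℝ)).toLinearMap with hL
  have nn : ∀ φ : EuclideanSpace ℝ (ι → Slot d n), ‖φ‖ ^ 2 = φ.ofLp ⬝ᵥ φ.ofLp := fun φ => by
    rw [EuclideanSpace.real_norm_sq_eq]; simp [dotProduct, sq]
  set l : (ι → Slot d n) → EuclideanSpace ℝ (ι → Slot d n) →ₗ[ℝ] ℝ :=
    fun y => LinearMap.proj y ∘ₗ P.toLinearMap ∘ₗ L with hl
  have key : ∀ j ≤ k + 1, ∃ H : (ι → Slot d n) → ℝ, (∀ y, 0 ≤ H y) ∧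
      (∀ y, ∀ φ ∈ (GG d n ι j).comap L, l y φ ^ 2 ≤ H y * ‖φ‖ ^ 2) ∧
      ∑ y, H y ≤ ∑ j ∈ Ico j (k + 1), ((d * n).choose j * (k + 1) ^ j * d ^ k : ℕ) * r j := by
    intro j hj
    induction hj using Nat.decreasingInduction with
    | self =>
      refine ⟨0, fun _ => le_rfl, fun y φ hφ => ?_, by simp⟩
      have : L φ = 0 := GG_top hφ
      simp [hl, this]
    | of_succ j hj ih =>
      obtain ⟨H', h0, h1, h2⟩ := ih
      obtain ⟨H, a0, a1, a2⟩ := hs_step (Submodule.comap_mono (GG_mono j)) l h0 h1 (hr0 j)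
        (fun φ hφ => by rw [nn]; simpa [dotProduct, sq, hl, hL] using hr j _ hφ)
        (I := Σ Z : powersetCard j (univ : Finset (Slot d n)), (Z.1 → Option ι) × (ι → Fin d))
        (LinearMap.pi fun q => (∑ y with cls q.1.1 y = q.2, LinearMap.proj y) ∘ₗ L)
        fun φ hφ hf => GG_step hφ fun Z hZ q => by
          simpa using congrFun hf ⟨⟨Z, by simpa using hZ⟩, q⟩
      refine ⟨H, a0, a1, a2.trans ?_⟩
      rw [sum_eq_sum_Ico_succ_bot hj, add_comm]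
      refine add_le_add (le_of_eq ?_) h2
      congr 2
      rw [Fintype.card_sigma, sum_congr rfl (g := fun _ => (k + 1) ^ j * d ^ k)]
      · simp [mul_assoc]
      · intro Z _
        simp [(mem_powersetCard.1 Z.2).2, hk]
  obtain ⟨H, h0, h1, h2⟩ := key 0 (by omega)
  refine ⟨H, h0, fun y φ hφ => ?_, by rwa [range_eq_Ico]⟩
  have := h1 y (toLp 2 φ) hφ
  rwa [nn] at this

/-- decay on the filtration -/
theorem tuple_decay (h : Hyp μ) {R : Matrix (Fin d) (Fin d) ℝ} {g q κ : ℝ} (hκ : 1 ≤ κ)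
    (hq : ∀ i, q ≤ 1 - urnMat μ i i) (hgq : g ≤ q) (h1 : ∀ u, u ⬝ᵥ u ≤ R *ᵥ u ⬝ᵥ R *ᵥ u)
    (h2 : ∀ u, R *ᵥ u ⬝ᵥ R *ᵥ u ≤ κ * (u ⬝ᵥ u)) (hR : ∀ u, ∑ i, u i = 0 →
      R *ᵥ u ⬝ᵥ R *ᵥ (urnMat μ *ᵥ u - u) ≤ -g * (R *ᵥ u ⬝ᵥ R *ᵥ u)) :
    ∃ b : ℝ, 0 < b ∧ ∀ n k : ℕ, 0 < n → k * b ≤ n → ∀ t, 0 ≤ t → ∀ j, ∀ φ ∈ GG d n (Fin k) j,
      Pt (KT μ n (Fin k)) t φ ⬝ᵥ Pt (KT μ n (Fin k)) t φ ≤ κ ^ k *
        Real.exp (-(2 * ((g * k + (q - g) * j) / n - (k * b / n) ^ 2) * t)) * (φ ⬝ᵥ φ) := by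
  obtain ⟨C, hC, hrc⟩ := rowcol R
  refine ⟨2 * C + 1, by positivity, fun n k hn hk t ht j φ hφ => ?_⟩
  have hn' : (0 : ℝ) < n := by exact_mod_cast hn
  have : Nonempty (Slot d n) := ⟨(⟨0, by have := h.two; omega⟩, ⟨0, hn⟩)⟩
  have e : ∀ ψ : (Fin k → Slot d n) → ℝ, ψ ⬝ᵥ ten (fun _ => (Sm n R)ᵀ * Sm n R) *ᵥ ψ =
      tn univ (Sm n R) 1 *ᵥ ψ ⬝ᵥ tn univ (Sm n R) 1 *ᵥ ψ := fun ψ => by
    rw [dot_tr, tn_transpose, tn_mul]; simp [tn]
  have hd := decay (K := KT μ n (Fin k)) KT_mem (M := ten fun _ => (Sm n R)ᵀ * Sm n R)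
    (β := (g * k + (q - g) * j) / n - (k * (2 * C + 1) / n) ^ 2)
    (by rw [IsSymm, ← tn_same ∅, tn_transpose, transpose_mul, transpose_transpose])
    (fun w hw => ?_) ht hφ
  · rw [e, e] at hd
    refine (norm_tn_ge (Sm_ge hn h1) univ _).trans (hd.trans ?_)
    have := norm_tn_le (by linarith) (Sm_le hn hκ h2) univ φ
    rw [card_univ, Fintype.card_fin] at this
    rw [mul_comm (κ ^ k), mul_assoc _ (κ ^ k)]
    gcongr
  · have := main_form (ι := Fin k) (wt_nonneg h) mv (lift_transpose 1 |>.trans (by simp))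
      (lift_mul hn 1 1 |>.trans (by simp)) (Sm_split hn R) (Sm_ge hn h1) (α := g / n)
      (β := (q - g) / n) (b := (2 * C + 1) / n) (by have := sub_nonneg.2 hgq; positivity)
      (by positivity) (by rwa [Fintype.card_fin, ← mul_div_assoc, div_le_one hn'])
      (one_body_le h hn hq hR) (fun ω v => (hrc n hn ω v).1) (fun ω v => (hrc n hn ω v).2)
      (fun T y hy => (sum_prod_sel' h hn T hy hC).trans (by gcongr; linarith))
      (fun y hy => by_contra fun hi => hy (hw.1 y hi)) hw.2.1 (GG_pattern hw)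
    refine this.trans_eq ?_
    rw [Fintype.card_fin]; ring

end Pool.Agent.P.MP_c47a54_pr
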